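import Mathlib
import Pool.Agent.Work.MP_ffcd14_ag.Bertini
import Pool.Agent.Work.MP_10f4af_ag.VG.D2

-- merged part: Pool.Agent.Work.MP_10f4af_ag.GL.L4
section
-- merged part: Pool.Agent.Work.MP_10f4af_ag.GL.L0
section
/-!
# Regular sequences, in elementary form

Plan.  `Rg.swap`: if `x * v = i + y * s` then `s = i' + x * s'`, so `x * (v - y * s') ∈ I`.
`Rg.drop`: the ideal `N = {u | y * u ∈ I}` satisfies `N ≤ I ⊔ span {x} • N`
(`u = i + x * u'`, and `x * (y * u') ∈ I`); Nakayama, `Submodule.le_of_le_smul_of_le_jacobson_bot`.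
`Rg.pow_left`: induction on `n`; write `u = i + x * u'` and cancel `x`.
`RSq.perm`: induction on `List.Perm`, generalising `I`; the swap uses `Rg.drop`, `Rg.swap`,
`sup_right_comm`.
`RSq.pow3`: `Rg.pow`, `Rg.pow_left`; for the last term first `Rg (I ⊔ (x) ⊔ (y ^ n)) z`, then
`Rg (I ⊔ (y ^ n)) x` by `Rg.swap`, and `Rg.pow_left` for the ideal `I ⊔ (y ^ n)`.
`dom_of_punct` (Hartshorne): let `u * v = 0`, `I = Ann u`, `J = Ann I`, so `I * J = 0`.  A prime `q`
with `x ∉ q` or `y ∉ q` does not contain `I ⊔ J`: if `u` is zero in the localisation then some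
`s ∉ q` lies in `I`; otherwise each of finitely many generators of `I` is zero in the localisation,
and the product of the corresponding `s ∉ q` lies in `J`.  So `x' = x ^ n = i₁ + j₁` and
`y' = y ^ n = i₂ + j₂` (`Ideal.radical_eq_sInf`), `x' * i₂ = i₁ * i₂ = y' * i₁`, hence
`i₁ = x' * c`, `j₁ = x' * (1 - c)`, `x' * (x' * (c * (1 - c))) = 0`, and `c` or `1 - c` is a unit
(`IsLocalRing.isUnit_or_isUnit_one_sub_self`).  If `c = 0` then `x' ∈ J` kills `v ∈ I`; if `c = 1`
then `x' ∈ I` kills `u`.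
`dom_of_quot`: if `u * v = 0` and `u ∉ (x ^ n)` for some `n`, take `n` minimal and write
`u = x ^ m * u'` with `u' ∉ (x)`; then `u' * v = 0`, and `v ∈ (x ^ n)` for all `n` by induction;
Krull, `Ideal.iInf_pow_eq_bot_of_isLocalRing`, `Ideal.span_singleton_pow`.
`exists_gen_of_principal`: if `span T = (w)`, `w = ∑ r i * t i`, `t i = s i * w` and no `s i` is a
unit, then `1 - ∑ r i * s i` is a unit which kills `w`.
-/

namespace Pool.Agent.Work.MP_10f4af_ag

open IsLocalRing Ideal

universe u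

variable {R R' : Type u} [CommRing R] [CommRing R'] {I : Ideal R} {x y z : R} {l l' : List R}

/-- `x` is not a zero divisor modulo `I`. -/
def Rg (I : Ideal R) (x : R) : Prop := ∀ u, x * u ∈ I → u ∈ I

/-- A weakly regular sequence modulo `I`. -/
def RSq : Ideal R → List R → Prop
  | _, [] => True
  | I, x :: l => Rg I x ∧ RSq (I ⊔ span {x}) l

theorem GLL0_mem {u : R} : u ∈ I ⊔ span {x} ↔ ∃ s, u - x * s ∈ I := by
  constructor
  · intro h
    obtain ⟨i, hi, j, hj, rfl⟩ := Submodule.mem_sup.1 h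
    obtain ⟨s, rfl⟩ := mem_span_singleton'.1 hj
    exact ⟨s, by rwa [mul_comm, add_sub_cancel_right]⟩
  · rintro ⟨s, hs⟩
    rw [← sub_add_cancel u (x * s)]
    exact Submodule.add_mem_sup hs (mul_mem_right _ _ (mem_span_singleton_self x))

theorem GLL0_kill (q : Ideal R) [hq : q.IsPrime] (T : Finset R)
    (h : ∀ t ∈ T, ∃ s ∉ q, s * t = 0) : ∃ s ∉ q, ∀ t ∈ T, s * t = 0 := by
  classical
  induction T using Finset.induction_on with
  | empty => exact ⟨1, (ne_top_iff_one q).1 hq.ne_top, by simp⟩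
  | insert a T _ ih =>
    obtain ⟨s, hs, e⟩ := h a (Finset.mem_insert_self _ _)
    obtain ⟨s', hs', e'⟩ := ih fun t ht => h t (Finset.mem_insert_of_mem ht)
    refine ⟨s * s', fun h => (hq.mem_or_mem h).elim hs hs', fun t ht => ?_⟩
    rcases Finset.mem_insert.1 ht with rfl | ht
    · rw [mul_right_comm, e, zero_mul]
    · rw [mul_assoc, e' t ht, mul_zero]

theorem Rg.pow (h : Rg I x) (n : ℕ) : Rg I (x ^ n) := by
  induction n with
  | zero => exact fun u hu => by rwa [pow_zero, one_mul] at hu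
  | succ n ih => exact fun u hu => h u (ih _ (by rwa [pow_succ, mul_assoc] at hu))

theorem Rg.swap (h : Rg I x) (h' : Rg (I ⊔ span {x}) y) : Rg (I ⊔ span {y}) x := by
  intro v hv
  obtain ⟨s, hs⟩ := GLL0_mem.1 hv
  obtain ⟨s', hs'⟩ := GLL0_mem.1 (h' s (GLL0_mem.2 ⟨v, by
    rw [← neg_sub]; exact I.neg_mem hs⟩))
  refine GLL0_mem.2 ⟨s', h _ ?_⟩
  have := I.add_mem hs (I.mul_mem_left y hs')
  rwa [show x * v - y * s + y * (s - x * s') = x * (v - y * s') by ring] at this

theorem Rg.drop [IsLocalRing R] [IsNoetherianRing R] (hx : x ∈ maximalIdeal R) (h : Rg I x)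
    (h' : Rg (I ⊔ span {x}) y) : Rg I y := by
  let N : Ideal R := Submodule.comap (LinearMap.mul R R y) I
  have hle : N ≤ I ⊔ span {x} • N := fun u hu => by
    have hu' : y * u ∈ I := hu
    obtain ⟨s, hs⟩ := GLL0_mem.1 (h' u (mem_sup_left hu'))
    have h1 : s ∈ N := h (y * s) (by
      have := I.sub_mem hu' (I.mul_mem_left y hs)
      rwa [show y * u - y * (u - x * s) = x * (y * s) by ring] at this)
    rw [← sub_add_cancel u (x * s)]
    exact Submodule.add_mem_sup hs (Submodule.smul_mem_smul (mem_span_singleton_self x) h1)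
  exact fun u hu => Submodule.le_of_le_smul_of_le_jacobson_bot (IsNoetherian.noetherian N)
    (((span_singleton_le_iff_mem _).2 hx).trans (maximalIdeal_le_jacobson _)) hle hu

theorem Rg.pow_left (h : Rg I x) (h' : Rg (I ⊔ span {x}) y) (n : ℕ) :
    Rg (I ⊔ span {x ^ n}) y := by
  induction n with
  | zero => exact fun u _ => GLL0_mem.2 ⟨u, by simp⟩
  | succ n ih =>
    intro u hu
    obtain ⟨s, hs⟩ := GLL0_mem.1 hu
    obtain ⟨u', hu'⟩ := GLL0_mem.1 (h' u (GLL0_mem.2 ⟨x ^ n * s, by
      rwa [← mul_assoc, ← pow_succ']⟩))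
    obtain ⟨t, ht⟩ := GLL0_mem.1 (ih u' (GLL0_mem.2 ⟨s, h _ (by
      have := I.sub_mem hs (I.mul_mem_left y hu')
      rwa [show y * u - x ^ (n + 1) * s - y * (u - x * u') = x * (y * u' - x ^ n * s) by ring]
        at this)⟩))
    refine GLL0_mem.2 ⟨t, ?_⟩
    have := I.add_mem hu' (I.mul_mem_left x ht)
    rwa [show u - x * u' + x * (u' - x ^ n * t) = u - x ^ (n + 1) * t by ring] at this

theorem Rg.congr (h : Rg I x) (e : x - y ∈ I) : Rg I y := by
  intro u hu
  refine h u ?_
  have := I.add_mem (I.mul_mem_right u e) hu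
  rwa [show (x - y) * u + y * u = x * u by ring] at this

theorem RSq_append : RSq I (l ++ l') ↔ RSq I l ∧ RSq (I ⊔ Ideal.ofList l) l' := by
  induction l generalizing I with
  | nil => simp [RSq]
  | cons x l ih => simp only [List.cons_append, RSq, ih, ofList_cons, sup_assoc, and_assoc]

theorem RSq_ofFn {n : ℕ} {f : Fin n → R} :
    RSq I (List.ofFn f) ↔ ∀ j, Rg (I ⊔ span (f '' {i | i < j})) (f j) := by
  induction n generalizing I with
  | zero => simp [RSq]
  | succ n ih =>
    have e0 : f '' {i | i < 0} = ∅ := by simp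
    have e1 : ∀ j : Fin n, f '' {i | i < j.succ} =
        insert (f 0) ((fun i : Fin n => f i.succ) '' {i | i < j}) := fun j => by
      ext a
      simp [Fin.exists_fin_succ, eq_comm]
    rw [List.ofFn_succ, RSq, ih, Fin.forall_fin_succ, e0, span_empty, sup_bot_eq]
    simp only [e1, span_insert, sup_assoc]

theorem ofList_ofFn {n : ℕ} (f : Fin n → R) :
    Ideal.ofList (List.ofFn f) = span (Set.range f) := by
  refine congrArg span (Set.ext fun a => ?_)
  simp [List.mem_ofFn]

theorem RSq.perm [IsLocalRing R] [IsNoetherianRing R] (hp : l.Perm l')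
    (hm : ∀ x ∈ l, x ∈ maximalIdeal R) (h : RSq I l) : RSq I l' := by
  induction hp generalizing I with
  | nil => exact h
  | cons x _ ih => exact ⟨h.1, ih (fun y hy => hm y (List.mem_cons_of_mem _ hy)) h.2⟩
  | swap x y l =>
    exact ⟨h.1.drop (hm y List.mem_cons_self) h.2.1, h.1.swap h.2.1, sup_right_comm I _ _ ▸ h.2.2⟩
  | trans h1 _ ih1 ih2 => exact ih2 (fun y hy => hm y (h1.mem_iff.2 hy)) (ih1 hm h)

theorem RSq.congr (e : List.Forall₂ (fun x y => x - y ∈ I) l l') (h : RSq I l) : RSq I l' := by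
  have key : ∀ J, I ≤ J → RSq J l → RSq J l' := by
    clear h
    induction e with
    | nil => exact fun _ _ h => h
    | @cons a b _ _ hab _ ih =>
      intro J hJ h
      have e : J ⊔ span {a} = J ⊔ span {b} := by
        refine le_antisymm (sup_le le_sup_left ((span_singleton_le_iff_mem _).2 ?_))
          (sup_le le_sup_left ((span_singleton_le_iff_mem _).2 ?_))
        · exact GLL0_mem.2 ⟨1, by rw [mul_one]; exact hJ hab⟩
        · exact GLL0_mem.2 ⟨1, by rw [mul_one, ← neg_sub]; exact J.neg_mem (hJ hab)⟩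
      exact ⟨h.1.congr (hJ hab), e ▸ ih _ (hJ.trans le_sup_left) h.2⟩
  exact key I le_rfl h

theorem RSq.pow3 (h : RSq I [x, y, z]) (n : ℕ) : RSq I [x ^ n, y ^ n, z ^ n] := by
  obtain ⟨h1, h2, h3, -⟩ := h
  have a := h2.pow_left h3 n
  rw [sup_right_comm] at a
  have c := (h1.swap (h2.pow n)).pow_left a n
  rw [sup_right_comm] at c
  exact ⟨h1.pow n, (h1.pow_left h2 n).pow n, c.pow n, trivial⟩

theorem RSq_surj {θ : R →+* R'} (hθ : Function.Surjective θ) (hI : RingHom.ker θ ≤ I) :
    RSq (I.map θ) (l.map θ) ↔ RSq I l := by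
  induction l generalizing I with
  | nil => exact Iff.rfl
  | cons x l ih =>
    have k : ∀ u, θ u ∈ I.map θ ↔ u ∈ I := fun u => by
      rw [← mem_comap, comap_map_of_surjective θ hθ, sup_eq_left.2 (show comap θ ⊥ ≤ I from hI)]
    have e : I.map θ ⊔ span {θ x} = (I ⊔ span {x}).map θ := by
      rw [Ideal.map_sup, map_span, Set.image_singleton]
    rw [List.map_cons, RSq, RSq, e, ih (hI.trans le_sup_left), Rg, Rg, hθ.forall]
    simp only [← map_mul, k]

theorem dom_of_punct [IsLocalRing R] [IsNoetherianRing R] (h : RSq ⊥ [x, y])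
    (hq : ∀ (q : Ideal R) [q.IsPrime], x ∉ q ∨ y ∉ q → IsDomain (Localization.AtPrime q)) :
    IsDomain R := by
  obtain ⟨h1, h2, -⟩ := h
  have : NoZeroDivisors R := ⟨fun {u v} huv => by
    let I : Ideal R := LinearMap.ker (LinearMap.mul R R u)
    let J : Ideal R := Submodule.annihilator I
    have hJ : ∀ j ∈ J, ∀ i ∈ I, j * i = 0 := fun j hj => Submodule.mem_annihilator.1 hj
    have key : ∀ q : Ideal R, I ⊔ J ≤ q → q.IsPrime → x ∈ q ∧ y ∈ q := by
      intro q hle hp
      by_contra hc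
      have := hq q (not_and_or.1 hc)
      have h0 : algebraMap R (Localization.AtPrime q) u ≠ 0 := fun e => by
        obtain ⟨s, hs⟩ := (IsLocalization.map_eq_zero_iff q.primeCompl _ u).1 e
        exact s.2 (hle (mem_sup_left (show u * s.1 = 0 by rw [mul_comm]; exact hs)))
      obtain ⟨T, hT⟩ := IsNoetherian.noetherian I
      obtain ⟨s, hs, hs'⟩ := GLL0_kill q T fun t ht => by
        have e : u * t = 0 := (hT.le (Submodule.subset_span ht) : t ∈ I)
        have e' := congrArg (algebraMap R (Localization.AtPrime q)) e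
        rw [map_mul, map_zero] at e'
        obtain ⟨s, hs⟩ := (IsLocalization.map_eq_zero_iff q.primeCompl _ t).1
          ((mul_eq_zero.1 e').resolve_left h0)
        exact ⟨s.1, s.2, hs⟩
      refine hs (hle (mem_sup_right ?_))
      change s ∈ Submodule.annihilator I
      rw [← hT, Submodule.mem_annihilator_span]
      exact fun t => hs' t.1 t.2
    obtain ⟨n, hn⟩ : x ∈ (I ⊔ J).radical := by
      rw [radical_eq_sInf, Submodule.mem_sInf]
      exact fun q hq => (key q hq.1 hq.2).1
    obtain ⟨m, hm⟩ : y ∈ (I ⊔ J).radical := by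
      rw [radical_eq_sInf, Submodule.mem_sInf]
      exact fun q hq => (key q hq.1 hq.2).2
    obtain ⟨i₁, hi₁, j₁, hj₁, e₁⟩ := Submodule.mem_sup.1 hn
    obtain ⟨i₂, hi₂, j₂, hj₂, e₂⟩ := Submodule.mem_sup.1 hm
    have r1 : ∀ w, x ^ n * w = 0 → w = 0 := h1.pow n
    obtain ⟨c, hc⟩ := GLL0_mem.1 ((h1.pow_left h2 n).pow m i₁ (GLL0_mem.2 ⟨i₂, by
      rw [mem_bot]
      linear_combination hJ j₂ hj₂ i₁ hi₁ - hJ j₁ hj₁ i₂ hi₂ - i₁ * e₂ + i₂ * e₁⟩))
    rw [mem_bot] at hc
    have h3 : c * (1 - c) = 0 := r1 _ (r1 _ (by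
      linear_combination hJ j₁ hj₁ i₁ hi₁ - x ^ n * c * e₁ + (x ^ n * c - j₁) * hc))
    rcases isUnit_or_isUnit_one_sub_self c with hu | hu
    · refine Or.inl (r1 u ?_)
      have e : 1 - c = 0 := (hu.mul_right_eq_zero).1 h3
      have e' : u * i₁ = 0 := hi₁
      linear_combination e' - u * hc + u * x ^ n * e
    · refine Or.inr (r1 v ?_)
      have e : c = 0 := (hu.mul_left_eq_zero).1 h3
      linear_combination hJ j₁ hj₁ v huv - v * e₁ + v * hc + v * x ^ n * e⟩
  exact NoZeroDivisors.to_isDomain R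

theorem dom_of_quot [IsLocalRing R] [IsNoetherianRing R] (hx : x ∈ maximalIdeal R) (h : Rg ⊥ x)
    (hp : (span {x} : Ideal R).IsPrime) : IsDomain R := by
  have r : ∀ w, x * w = 0 → w = 0 := h
  have K : ∀ w, (∀ n, x ^ n ∣ w) → w = 0 := fun w hw => by
    have e := iInf_pow_eq_bot_of_isLocalRing (span {x}) hp.ne_top
    rw [← mem_bot, ← e, Submodule.mem_iInf]
    intro n
    rw [span_singleton_pow, mem_span_singleton]
    exact hw n
  have A : ∀ u, ¬ x ∣ u → ∀ n v, u * v = 0 → x ^ n ∣ v := by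
    intro u hu n
    induction n with
    | zero => exact fun v _ => by simp
    | succ n ih =>
      intro v hv
      obtain ⟨v', rfl⟩ := mem_span_singleton.1 ((hp.mem_or_mem (hv ▸ zero_mem _)).resolve_left
        fun e => hu (mem_span_singleton.1 e))
      rw [pow_succ']
      exact mul_dvd_mul_left x (ih v' (r _ (by linear_combination hv)))
  have B : ∀ v, v ≠ 0 → ∀ n u, u * v = 0 → x ^ n ∣ u := by
    intro v hv n
    induction n with
    | zero => exact fun u _ => by simp
    | succ n ih =>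
      intro u hu
      obtain ⟨u', rfl⟩ : x ∣ u := by
        by_contra hc
        exact hv (K v fun m => A u hc m v hu)
      rw [pow_succ']
      exact mul_dvd_mul_left x (ih u' (r _ (by linear_combination hu)))
  have : NoZeroDivisors R := ⟨fun {u v} huv =>
    or_iff_not_imp_right.2 fun hv => K u fun n => B v hv n u huv⟩
  exact NoZeroDivisors.to_isDomain R

theorem exists_gen_of_principal [IsLocalRing R] {T : Set R} (h : (span T).IsPrincipal)
    (h0 : span T ≠ ⊥) : ∃ g ∈ T, span T = span {g} := by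
  obtain ⟨w, hw⟩ := h
  replace hw : span T = span {w} := hw
  by_contra hc
  refine h0 (hw.trans (Submodule.eq_bot_of_le_smul_of_le_jacobson_bot (maximalIdeal R) _
    (Submodule.fg_span_singleton w) (hw.ge.trans (span_le.2 fun t ht => ?_))
    (maximalIdeal_le_jacobson _)))
  obtain ⟨s, rfl⟩ := mem_span_singleton'.1 (hw.le (subset_span ht))
  refine Submodule.smul_mem_smul (r := s) (n := w) (fun hs => hc ⟨_, ht, ?_⟩)
    (mem_span_singleton_self w)
  rw [hw, span_singleton_mul_left_unit hs]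

end Pool.Agent.Work.MP_10f4af_ag
end

-- merged part: Pool.Agent.Work.MP_10f4af_ag.GL.L2
section
/-!
# Lifting a generator from a factorial hyperplane section

Plan.  `kos3`: `g₁₂ ∈ (x, y)`, say `g₁₂ = x * t₂ - y * t₁`; then
`y * (z * t₁ + g₁₃) = x * (z * t₂ + g₂₃)` and `kos2` gives `t₃`.
`ext_one`: take `e₁, e₂, e₃` with `p eᵢ = x, y, z` and apply `kos3` to
`gᵢⱼ = ψ (p eᵢ • eⱼ - p eⱼ • eᵢ)`.  For `v : F` put `δᵢ v = ψ (p eᵢ • v - p v • eᵢ) + p v * tᵢ`, which
is linear in `v`; `y * δ₁ v = x * δ₂ v`, so `δ₁ v = x * θ v` (`kos2`), `θ` is linear as `x` is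
regular, and `δ₁ v = x * ψ v` on the kernel.
`lift_hom`: let `P : (Fin n → A) →ₗ[A] I` be onto, with kernel `K`, and `A₀ = A ⧸ (π)`.
(1) Every `ψ : K →ₗ[A] A₀` extends to `Fin n → A`: let `p₀ : (Fin n → A₀) →ₗ[A₀] A₀` send the basis
to the `φ₀ (P eᵢ)`; the reduction maps `K` onto `ker p₀` (`h0`, `hI`) and an element of `K` which
reduces to zero is in `π • K` (`hr`), so `ψ` descends to `ker p₀`; use `ext_one`.
(2) Let `N` be the range of the restriction `((Fin n → A) →ₗ[A] A) → (K →ₗ[A] A)`.  By (1), lifting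
the values on the basis, `⊤ ≤ N ⊔ span {π} • ⊤` (divide by `π`, which is regular), so `N = ⊤` by
Nakayama (`Submodule.le_of_le_smul_of_le_jacobson_bot`; `K →ₗ[A] A` is finite).
(3) Lift `φ₀ ∘ P` to `θ`; on `K` it is `π • ψ'`, extend `ψ'` to `θ'`; `θ - π • θ'` kills `K` and
factors through `I` (`Submodule.liftQ`, `LinearMap.quotKerEquivOfSurjective`).
`ufd_gcd`: noetherian induction on `I`, larger ideals first: if `I ≤ (ρ)` then `I = (ρ) * I'` with
`I' = {v | ρ * v ∈ I}`, and `I < I'` (otherwise an element `v ≠ 0` of `I` is divisible by all powers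
of `ρ`, against `WfDvdMonoid`); or take a gcd of finitely many generators.
`not_le_of_loc`: write `w = g * w'` with `w' ∈ J`; then `w' ≠ 0` as `J ≠ ⊥`, and if `J ≤ q` a prime
factor `ρ` of `w'` lies in `q` (`UniqueFactorizationMonoid.factors`, or induction on primes);
from `s * v = w' * v'` with `s ∉ q` we get `ρ ∣ v` for all `v ∈ J`.
`lift_principal`: let `I₀ = p.map mk = (g) * J` (`I₀ ≠ ⊥`: otherwise `p ≤ (π) • p`, Nakayama).
A prime of `A₀` which contains `J` contains the three `yᵢ` (`not_le_of_loc`, `hl` for its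
contraction; a generator of the extended ideal can be taken in `p`,
`IsLocalization.mem_map_algebraMap_iff`), so `yᵢ ^ n ∈ J` with `0 < n`.  Let `φ₀ v` be the quotient
of `mk v` by `g`, `φ` its lift (`RSq_surj`, `RSq.pow3`), `uᵢ ∈ p` with `φ uᵢ = yᵢ'` congruent to
`yᵢ ^ n` modulo `π`.  Then `[π, y₁', y₂']` is regular (`RSq.congr`), so is `[y₁', y₂']` (`RSq.perm`,
`RSq_append`).  From `u₁ * φ v = φ (u₁ * v) = v * φ u₁` and `kos2` get `w` with `uᵢ = w * yᵢ'` and
`v = w * φ v` for all `v ∈ p`.  If `w ∉ p` then `y₁', y₂' ∈ p`, `p` is minimal over `(y₁')` as it has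
height one, and `y₂'` is a zero divisor modulo `y₁'`
(`Ideal.exists_mul_mem_of_mem_minimalPrimes`, `Ideal.disjoint_nonZeroDivisors_of_mem_minimalPrimes`).
-/

namespace Pool.Agent.Work.MP_10f4af_ag

open IsLocalRing Ideal

universe u

variable {R A : Type u} [CommRing R] [CommRing A] {x y z : R}

theorem GLL2_reg (h : Rg ⊥ x) {u v : R} (e : x * u = x * v) : u = v := by
  have := h (u - v) (by rw [mul_sub, e, sub_self]; exact Ideal.zero_mem _)
  exact sub_eq_zero.mp ((Ideal.mem_bot).mp this)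

theorem GLL2_div {S B K : Type*} [CommRing S] [CommRing B] [Algebra S B] [AddCommGroup K]
    [Module S K] (χ : K →ₗ[S] B) (g : B) (hg : ∀ u v : B, g * u = g * v → u = v)
    (h : ∀ k, ∃ b, χ k = g * b) : ∃ χ' : K →ₗ[S] B, ∀ k, χ k = g * χ' k := by
  choose f hf using h
  refine ⟨{ toFun := f, map_add' := ?_, map_smul' := ?_ }, hf⟩
  · intro a b
    apply hg
    rw [mul_add, ← hf, ← hf, ← hf, map_add]
  · intro c a
    apply hg
    rw [← hf, map_smul, hf, RingHom.id_apply, mul_smul_comm]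

theorem GLL2_fac {S K L M : Type*} [CommRing S] [AddCommGroup K] [Module S K] [AddCommGroup L]
    [Module S L] [AddCommGroup M] [Module S M] (r : K →ₗ[S] L) (hr : Function.Surjective r)
    (ψ : K →ₗ[S] M) (h : ∀ k, r k = 0 → ψ k = 0) : ∃ ψ' : L →ₗ[S] M, ∀ k, ψ' (r k) = ψ k := by
  refine ⟨((LinearMap.ker r).liftQ ψ (fun k hk => h k hk)) ∘ₗ
    (r.quotKerEquivOfSurjective hr).symm.toLinearMap, fun k => ?_⟩
  have : (r.quotKerEquivOfSurjective hr).symm (r k) = Submodule.Quotient.mk k := by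
    rw [LinearEquiv.symm_apply_eq]
    rfl
  simp only [LinearMap.comp_apply, LinearEquiv.coe_coe, this, Submodule.liftQ_apply]

theorem kos2 (h : RSq ⊥ [x, y]) {u v : R} (e : y * u = x * v) : ∃ t, u = x * t ∧ v = y * t := by
  obtain ⟨h1, h2, -⟩ := h
  have hu : u ∈ (⊥ : Ideal R) ⊔ span {x} := by
    apply h2
    rw [e]
    exact Ideal.mem_sup_right (Ideal.mul_mem_right _ _ (Ideal.mem_span_singleton_self x))
  rw [bot_sup_eq, Ideal.mem_span_singleton] at hu
  obtain ⟨t, rfl⟩ := hu
  refine ⟨t, rfl, GLL2_reg h1 ?_⟩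
  rw [← e]; ring

theorem kos3 (h : RSq ⊥ [x, y, z]) {g₁₂ g₁₃ g₂₃ : R} (e : z * g₁₂ - y * g₁₃ + x * g₂₃ = 0) :
    ∃ t₁ t₂ t₃, g₁₂ = x * t₂ - y * t₁ ∧ g₁₃ = x * t₃ - z * t₁ ∧ g₂₃ = y * t₃ - z * t₂ := by
  obtain ⟨h1, h2, h3, -⟩ := h
  have hu : g₁₂ ∈ ((⊥ : Ideal R) ⊔ span {x}) ⊔ span {y} := by
    apply h3
    have : z * g₁₂ = x * (-g₂₃) + y * g₁₃ := by linear_combination e
    rw [this]
    exact Ideal.add_mem _
      (Ideal.mem_sup_left (Ideal.mem_sup_right
        (Ideal.mul_mem_right _ _ (Ideal.mem_span_singleton_self x))))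
      (Ideal.mem_sup_right (Ideal.mul_mem_right _ _ (Ideal.mem_span_singleton_self y)))
  rw [bot_sup_eq, Submodule.mem_sup] at hu
  obtain ⟨a, ha, b, hb, hab⟩ := hu
  obtain ⟨a, rfl⟩ := Ideal.mem_span_singleton.mp ha
  obtain ⟨b, rfl⟩ := Ideal.mem_span_singleton.mp hb
  have h' : RSq ⊥ [x, y] := ⟨h1, h2, trivial⟩
  have e' : y * (z * (-b) + g₁₃) = x * (z * a + g₂₃) := by
    rw [← hab] at e
    linear_combination -e
  obtain ⟨t, ht1, ht2⟩ := kos2 h' e'
  refine ⟨-b, a, t, ?_, ?_, ?_⟩
  · rw [← hab]; ring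
  · linear_combination ht1
  · linear_combination ht2

theorem ext_one (h : RSq ⊥ [x, y, z]) {F : Type u} [AddCommGroup F] [Module R F]
    (p : F →ₗ[R] R) (hx : x ∈ LinearMap.range p) (hy : y ∈ LinearMap.range p)
    (hz : z ∈ LinearMap.range p) (ψ : LinearMap.ker p →ₗ[R] R) :
    ∃ θ : F →ₗ[R] R, θ ∘ₗ (LinearMap.ker p).subtype = ψ := by
  obtain ⟨e₁, rfl⟩ := hx
  obtain ⟨e₂, rfl⟩ := hy
  obtain ⟨e₃, rfl⟩ := hz
  have hk : ∀ u v : F, p u • v - p v • u ∈ LinearMap.ker p := by
    intro u v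
    rw [LinearMap.mem_ker, map_sub, map_smul, map_smul, smul_eq_mul, smul_eq_mul, mul_comm,
      sub_self]
  let k : F → F →ₗ[R] LinearMap.ker p := fun u =>
    LinearMap.codRestrict _ (p u • LinearMap.id - p.smulRight u) (fun v => hk u v)
  have kv : ∀ u v : F, ((k u v : LinearMap.ker p) : F) = p u • v - p v • u := fun u v => rfl
  have jac : ∀ u v w : F, p w * ψ (k u v) - p v * ψ (k u w) + p u * ψ (k v w) = 0 := by
    intro u v w
    have : p w • k u v - p v • k u w + p u • k v w = 0 := by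
      apply Subtype.ext
      simp only [Submodule.coe_add, Submodule.coe_sub, Submodule.coe_smul, kv, smul_sub,
        smul_smul, Submodule.coe_zero]
      rw [mul_comm (p w) (p u), mul_comm (p w) (p v), mul_comm (p v) (p u)]
      abel
    have h2 := congrArg ψ this
    rwa [map_add, map_sub, map_smul, map_smul, map_smul, map_zero, smul_eq_mul, smul_eq_mul,
      smul_eq_mul] at h2
  obtain ⟨t₁, t₂, t₃, h12, -, -⟩ := kos3 h (jac e₁ e₂ e₃)
  have h' : RSq ⊥ [p e₁, p e₂] := ⟨h.1, h.2.1, trivial⟩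
  obtain ⟨θ, hθ⟩ := GLL2_div (S := R) (ψ ∘ₗ k e₁ + t₁ • p) (p e₁) (fun u v e => GLL2_reg h.1 e)
    (by
      intro v
      have e : p e₂ * (ψ (k e₁ v) + t₁ * p v) = p e₁ * (ψ (k e₂ v) + t₂ * p v) := by
        have := jac e₁ e₂ v
        rw [h12] at this
        linear_combination -this
      obtain ⟨t, ht, -⟩ := kos2 h' e
      exact ⟨t, ht⟩)
  refine ⟨θ, LinearMap.ext fun v => GLL2_reg h.1 ?_⟩
  have hv : p (v : F) = 0 := v.2
  have e1 : k e₁ v = p e₁ • v := by
    apply Subtype.ext
    rw [kv, hv, zero_smul, sub_zero, Submodule.coe_smul]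
  have e2 := hθ v
  simp only [LinearMap.add_apply, LinearMap.comp_apply, LinearMap.smul_apply, e1, map_smul, hv,
    smul_eq_mul, mul_zero, add_zero] at e2
  simp only [LinearMap.comp_apply, Submodule.subtype_apply]
  exact e2.symm


/-- Step (1): maps from the kernel to the quotient extend. -/
theorem GLL2_step1 {π : A} (hr : Rg ⊥ π) {I : Ideal A} (hI : Rg I π)
    (φ₀ : I →ₗ[A] A ⧸ span {π})
    (h0 : ∀ v : I, φ₀ v = 0 → (v : A) ∈ span {π}) {x y z : A ⧸ span {π}} (h : RSq ⊥ [x, y, z])
    (hx : x ∈ LinearMap.range φ₀) (hy : y ∈ LinearMap.range φ₀) (hz : z ∈ LinearMap.range φ₀)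
    {n : ℕ} (P : (Fin n → A) →ₗ[A] I) (hP : Function.Surjective P)
    (ψ : LinearMap.ker P →ₗ[A] A ⧸ span {π}) :
    ∃ θ : (Fin n → A) →ₗ[A] A ⧸ span {π}, ∀ k : LinearMap.ker P, θ k = ψ k := by
  classical
  have hs : Function.Surjective (algebraMap A (A ⧸ span {π})) := Ideal.Quotient.mk_surjective
  let red : (Fin n → A) →ₗ[A] (Fin n → A ⧸ span {π}) :=
    LinearMap.compLeft (Algebra.linearMap A (A ⧸ span {π})) (Fin n)
  have hred : ∀ v i, red v i = Ideal.Quotient.mk _ (v i) := fun v i => rfl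
  have hreds : Function.Surjective red := by
    intro w
    choose v hv using fun i => hs (w i)
    exact ⟨v, funext hv⟩
  have hker : ∀ v, red v = 0 → ∃ w, v = π • w := by
    intro v hv
    have : ∀ i, ∃ c, v i = π * c := by
      intro i
      have := congrFun hv i
      rw [hred, Pi.zero_apply, Ideal.Quotient.eq_zero_iff_mem, Ideal.mem_span_singleton] at this
      exact this
    choose w hw using this
    exact ⟨w, funext hw⟩
  have hπ0 : ∀ b : A ⧸ span {π}, π • b = 0 := by
    intro b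
    rw [Algebra.smul_def]
    have : algebraMap A (A ⧸ span {π}) π = 0 :=
      Ideal.Quotient.eq_zero_iff_mem.mpr (Ideal.mem_span_singleton_self π)
    rw [this, zero_mul]
  obtain ⟨p₁, hp₁⟩ := GLL2_fac red hreds (φ₀ ∘ₗ P) (by
    intro v hv
    obtain ⟨w, rfl⟩ := hker v hv
    rw [map_smul, hπ0])
  let p₀ := p₁.extendScalarsOfSurjective hs
  have hp₀ : ∀ v, p₀ (red v) = φ₀ (P v) := hp₁
  let r : LinearMap.ker P →ₗ[A] LinearMap.ker p₀ :=
    { toFun := fun k => ⟨red k, by
        rw [LinearMap.mem_ker, hp₀, LinearMap.mem_ker.mp k.2, map_zero]⟩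
      map_add' := fun a b => Subtype.ext (by simp)
      map_smul' := fun c a => Subtype.ext (by simp) }
  have hrv : ∀ k, ((r k : LinearMap.ker p₀) : Fin n → A ⧸ span {π}) = red k := fun k => rfl
  have hrs : Function.Surjective r := by
    rintro ⟨w, hw⟩
    obtain ⟨v, rfl⟩ := hreds w
    rw [LinearMap.mem_ker, hp₀] at hw
    obtain ⟨c, hc⟩ := Ideal.mem_span_singleton.mp (h0 _ hw)
    have hcI : c ∈ I := hI c (hc ▸ (P v).2)
    obtain ⟨v', hv'⟩ := hP ⟨c, hcI⟩
    refine ⟨⟨v - π • v', ?_⟩, Subtype.ext ?_⟩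
    · rw [LinearMap.mem_ker, map_sub, map_smul, hv', sub_eq_zero]
      exact Subtype.ext hc
    · rw [hrv]
      show red (v - π • v') = red v
      rw [map_sub, map_smul, sub_eq_self]
      funext i
      exact hπ0 _
  obtain ⟨ψ₁, hψ₁⟩ := GLL2_fac r hrs ψ (by
    intro k hk
    have hk' : red k = 0 := by rw [← hrv, hk]; rfl
    obtain ⟨w, hw⟩ := hker _ hk'
    have hw' : w ∈ LinearMap.ker P := by
      have h1 : P (π • w) = 0 := hw ▸ k.2
      rw [map_smul] at h1
      have h2 : π * (P w : A) = π * 0 := by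
        rw [mul_zero]; exact congrArg Subtype.val h1
      exact Subtype.ext (GLL2_reg hr h2)
    have : k = π • (⟨w, hw'⟩ : LinearMap.ker P) := Subtype.ext hw
    rw [this, map_smul, hπ0])
  have hm : ∀ t ∈ LinearMap.range φ₀, t ∈ LinearMap.range p₀ := by
    rintro t ⟨v, rfl⟩
    obtain ⟨w, rfl⟩ := hP v
    exact ⟨red w, hp₀ w⟩
  obtain ⟨θ₀, hθ₀⟩ := ext_one h p₀ (hm x hx) (hm y hy) (hm z hz)
    (ψ₁.extendScalarsOfSurjective hs)
  refine ⟨(θ₀.restrictScalars A) ∘ₗ red, fun k => ?_⟩
  have := LinearMap.congr_fun hθ₀ (r k)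
  rw [← hψ₁]
  exact this

theorem lift_hom [IsLocalRing A] [IsNoetherianRing A] {π : A} (hπ : π ∈ maximalIdeal A)
    (hr : Rg ⊥ π) {I : Ideal A} (hI : Rg I π) (φ₀ : I →ₗ[A] A ⧸ span {π})
    (h0 : ∀ v : I, φ₀ v = 0 → (v : A) ∈ span {π}) {x y z : A ⧸ span {π}} (h : RSq ⊥ [x, y, z])
    (hx : x ∈ LinearMap.range φ₀) (hy : y ∈ LinearMap.range φ₀) (hz : z ∈ LinearMap.range φ₀) :
    ∃ φ : I →ₗ[A] A, ∀ v, Ideal.Quotient.mk (span {π}) (φ v) = φ₀ v := by
  classical
  obtain ⟨n, P, hP⟩ := Module.Finite.exists_fin' A I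
  have hs : Function.Surjective (Algebra.linearMap A (A ⧸ span {π})) :=
    Ideal.Quotient.mk_surjective
  have hdiv : ∀ χ : LinearMap.ker P →ₗ[A] A,
      (∀ k, Ideal.Quotient.mk (span {π}) (χ k) = 0) →
      ∃ χ' : LinearMap.ker P →ₗ[A] A, ∀ k, χ k = π * χ' k := by
    intro χ hχ
    exact GLL2_div (S := A) χ π (fun u v e => GLL2_reg hr e) fun k =>
      Ideal.mem_span_singleton.mp (Ideal.Quotient.eq_zero_iff_mem.mp (hχ k))
  let res : ((Fin n → A) →ₗ[A] A) →ₗ[A] (LinearMap.ker P →ₗ[A] A) :=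
    LinearMap.lcomp A A (LinearMap.ker P).subtype
  have hres : ∀ θ (k : LinearMap.ker P), res θ k = θ k := fun θ k => rfl
  have hN : (⊤ : Submodule A (LinearMap.ker P →ₗ[A] A)) ≤ LinearMap.range res := by
    apply Submodule.le_of_le_smul_of_le_jacobson_bot (I := span {π}) (IsNoetherian.noetherian _)
    · rw [IsLocalRing.jacobson_eq_maximalIdeal _ bot_ne_top, Ideal.span_singleton_le_iff_mem]
      exact hπ
    · intro χ _
      obtain ⟨θ₀, hθ₀⟩ := GLL2_step1 hr hI φ₀ h0 h hx hy hz P hP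
        (Algebra.linearMap A (A ⧸ span {π}) ∘ₗ χ)
      obtain ⟨θ, hθ⟩ := Module.projective_lifting_property _ θ₀ hs
      obtain ⟨χ', hχ'⟩ := hdiv (χ - res θ) (by
        intro k
        have h1 := LinearMap.congr_fun hθ (k : Fin n → A)
        rw [hθ₀] at h1
        rw [LinearMap.sub_apply, map_sub, hres, sub_eq_zero]
        exact h1.symm)
      have : χ = res θ + π • χ' := by
        ext k
        have := hχ' k
        rw [LinearMap.sub_apply] at this
        rw [LinearMap.add_apply, LinearMap.smul_apply, smul_eq_mul, ← this]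
        ring
      rw [this]
      exact Submodule.add_mem_sup (LinearMap.mem_range_self _ _)
        (Submodule.smul_mem_smul (Ideal.mem_span_singleton_self π) Submodule.mem_top)
  obtain ⟨θ, hθ⟩ := Module.projective_lifting_property _ (φ₀ ∘ₗ P) hs
  obtain ⟨χ', hχ'⟩ := hdiv (res θ) (by
    intro k
    have h1 := LinearMap.congr_fun hθ (k : Fin n → A)
    rw [LinearMap.comp_apply, LinearMap.comp_apply, LinearMap.mem_ker.mp k.2, map_zero] at h1
    exact h1)
  obtain ⟨θ', hθ'⟩ := hN (Submodule.mem_top (x := χ'))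
  obtain ⟨φ, hφ⟩ := GLL2_fac P hP (θ - π • θ') (by
    intro k hk
    have h1 := hχ' ⟨k, hk⟩
    rw [← hθ', hres, hres] at h1
    rw [LinearMap.sub_apply, LinearMap.smul_apply, smul_eq_mul, sub_eq_zero]
    exact h1)
  refine ⟨φ, fun v => ?_⟩
  obtain ⟨w, rfl⟩ := hP v
  have h1 := LinearMap.congr_fun hθ w
  rw [hφ, LinearMap.sub_apply, LinearMap.smul_apply, smul_eq_mul, map_sub,
    Ideal.Quotient.eq_zero_iff_mem.mpr
      (Ideal.mul_mem_right _ _ (Ideal.mem_span_singleton_self π)), sub_zero]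
  exact h1


theorem ufd_gcd [IsDomain R] [UniqueFactorizationMonoid R] [IsNoetherianRing R] {I : Ideal R}
    (hI : I ≠ ⊥) : ∃ g ≠ 0, ∃ J : Ideal R, I = span {g} * J ∧
      ∀ ρ : R, Prime ρ → ¬ J ≤ span {ρ} := by
  obtain ⟨v, hvI, hv0⟩ := Submodule.exists_mem_ne_zero_of_ne_bot hI
  obtain ⟨c, ⟨g, hgc, hg⟩, hmin⟩ := (wellFounded_dvdNotUnit (α := R)).has_min
    {c : R | ∃ g, v = g * c ∧ I ≤ span {g}} ⟨v, 1, (one_mul v).symm, by simp⟩
  have hg0 : g ≠ 0 := by
    rintro rfl
    exact hv0 (by rw [hgc, zero_mul])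
  let J : Ideal R :=
    { carrier := {w | g * w ∈ I}
      add_mem' := fun {a b} ha hb => by
        show g * (a + b) ∈ I
        rw [mul_add]; exact I.add_mem ha hb
      zero_mem' := by
        show g * 0 ∈ I
        rw [mul_zero]; exact I.zero_mem
      smul_mem' := fun a b hb => by
        show g * (a * b) ∈ I
        rw [mul_left_comm]; exact I.mul_mem_left a hb }
  have hJ : ∀ w, w ∈ J ↔ g * w ∈ I := fun w => Iff.rfl
  refine ⟨g, hg0, J, ?_, ?_⟩
  · ext w
    rw [Ideal.mem_span_singleton_mul]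
    constructor
    · intro hw
      obtain ⟨w', rfl⟩ := Ideal.mem_span_singleton.mp (hg hw)
      exact ⟨w', hw, rfl⟩
    · rintro ⟨w', hw', rfl⟩
      exact hw'
  · intro ρ hρ hle
    have hc : c ∈ J := by rw [hJ, ← hgc]; exact hvI
    obtain ⟨c', hc'⟩ := Ideal.mem_span_singleton.mp (hle hc)
    refine hmin c' ⟨g * ρ, by rw [hgc, hc', mul_assoc], ?_⟩ ⟨?_, ρ, hρ.not_isUnit, ?_⟩
    · intro w hw
      obtain ⟨w', rfl⟩ := Ideal.mem_span_singleton.mp (hg hw)
      obtain ⟨w'', rfl⟩ := Ideal.mem_span_singleton.mp (hle (show w' ∈ J from hw))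
      exact Ideal.mem_span_singleton.mpr ⟨w'', (mul_assoc _ _ _).symm⟩
    · rintro rfl
      exact hv0 (by rw [hgc, hc', mul_zero, mul_zero])
    · rw [hc', mul_comm]

theorem not_le_of_loc [IsDomain R] [UniqueFactorizationMonoid R] {g : R} {J : Ideal R}
    (hg : g ≠ 0) (h0 : J ≠ ⊥) (hJ : ∀ ρ : R, Prime ρ → ¬ J ≤ span {ρ}) {q : Ideal R} [q.IsPrime]
    (h : ∃ w ∈ span {g} * J, ∀ v ∈ span {g} * J, ∃ s ∉ q, s * v ∈ span {w}) : ¬ J ≤ q := by
  intro hle
  have hq : q.IsPrime := inferInstance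
  obtain ⟨w, hw, hgen⟩ := h
  obtain ⟨w', hw', rfl⟩ := Ideal.mem_span_singleton_mul.mp hw
  have key : ∀ v ∈ J, ∃ s ∉ q, w' ∣ s * v := by
    intro v hv
    obtain ⟨s, hs, hsv⟩ := hgen (g * v) (Ideal.mem_span_singleton_mul.mpr ⟨v, hv, rfl⟩)
    obtain ⟨c, hc⟩ := Ideal.mem_span_singleton.mp hsv
    refine ⟨s, hs, c, mul_left_cancel₀ hg ?_⟩
    linear_combination hc
  have hw0 : w' ≠ 0 := by
    rintro rfl
    obtain ⟨v, hv, hv0⟩ := Submodule.exists_mem_ne_zero_of_ne_bot h0
    obtain ⟨s, hs, hsv⟩ := key v hv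
    rcases mul_eq_zero.mp (zero_dvd_iff.mp hsv) with h1 | h1
    · exact hs (h1 ▸ q.zero_mem)
    · exact hv0 h1
  obtain ⟨e, he⟩ := (UniqueFactorizationMonoid.factors_prod hw0).symm
  have hprod : (UniqueFactorizationMonoid.factors w').prod ∈ q := by
    rw [← he]
    exact q.mul_mem_right _ (hle hw')
  obtain ⟨ρ, hρ, hρq⟩ := (hq.multiset_prod_mem_iff_exists_mem _).mp hprod
  have hρp := UniqueFactorizationMonoid.prime_of_factor ρ hρ
  refine hJ ρ hρp fun v hv => ?_
  obtain ⟨s, hs, hsv⟩ := key v hv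
  rcases hρp.dvd_or_dvd ((UniqueFactorizationMonoid.dvd_of_mem_factors hρ).trans hsv) with h1 | h1
  · obtain ⟨c, rfl⟩ := h1
    exact absurd (q.mul_mem_right _ hρq) hs
  · exact Ideal.mem_span_singleton.mpr h1

theorem GLL2_locgen {p q : Ideal A} [q.IsPrime]
    (h : (p.map (algebraMap A (Localization.AtPrime q))).IsPrincipal) :
    ∃ w ∈ p, ∀ v ∈ p, ∃ s ∉ q, s * v ∈ span {w} := by
  obtain ⟨γ, hγ⟩ := h
  have hγ' : p.map (algebraMap A (Localization.AtPrime q)) = span {γ} := hγ
  have hm : γ ∈ p.map (algebraMap A (Localization.AtPrime q)) := by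
    rw [hγ']; exact Ideal.mem_span_singleton_self γ
  obtain ⟨⟨⟨w, hw⟩, s⟩, hs⟩ := (IsLocalization.mem_map_algebraMap_iff q.primeCompl _).mp hm
  refine ⟨w, hw, fun v hv => ?_⟩
  have h1 : algebraMap A (Localization.AtPrime q) v ∈
      (span {w} : Ideal A).map (algebraMap A (Localization.AtPrime q)) := by
    have h2 := Ideal.mem_map_of_mem (algebraMap A (Localization.AtPrime q)) hv
    rw [hγ', Ideal.mem_span_singleton] at h2
    rw [Ideal.map_span, Set.image_singleton, Ideal.mem_span_singleton]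
    refine Dvd.dvd.trans ?_ h2
    have hs' : γ * algebraMap A (Localization.AtPrime q) s =
        algebraMap A (Localization.AtPrime q) w := hs
    rw [← hs']
    exact (IsUnit.mul_right_dvd (IsLocalization.map_units _ s)).mpr dvd_rfl
  obtain ⟨⟨⟨a, ha⟩, t⟩, ht⟩ := (IsLocalization.mem_map_algebraMap_iff q.primeCompl _).mp h1
  have ht' : algebraMap A (Localization.AtPrime q) (v * t) =
      algebraMap A (Localization.AtPrime q) a := by
    rw [map_mul]; exact ht
  obtain ⟨c, hc⟩ := (IsLocalization.eq_iff_exists q.primeCompl _).mp ht'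
  refine ⟨c * t, (c * t).2, ?_⟩
  have : (c : A) * t * v = c * a := by rw [← hc]; ring
  rw [this]
  exact Ideal.mul_mem_left _ _ ha


theorem GLL2_final [IsNoetherianRing A] [IsDomain A] {p : Ideal A} [p.IsPrime] (hp : p.height = 1)
    (φ : p →ₗ[A] A) (u₁ u₂ : p) (h : RSq ⊥ [φ u₁, φ u₂]) : p.IsPrincipal := by
  have hpp : p.IsPrime := inferInstance
  have hsym : ∀ a b : p, (a : A) * φ b = b * φ a := by
    intro a b
    have : (a : A) • b = (b : A) • a := Subtype.ext (mul_comm _ _)
    rw [← smul_eq_mul, ← map_smul, this, map_smul, smul_eq_mul]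
  obtain ⟨w, hw1, hw2⟩ := kos2 h (u := u₁) (v := u₂) (by rw [mul_comm, hsym, mul_comm])
  have hv : ∀ v : p, (v : A) = w * φ v := by
    intro v
    apply GLL2_reg h.1
    rw [← mul_assoc, ← hw1, hsym, mul_comm]
  by_cases hw : w ∈ p
  · refine ⟨w, le_antisymm (fun v hv' => ?_) ?_⟩
    · exact Ideal.mem_span_singleton.mpr ⟨_, hv ⟨v, hv'⟩⟩
    · exact (Ideal.span_singleton_le_iff_mem _).mpr hw
  · exfalso
    have h1 : φ u₁ ∈ p := ((hpp.mem_or_mem (hw1 ▸ u₁.2)).resolve_right hw)
    have h2 : φ u₂ ∈ p := ((hpp.mem_or_mem (hw2 ▸ u₂.2)).resolve_right hw)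
    have hnz : φ u₁ ∈ nonZeroDivisors A := by
      apply mem_nonZeroDivisors_of_ne_zero
      intro h0
      have : (1 : A) = 0 := GLL2_reg h.1 (by rw [h0, zero_mul, zero_mul])
      exact one_ne_zero this
    have hmin : p ∈ (span {φ u₁} : Ideal A).minimalPrimes :=
      Ideal.mem_minimalPrimes_of_height_le ((Ideal.span_singleton_le_iff_mem _).mpr h1)
        (hp ▸ Ideal.one_le_height_span_singleton_of_mem_nonZeroDivisors hnz)
    obtain ⟨t, ht, ht'⟩ := Ideal.exists_mul_mem_of_mem_minimalPrimes hmin h2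
    have := h.2.1 t (by rwa [bot_sup_eq])
    rw [bot_sup_eq] at this
    exact ht this

theorem lift_principal [IsLocalRing A] [IsNoetherianRing A] [IsDomain A] {π y₁ y₂ y₃ : A}
    (hm : ∀ x ∈ [π, y₁, y₂, y₃], x ∈ maximalIdeal A) (h : RSq ⊥ [π, y₁, y₂, y₃])
    [IsDomain (A ⧸ span {π})] [UniqueFactorizationMonoid (A ⧸ span {π})] {p : Ideal A}
    [p.IsPrime] (hp : p.height = 1) (hπ : π ∉ p)
    (hl : ∀ (q : Ideal A) [q.IsPrime], p ≤ q → π ∈ q → y₁ ∉ q ∨ y₂ ∉ q ∨ y₃ ∉ q →
      (p.map (algebraMap A (Localization.AtPrime q))).IsPrincipal) : p.IsPrincipal := by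
  have hpp : p.IsPrime := inferInstance
  have hπm : π ∈ maximalIdeal A := hm π (by simp)
  have hI : Rg p π := fun u hu => (hpp.mem_or_mem hu).resolve_left hπ
  set mk := Ideal.Quotient.mk (span {π}) with hmk
  have hs : Function.Surjective mk := Ideal.Quotient.mk_surjective
  have hI0 : p.map mk ≠ ⊥ := by
    intro h0
    apply p.ne_bot_of_height_eq_one hp
    apply Submodule.eq_bot_of_le_smul_of_le_jacobson_bot (span {π}) p (IsNoetherian.noetherian _)
    · intro v hv
      have h1 : mk v = 0 := by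
        have := Ideal.mem_map_of_mem mk hv
        rwa [h0, Ideal.mem_bot] at this
      obtain ⟨c, rfl⟩ := Ideal.mem_span_singleton.mp (Ideal.Quotient.eq_zero_iff_mem.mp h1)
      exact Submodule.smul_mem_smul (Ideal.mem_span_singleton_self π) (hI c hv)
    · rw [IsLocalRing.jacobson_eq_maximalIdeal _ bot_ne_top, Ideal.span_singleton_le_iff_mem]
      exact hπm
  obtain ⟨g, hg, J, hgJ, hJ⟩ := ufd_gcd hI0
  have hJ0 : J ≠ ⊥ := by
    rintro rfl
    exact hI0 (by rw [hgJ, Ideal.mul_bot])
  have hrad : ∀ t : A, (∀ q : Ideal A, t ∉ q → y₁ ∉ q ∨ y₂ ∉ q ∨ y₃ ∉ q) → ∃ n, mk t ^ n ∈ J := by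
    intro t ht
    show mk t ∈ J.radical
    rw [Ideal.radical_eq_sInf, Submodule.mem_sInf]
    rintro (Q : Ideal (A ⧸ span {π})) ⟨hJQ, hQ⟩
    by_contra htQ
    have hpq : p ≤ Q.comap mk := by
      rw [← Ideal.map_le_iff_le_comap, hgJ]
      exact Ideal.mul_le_right.trans hJQ
    have hπq : π ∈ Q.comap mk := by
      rw [Ideal.mem_comap,
        Ideal.Quotient.eq_zero_iff_mem.mpr (Ideal.mem_span_singleton_self π)]
      exact Q.zero_mem
    obtain ⟨w, hw, hgen⟩ := GLL2_locgen (hl (Q.comap mk) hpq hπq (ht _ htQ))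
    refine not_le_of_loc hg hJ0 hJ (q := Q) ⟨mk w, hgJ ▸ Ideal.mem_map_of_mem mk hw, ?_⟩ hJQ
    intro v₀ hv₀
    rw [← hgJ, Ideal.mem_map_iff_of_surjective mk hs] at hv₀
    obtain ⟨v, hv, rfl⟩ := hv₀
    obtain ⟨s, hsq, hsv⟩ := hgen v hv
    refine ⟨mk s, hsq, ?_⟩
    rw [← map_mul]
    exact Ideal.mem_span_singleton.mpr (map_dvd mk (Ideal.mem_span_singleton.mp hsv))
  obtain ⟨n₁, hn₁⟩ := hrad y₁ fun q hq => Or.inl hq
  obtain ⟨n₂, hn₂⟩ := hrad y₂ fun q hq => Or.inr (Or.inl hq)
  obtain ⟨n₃, hn₃⟩ := hrad y₃ fun q hq => Or.inr (Or.inr hq)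
  obtain ⟨n, hn0, h₁, h₂, h₃⟩ : ∃ n, n ≠ 0 ∧ mk y₁ ^ n ∈ J ∧ mk y₂ ^ n ∈ J ∧ mk y₃ ^ n ∈ J :=
    ⟨n₁ + n₂ + n₃ + 1, by omega, Ideal.pow_mem_of_pow_mem J hn₁ (by omega),
      Ideal.pow_mem_of_pow_mem J hn₂ (by omega), Ideal.pow_mem_of_pow_mem J hn₃ (by omega)⟩
  obtain ⟨φ₀, hφ₀⟩ := GLL2_div (Algebra.linearMap A (A ⧸ span {π}) ∘ₗ p.subtype) g
    (fun u v e => mul_left_cancel₀ hg e) (by
      intro k
      have := Ideal.mem_map_of_mem mk k.2
      rw [hgJ, Ideal.mem_span_singleton_mul] at this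
      obtain ⟨b, -, hb⟩ := this
      exact ⟨b, hb.symm⟩)
  have hφ₀' : ∀ k : p, mk k = g * φ₀ k := hφ₀
  have hrange : ∀ b ∈ J, b ∈ LinearMap.range φ₀ := by
    intro b hb
    have : g * b ∈ p.map mk := by
      rw [hgJ]; exact Ideal.mem_span_singleton_mul.mpr ⟨b, hb, rfl⟩
    obtain ⟨v, hv, hvb⟩ := (Ideal.mem_map_iff_of_surjective mk hs).mp this
    exact ⟨⟨v, hv⟩, mul_left_cancel₀ hg (by rw [← hφ₀', ← hvb])⟩
  have h3 : RSq (⊥ ⊔ span {π}) [y₁ ^ n, y₂ ^ n, y₃ ^ n] := RSq.pow3 h.2 n
  have h3' : RSq ⊥ [mk y₁ ^ n, mk y₂ ^ n, mk y₃ ^ n] := by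
    have := (RSq_surj (θ := mk) hs (I := ⊥ ⊔ span {π})
      (by rw [bot_sup_eq, hmk, Ideal.mk_ker])).mpr h3
    rw [bot_sup_eq, hmk, Ideal.map_quotient_self] at this
    simpa only [List.map_cons, List.map_nil, map_pow] using this
  obtain ⟨φ, hφ⟩ := lift_hom hπm h.1 hI φ₀ (by
    intro v hv
    have := hφ₀' v
    rw [hv, mul_zero] at this
    exact Ideal.Quotient.eq_zero_iff_mem.mp this) h3' (hrange _ h₁) (hrange _ h₂) (hrange _ h₃)
  obtain ⟨u₁, hu₁⟩ := hrange _ h₁
  obtain ⟨u₂, hu₂⟩ := hrange _ h₂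
  have e₁ : y₁ ^ n - φ u₁ ∈ span {π} := by
    rw [← Ideal.Quotient.eq, hφ, hu₁, map_pow]
  have e₂ : y₂ ^ n - φ u₂ ∈ span {π} := by
    rw [← Ideal.Quotient.eq, hφ, hu₂, map_pow]
  have hmax : ∀ a b : A, a ∈ maximalIdeal A → a ^ n - b ∈ span {π} → b ∈ maximalIdeal A := by
    intro a b ha hab
    have h1 := (Ideal.span_singleton_le_iff_mem _).mpr hπm hab
    have h2 := Ideal.sub_mem _ (Ideal.pow_mem_of_mem _ ha n (Nat.pos_of_ne_zero hn0)) h1
    rwa [sub_sub_cancel] at h2
  have h4 : RSq (⊥ ⊔ span {π}) [φ u₁, φ u₂] :=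
    RSq.congr (l := [y₁ ^ n, y₂ ^ n])
      (List.Forall₂.cons (Ideal.mem_sup_right e₁)
        (List.Forall₂.cons (Ideal.mem_sup_right e₂) List.Forall₂.nil))
      ⟨h3.1, h3.2.1, trivial⟩
  have h5 : RSq ⊥ [φ u₁, φ u₂, π] := by
    refine RSq.perm (l := [π, φ u₁, φ u₂]) ?_ ?_ ⟨h.1, h4⟩
    · exact (List.perm_append_singleton π [φ u₁, φ u₂]).symm
    · intro a ha
      simp only [List.mem_cons, List.not_mem_nil, or_false] at ha
      rcases ha with rfl | rfl | rfl
      · exact hπm
      · exact hmax _ _ (hm y₁ (by simp)) e₁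
      · exact hmax _ _ (hm y₂ (by simp)) e₂
  exact GLL2_final hp φ u₁ u₂ ⟨h5.1, h5.2.1, trivial⟩

end Pool.Agent.Work.MP_10f4af_ag
end

-- merged part: Pool.Agent.Work.MP_10f4af_ag.GL.L3
section
/-!
# Finite free resolutions; regular local rings have a regular system of parameters

Universe polymorphic copies of `UFa`, `UFb`, `VReg1` in `Work/MP_9d1ffa_al`.
-/

namespace Pool.Agent.Work.MP_10f4af_ag

universe u

set_option linter.unusedSectionVars false
set_option linter.unusedVariables false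

section


/-- `M` has a resolution of length `n` by finitely generated free modules, except for the last one
which is finitely generated stably free -/
def FF (S : Type u) [Ring S] : ℕ → ∀ (M : Type u) [AddCommGroup M] [Module S M], Prop
  | 0, M, _, _ => Module.Finite S M ∧ Module.IsStablyFree S M
  | n + 1, M, _, _ => ∃ (k : ℕ) (f : (Fin k → S) →ₗ[S] M),
      Function.Surjective f ∧ FF S n (LinearMap.ker f)

/-- every finitely generated module has a finite free resolution -/
def AllFF (S : Type u) [Ring S] : Prop :=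
  ∀ (M : Type u) [AddCommGroup M] [Module S M], Module.Finite S M → ∃ n, FF S n M

variable {S : Type u} [Ring S] {A B C : Type u} [AddCommGroup A] [Module S A] [AddCommGroup B]
  [Module S B] [AddCommGroup C] [Module S C] {n m : ℕ}

theorem FF.equiv (e : A ≃ₗ[S] B) (h : FF S n A) : FF S n B := by
  cases n with
  | zero =>
    obtain ⟨h1, h2⟩ := h
    exact ⟨Module.Finite.equiv e, Module.IsStablyFree.equiv e⟩
  | succ n =>
    obtain ⟨k, f, hf, hk⟩ := h
    refine ⟨k, (e : A →ₗ[S] B) ∘ₗ f, e.surjective.comp hf, ?_⟩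
    rw [LinearEquiv.ker_comp]
    exact hk

theorem UFa_fin (M : Type u) [AddCommGroup M] [Module S M] [Module.Finite S M] [Module.Free S M] :
    ∃ k : ℕ, Nonempty ((Fin k → S) ≃ₗ[S] M) :=
  ⟨_, ⟨((Module.Free.chooseBasis S M).reindex (Fintype.equivFin _)).equivFun.symm⟩⟩

theorem UFa_of_surj {F : Type u} [AddCommGroup F] [Module S F] [Module.Finite S F] [Module.Free S F]
    (f : F →ₗ[S] A) (hf : Function.Surjective f) (h : FF S n (LinearMap.ker f)) :
    FF S (n + 1) A := by
  obtain ⟨k, ⟨e⟩⟩ := UFa_fin (S := S) F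
  refine ⟨k, f ∘ₗ (e : (Fin k → S) →ₗ[S] F), hf.comp e.surjective, ?_⟩
  rw [LinearMap.ker_comp]
  exact h.equiv (e.ofSubmodule' (LinearMap.ker f)).symm

theorem UFa_split (i : A →ₗ[S] B) (q : B →ₗ[S] C) (hi : Function.Injective i)
    (he : Function.Exact i q) (hq : Function.Surjective q) (hp : Module.Projective S C) :
    Nonempty (B ≃ₗ[S] A × C) := by
  obtain ⟨l, hl⟩ := Module.projective_lifting_property q LinearMap.id hq
  exact ⟨(he.splitSurjectiveEquiv hi ⟨l, hl⟩).1⟩

theorem FF.succ (h : FF S n A) : FF S (n + 1) A := by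
  induction n generalizing A with
  | zero =>
    obtain ⟨h1, h2⟩ := h
    obtain ⟨N, _, _, _, _, _⟩ := Module.IsStablyFree.exist_free_prod S A
    refine UFa_of_surj (LinearMap.fst S A N) LinearMap.fst_surjective ?_
    have hN : FF S 0 N := ⟨inferInstance, inferInstance⟩
    rw [LinearMap.ker_fst]
    exact hN.equiv (LinearEquiv.ofInjective _ LinearMap.inr_injective)
  | succ n ih =>
    obtain ⟨k, f, hf, hk⟩ := h
    exact ⟨k, f, hf, ih hk⟩

theorem FF.mono (h : FF S n A) (hm : n ≤ m) : FF S m A := by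
  induction m, hm using Nat.le_induction with
  | base => exact h
  | succ m _ ih => exact ih.succ

theorem FF.stablyFree (h : FF S n A) (hp : Module.Projective S A) : Module.IsStablyFree S A := by
  induction n generalizing A with
  | zero => exact h.2
  | succ n ih =>
    obtain ⟨k, f, hf, hk⟩ := h
    obtain ⟨e⟩ := UFa_split (LinearMap.ker f).subtype f (LinearMap.ker f).injective_subtype
      (LinearMap.exact_subtype_ker_map f) hf hp
    have hpr : Module.Projective S (LinearMap.ker f × A) := Module.Projective.of_equiv e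
    have hK : Module.Projective S (LinearMap.ker f) :=
      Module.Projective.of_split (LinearMap.inl S _ A) (LinearMap.fst S _ A)
        (LinearMap.ext fun _ => rfl)
    have hfin : Module.Finite S (LinearMap.ker f × A) := Module.Finite.equiv e
    have hKf : Module.Finite S (LinearMap.ker f) :=
      Module.Finite.of_surjective (LinearMap.fst S _ A) LinearMap.fst_surjective
    have := ih hk hK
    obtain ⟨N, _, _, _, _, _⟩ := Module.IsStablyFree.exist_free_prod S (LinearMap.ker f)
    have hfree : Module.Free S (A × (LinearMap.ker f × N)) :=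
      Module.Free.of_equiv (((e.trans (LinearEquiv.prodComm S _ _)).prodCongr
        (LinearEquiv.refl S N)).trans (LinearEquiv.prodAssoc S _ _ _))
    exact Module.IsStablyFree.of_free_prod S A (LinearMap.ker f × N)

theorem FF.ext (i : A →ₗ[S] B) (q : B →ₗ[S] C) (hi : Function.Injective i)
    (he : Function.Exact i q) (hq : Function.Surjective q) (hA : FF S n A) (hC : FF S n C) :
    FF S n B := by
  induction n generalizing A B C with
  | zero =>
    obtain ⟨h1, h2⟩ := hA
    obtain ⟨h3, h4⟩ := hC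
    obtain ⟨e⟩ := UFa_split i q hi he hq inferInstance
    obtain ⟨N, _, _, _, _, _⟩ := Module.IsStablyFree.exist_free_prod S A
    obtain ⟨N', _, _, _, _, _⟩ := Module.IsStablyFree.exist_free_prod S C
    have hfree : Module.Free S ((A × C) × (N × N')) :=
      Module.Free.of_equiv (LinearEquiv.prodProdProdComm S A N C N')
    have h5 : Module.IsStablyFree S (A × C) := Module.IsStablyFree.of_free_prod S _ (N × N')
    have h6 : FF S 0 (A × C) := ⟨inferInstance, h5⟩
    exact h6.equiv e.symm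
  | succ n ih =>
    obtain ⟨a, f, hf, hkf⟩ := hA
    obtain ⟨b, g, hg, hkg⟩ := hC
    obtain ⟨g', hg'⟩ := Module.projective_lifting_property q g hq
    have hg2 : ∀ y, q (g' y) = g y := fun y => LinearMap.congr_fun hg' y
    have hqi : ∀ x, q (i x) = 0 := fun x => (he _).2 ⟨x, rfl⟩
    let h : ((Fin a → S) × (Fin b → S)) →ₗ[S] B := (i ∘ₗ f).coprod g'
    have hh : ∀ z, h z = i (f z.1) + g' z.2 := fun z => rfl
    have hs : Function.Surjective h := fun y => by
      obtain ⟨v, hv⟩ := hg (q y)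
      obtain ⟨x, hx⟩ := (he (y - g' v)).1 (by rw [map_sub, hg2, hv, sub_self])
      obtain ⟨u, rfl⟩ := hf x
      exact ⟨(u, v), by rw [hh, hx, sub_add_cancel]⟩
    refine UFa_of_surj h hs ?_
    let ι : LinearMap.ker f →ₗ[S] LinearMap.ker h :=
      (LinearMap.inl S _ _ ∘ₗ (LinearMap.ker f).subtype).codRestrict _ fun x => by
        have hx : f x = 0 := x.2
        rw [LinearMap.mem_ker, hh]
        simp [hx]
    let π : LinearMap.ker h →ₗ[S] LinearMap.ker g :=
      (LinearMap.snd S _ _ ∘ₗ (LinearMap.ker h).subtype).codRestrict _ fun z => by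
        have hz : h z = 0 := z.2
        have h1 := congrArg q hz
        rw [hh, map_add, hqi, hg2, zero_add, map_zero] at h1
        exact h1
    refine ih ι π (fun x y hxy => ?_) (fun z => ⟨fun hz => ?_, ?_⟩) (fun y => ?_) hkf hkg
    · exact Subtype.ext (congrArg (fun z : LinearMap.ker h => z.1.1) hxy)
    · have h1 : z.1.2 = 0 := congrArg Subtype.val hz
      have h2 : h z = 0 := z.2
      rw [hh, h1, map_zero, add_zero] at h2
      refine ⟨⟨z.1.1, hi (h2.trans (map_zero i).symm)⟩, Subtype.ext (Prod.ext rfl h1.symm)⟩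
    · rintro ⟨x, rfl⟩
      exact Subtype.ext rfl
    · obtain ⟨x, hx⟩ := (he (-g' y)).1 (by
        have hy : g y = 0 := y.2
        rw [map_neg, hg2, hy, neg_zero])
      obtain ⟨u, rfl⟩ := hf x
      exact ⟨⟨(u, y), by rw [LinearMap.mem_ker, hh, hx, neg_add_cancel]⟩, Subtype.ext rfl⟩

theorem FF.coker (i : A →ₗ[S] B) (q : B →ₗ[S] C) (hi : Function.Injective i)
    (he : Function.Exact i q) (hq : Function.Surjective q) (hA : FF S n A) (hB : FF S m B) :
    ∃ r, FF S r C := by
  obtain ⟨k, f, hf, hk⟩ := hB.succ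
  refine ⟨max m n + 1, k, q ∘ₗ f, hq.comp hf, ?_⟩
  have hle : LinearMap.ker f ≤ LinearMap.ker (q ∘ₗ f) := LinearMap.ker_le_ker_comp f q
  let φ : LinearMap.ker (q ∘ₗ f) →ₗ[S] LinearMap.range i :=
    (f ∘ₗ (LinearMap.ker (q ∘ₗ f)).subtype).codRestrict _ fun x => (he _).1 x.2
  let e := LinearEquiv.ofInjective i hi
  refine FF.ext (Submodule.inclusion hle) ((e.symm : LinearMap.range i →ₗ[S] A) ∘ₗ φ)
    (Submodule.inclusion_injective hle) (fun z => ⟨fun hz => ?_, ?_⟩) (fun a => ?_)
    (hk.mono (le_max_left _ _)) (hA.mono (le_max_right _ _))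
  · have h1 : φ z = 0 := e.symm.injective (hz.trans (map_zero e.symm).symm)
    exact ⟨⟨z.1, congrArg Subtype.val h1⟩, rfl⟩
  · rintro ⟨x, rfl⟩
    have h1 : φ (Submodule.inclusion hle x) = 0 := Subtype.ext x.2
    rw [LinearMap.comp_apply, h1, map_zero]
  · obtain ⟨u, hu⟩ := hf (i a)
    refine ⟨⟨u, ?_⟩, ?_⟩
    · rw [LinearMap.mem_ker, LinearMap.comp_apply, hu]
      exact (he _).2 ⟨a, rfl⟩
    · apply e.injective
      rw [LinearMap.comp_apply, LinearEquiv.coe_coe, e.apply_symm_apply]
      exact Subtype.ext hu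

end

section


open TensorProduct

theorem FF.baseChange {R S : Type u} [CommRing R] [CommRing S] [Algebra R S] [Module.Flat R S]
    {n : ℕ} {M : Type u} [AddCommGroup M] [Module R M] (h : FF R n M) : FF S n (S ⊗[R] M) := by
  induction n generalizing M with
  | zero =>
    obtain ⟨h1, h2⟩ := h
    obtain ⟨N, _, _, _, _, _⟩ := Module.IsStablyFree.exist_free_prod R M
    have : Module.Free S ((S ⊗[R] M) × (S ⊗[R] N)) :=
      Module.Free.of_equiv (TensorProduct.prodRight R S S M N)
    exact ⟨inferInstance, Module.IsStablyFree.of_free_prod S _ (S ⊗[R] N)⟩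
  | succ n ih =>
    obtain ⟨k, f, hf, h⟩ := h
    let e := TensorProduct.piScalarRight R S S (Fin k)
    have hs : Function.Surjective (f.baseChange S) := LinearMap.lTensor_surjective S hf
    let j := (LinearMap.ker f).subtype.baseChange S
    have hj : Function.Injective j :=
      Module.Flat.lTensor_preserves_injective_linearMap _ (LinearMap.ker f).injective_subtype
    have hex : Function.Exact j (f.baseChange S) :=
      lTensor_exact S (LinearMap.exact_subtype_ker_map f) hf
    refine ⟨k, f.baseChange S ∘ₗ e.symm.toLinearMap, hs.comp e.symm.surjective, ?_⟩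
    have hi : Function.Injective (e.toLinearMap ∘ₗ j) := e.injective.comp hj
    refine (ih h).equiv ((LinearEquiv.ofInjective _ hi).trans (LinearEquiv.ofEq _ _ ?_))
    ext x
    rw [LinearMap.mem_ker, LinearMap.comp_apply, hex, LinearMap.mem_range]
    constructor
    · rintro ⟨y, rfl⟩
      exact ⟨y, (e.symm_apply_apply _).symm⟩
    · rintro ⟨y, hy⟩
      exact ⟨y, by rw [LinearMap.comp_apply, hy]; exact e.apply_symm_apply x⟩

theorem AllFF.localization {R : Type u} [CommRing R] (T : Submonoid R) (S : Type u) [CommRing S]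
    [Algebra R S] [IsLocalization T S] (h : AllFF R) : AllFF S := by
  intro M _ _ hM
  let _ : Module R M := Module.compHom M (algebraMap R S)
  have : IsScalarTower R S M := IsScalarTower.of_algebraMap_smul fun _ _ => rfl
  obtain ⟨s, hs⟩ := hM.fg_top
  let M0 := Submodule.span R (s : Set M)
  have h0 : Module.Finite R M0 := Module.Finite.span_of_finite R s.finite_toSet
  have hl : IsLocalizedModule T M0.subtype := by
    refine ⟨fun x => ?_, fun y => ?_, fun h => ⟨1, by rw [M0.injective_subtype h]⟩⟩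
    · rw [← (Algebra.lsmul R (A := S) R M).commutes]
      exact (IsLocalization.map_units S x).map _
    · have hy : y ∈ Submodule.span S (s : Set M) := hs ▸ Submodule.mem_top
      have : ∃ t : T, (t : R) • y ∈ M0 := by
        induction hy using Submodule.span_induction with
        | mem x hx => exact ⟨1, by simpa using Submodule.subset_span hx⟩
        | zero => exact ⟨1, by simp⟩
        | add x y _ _ hx hy =>
          obtain ⟨t, ht⟩ := hx
          obtain ⟨u, hu⟩ := hy
          refine ⟨t * u, ?_⟩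
          rw [smul_add, Submonoid.coe_mul]
          refine add_mem ?_ ?_
          · rw [mul_comm, mul_smul]
            exact M0.smul_mem _ ht
          · rw [mul_smul]
            exact M0.smul_mem _ hu
        | smul c x _ hx =>
          obtain ⟨t, ht⟩ := hx
          obtain ⟨⟨a, u⟩, hu⟩ := IsLocalization.surj T c
          refine ⟨t * u, ?_⟩
          have e : ((t * u : T) : R) • c • x = a • (t : R) • x := by
            rw [Submonoid.coe_mul, mul_smul, smul_comm a, ← algebraMap_smul S (u : R),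
              smul_smul (algebraMap R S u), mul_comm, hu, algebraMap_smul]
          rw [e]
          exact M0.smul_mem _ ht
      obtain ⟨t, ht⟩ := this
      exact ⟨(⟨_, ht⟩, t), rfl⟩
  have := IsLocalization.flat S T
  obtain ⟨n, hn⟩ := h M0 h0
  exact ⟨n, hn.baseChange.equiv (IsLocalizedModule.isBaseChange T S M0.subtype).equiv⟩

end

/-- the ideal generated by the first `i` members of a sequence -/
def sp {A : Type u} [CommRing A] (f : ℕ → A) (i : ℕ) : Ideal A := Ideal.span (f '' Set.Iio i)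


open IsLocalRing

theorem VReg1_nak {B : Type u} [CommRing B] [IsLocalRing B] [IsNoetherianRing B] (I : Ideal B)
    (h : I ≤ maximalIdeal B • I) : I = ⊥ :=
  Submodule.eq_bot_of_le_smul_of_le_jacobson_bot _ _ (IsNoetherian.noetherian _) h
    (IsLocalRing.jacobson_eq_maximalIdeal _ bot_ne_top).ge

theorem VReg1_avoid {B : Type u} [CommRing B] [IsLocalRing B] [IsNoetherianRing B]
    (h : ringKrullDim B ≠ 0) :
    ∃ x ∈ maximalIdeal B, x ∉ maximalIdeal B * maximalIdeal B ∧ ∀ p ∈ minimalPrimes B, x ∉ p := by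
  classical
  by_contra hc
  push Not at hc
  have hf := minimalPrimes.finite_of_isNoetherianRing B
  have hs : ((maximalIdeal B : Ideal B) : Set B) ⊆
      ⋃ i ∈ ((insert (maximalIdeal B * maximalIdeal B) hf.toFinset : Finset (Ideal B)) :
        Set (Ideal B)), ((id i : Ideal B) : Set B) := by
    intro x hx
    simp only [Set.mem_iUnion, Finset.coe_insert, Set.mem_insert_iff, Set.Finite.coe_toFinset, id,
      SetLike.mem_coe, exists_prop]
    by_cases h2 : x ∈ maximalIdeal B * maximalIdeal B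
    · exact ⟨_, Or.inl rfl, h2⟩
    · obtain ⟨p, hp, hxp⟩ := hc x hx h2
      exact ⟨p, Or.inr hp, hxp⟩
  rw [Ideal.subset_union_prime (maximalIdeal B * maximalIdeal B)
    (maximalIdeal B * maximalIdeal B)] at hs
  · obtain ⟨p, hp, hle⟩ := hs
    apply h
    rw [← IsLocalRing.maximalIdeal_height_eq_ringKrullDim]
    rcases Finset.mem_insert.1 hp with rfl | hp
    · rw [VReg1_nak (maximalIdeal B) hle, Ideal.height_bot]
      rfl
    · have hp' := hf.mem_toFinset.1 hp
      have : p = maximalIdeal B :=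
        ((maximalIdeal.isMaximal B).eq_of_le hp'.isPrime.ne_top hle).symm
      rw [Ideal.height_eq_zero_iff.2 (this ▸ hp')]
      rfl
  · intro i hi h1 _
    exact (hf.mem_toFinset.1 ((Finset.mem_insert.1 hi).resolve_left h1)).isPrime

theorem VReg1_gen {B : Type u} [CommRing B] [IsLocalRing B] [DecidableEq B] {s : Finset B}
    (hs : Ideal.span (s : Set B) = maximalIdeal B) {x : B} (hx : x ∈ maximalIdeal B)
    (hx2 : x ∉ maximalIdeal B * maximalIdeal B) :
    ∃ y ∈ s, maximalIdeal B ≤ Ideal.span ((s.erase y : Finset B) : Set B) ⊔ Ideal.span {x} := by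
  have hx' := hx
  rw [← hs] at hx'
  obtain ⟨c, -, hc⟩ := Submodule.mem_span_finset.1 hx'
  have hm : ∀ y ∈ s, y ∈ maximalIdeal B := fun y hy => hs ▸ Ideal.subset_span hy
  have : ∃ y ∈ s, c y ∉ maximalIdeal B := by
    by_contra h
    push Not at h
    exact hx2 (hc ▸ sum_mem fun y hy => Ideal.mul_mem_mul (h y hy) (hm y hy))
  obtain ⟨y, hy, hu⟩ := this
  obtain ⟨u, hu⟩ := (notMem_maximalIdeal.1 hu).exists_left_inv
  refine ⟨y, hy, ?_⟩
  rw [← hs, Ideal.span_le]
  intro z hz
  by_cases hzy : z = y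
  · subst hzy
    rw [← Finset.add_sum_erase _ _ hy] at hc
    have e : z = u * (x - ∑ w ∈ s.erase z, c w • w) := by
      rw [← hc, add_sub_cancel_right, smul_eq_mul, ← mul_assoc, hu, one_mul]
    rw [SetLike.mem_coe]
    refine (congrArg (· ∈ _) e).mpr (Ideal.mul_mem_left _ _ (sub_mem ?_ ?_))
    · exact Ideal.mem_sup_right (Ideal.mem_span_singleton_self x)
    · exact Ideal.mem_sup_left (sum_mem fun w hw => Submodule.smul_mem _ _ (Ideal.subset_span hw))
  · exact Ideal.mem_sup_left (Ideal.subset_span (Finset.mem_coe.2 (Finset.mem_erase.2 ⟨hzy, hz⟩)))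

theorem VReg1_sp_zero {B : Type u} [CommRing B] (f : ℕ → B) : sp f 0 = ⊥ := by
  simp [sp]

theorem VReg1_sp_succ {B : Type u} [CommRing B] (x : B) (g : ℕ → B) (i : ℕ) :
    sp (fun k => Nat.casesOn k x g : ℕ → B) (i + 1) =
      (sp (fun k => Ideal.Quotient.mk (Ideal.span {x}) (g k)) i).comap
        (Ideal.Quotient.mk (Ideal.span {x})) := by
  have e : sp (fun k => Ideal.Quotient.mk (Ideal.span {x}) (g k)) i =
      (sp g i).map (Ideal.Quotient.mk (Ideal.span {x})) := by
    rw [sp, sp, Ideal.map_span, Set.image_image]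
  rw [e, Ideal.comap_map_of_surjective _ Ideal.Quotient.mk_surjective, ← RingHom.ker_eq_comap_bot,
    Ideal.mk_ker, sp, sp, ← Ideal.span_union]
  congr 1
  ext z
  constructor
  · rintro ⟨k, hk, rfl⟩
    cases k with
    | zero => exact Or.inr rfl
    | succ k => exact Or.inl ⟨k, Nat.lt_of_succ_lt_succ hk, rfl⟩
  · rintro (⟨k, hk, rfl⟩ | rfl)
    · exact ⟨k + 1, Nat.succ_lt_succ hk, rfl⟩
    · exact ⟨0, Nat.succ_pos i, rfl⟩

/-- Induction on `n`, for all rings. For `n = 0` the ring is a field. Otherwise choose `x` in the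
maximal ideal `𝔪` outside `𝔪 ^ 2` and outside all minimal primes (`Ideal.subset_union_prime`,
Nakayama, and the dimension is positive). Write `x` in terms of the generators; one coefficient is
a unit, so the maximal ideal of `B ⧸ (x)` has `n` generators, and its dimension is at least `n`
(`ringKrullDim_le_ringKrullDim_quotient_add_encard`). By induction `(x)` is prime; a minimal prime
`𝔮 ≤ (x)` satisfies `𝔮 = x 𝔮`, so it is zero. Put `x` in front of lifts of the sequence. -/
theorem reg_seq (n : ℕ) : ∀ (B : Type u) [CommRing B] [IsLocalRing B] [IsNoetherianRing B]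
    (s : Finset B), s.card ≤ n → Ideal.span (s : Set B) = maximalIdeal B →
    (n : WithBot ℕ∞) ≤ ringKrullDim B →
    ∃ f : ℕ → B, (∀ i ≤ n, (sp f i).IsPrime) ∧ (∀ i < n, f i ∉ sp f i) ∧
      sp f n = maximalIdeal B := by
  classical
  induction n with
  | zero =>
    intro B _ _ _ s hs hm _
    have h0 : s = ∅ := Finset.card_eq_zero.1 (Nat.le_zero.1 hs)
    have hb : (⊥ : Ideal B) = maximalIdeal B := by
      rw [← hm, h0]; simp
    refine ⟨fun _ => 0, fun i hi => ?_, fun i hi => absurd hi (Nat.not_lt_zero i), ?_⟩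
    · rw [Nat.le_zero.1 hi, VReg1_sp_zero, hb]
      infer_instance
    · rw [VReg1_sp_zero, hb]
  | succ n ih =>
    intro B _ _ _ s hs hm hd
    have hd0 : ringKrullDim B ≠ 0 := by
      intro h
      rw [h] at hd
      norm_cast at hd
    obtain ⟨x, hx, hx2, hxp⟩ := VReg1_avoid hd0
    obtain ⟨y, hy, hle⟩ := VReg1_gen hm hx hx2
    have hne : Ideal.span {x} ≠ ⊤ := by
      rw [Ne, Ideal.span_singleton_eq_top]
      exact (mem_maximalIdeal x).1 hx
    have : Nontrivial (B ⧸ Ideal.span {x}) := Ideal.Quotient.nontrivial_iff.2 hne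
    have : IsLocalRing (B ⧸ Ideal.span {x}) :=
      IsLocalRing.of_surjective' (Ideal.Quotient.mk _) Ideal.Quotient.mk_surjective
    have hmap := map_maximalIdeal_of_surjective (Ideal.Quotient.mk (Ideal.span {x}))
      Ideal.Quotient.mk_surjective
    have hxle : Ideal.span {x} ≤ maximalIdeal B := (Ideal.span_singleton_le_iff_mem _).2 hx
    obtain ⟨f, hf1, hf2, hf3⟩ := ih (B ⧸ Ideal.span {x})
      ((s.erase y).image (Ideal.Quotient.mk (Ideal.span {x})))
      (Finset.card_image_le.trans (by rw [Finset.card_erase_of_mem hy]; omega))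
      (by
        rw [Finset.coe_image, ← Ideal.map_span, ← hmap]
        refine le_antisymm (Ideal.map_mono ?_) ((Ideal.map_mono hle).trans ?_)
        · rw [← hm]
          exact Ideal.span_mono (Finset.coe_subset.2 (Finset.erase_subset _ _))
        · rw [Ideal.map_sup, Ideal.map_quotient_self, sup_bot_eq])
      (by
        have h := hd.trans (ringKrullDim_le_ringKrullDim_quotient_add_encard {x} (by
          rw [Set.singleton_subset_iff, SetLike.mem_coe, ← Ideal.jacobson_bot,
            IsLocalRing.jacobson_eq_maximalIdeal _ bot_ne_top]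
          exact hx))
        rw [Set.encard_singleton, Nat.cast_succ] at h
        exact ENat.WithBot.add_le_add_one_right_iff.1 h)
    choose g hg using fun i => Ideal.Quotient.mk_surjective (f i)
    obtain rfl : f = fun k => Ideal.Quotient.mk (Ideal.span {x}) (g k) := (funext hg).symm
    have hpr : ∀ i ≤ n, (sp (fun k => Nat.casesOn k x g : ℕ → B) (i + 1)).IsPrime := by
      intro i hi
      rw [VReg1_sp_succ]
      have := hf1 i hi
      exact Ideal.comap_isPrime _ _
    have hx1 : (Ideal.span {x}).IsPrime := by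
      have := hpr 0 (Nat.zero_le n)
      rwa [VReg1_sp_succ, VReg1_sp_zero, ← RingHom.ker_eq_comap_bot, Ideal.mk_ker] at this
    obtain ⟨q, hq, hqle⟩ := Ideal.exists_minimalPrimes_le (I := ⊥) (J := Ideal.span {x}) bot_le
    have hxq := hxp q hq
    have hq0 : q = ⊥ := by
      refine VReg1_nak q fun z hz => ?_
      obtain ⟨a, rfl⟩ := Ideal.mem_span_singleton'.1 (hqle hz)
      rw [mul_comm]
      exact Submodule.smul_mem_smul hx ((hq.isPrime.mem_or_mem hz).resolve_right hxq)
    refine ⟨fun k => Nat.casesOn k x g, fun i hi => ?_, fun i hi => ?_, ?_⟩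
    · cases i with
      | zero => rw [VReg1_sp_zero, ← hq0]; exact hq.isPrime
      | succ i => exact hpr i (by omega)
    · cases i with
      | zero => rw [VReg1_sp_zero, ← hq0]; exact hxq
      | succ i => rw [VReg1_sp_succ]; exact hf2 i (by omega)
    · rw [VReg1_sp_succ, hf3, ← hmap, Ideal.comap_map_of_surjective _ Ideal.Quotient.mk_surjective,
        ← RingHom.ker_eq_comap_bot, Ideal.mk_ker, sup_eq_left.2 hxle]

end Pool.Agent.Work.MP_10f4af_ag
end

-- merged part: Pool.Agent.Work.MP_10f4af_ag.GL.L4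
section
/-!
# Regular local rings: quotients, finite free resolutions

Plan.  `exists_sp`: the dimension is the natural number `n = spanFinrank`; take a generating finset
with `n` elements (`Submodule.FG.exists_span_finset_card_eq_spanFinrank`) and use `reg_seq`.
`reg_dom`: `sp f 0 = ⊥` is prime.
`reg_quot`: the classes of the `f j` in the cotangent space are linearly independent over the
residue field; complete them to a basis (`LinearIndependent.extend`, or induction on `J` with
`VReg1_gen`), lift, and use Nakayama (`IsLocalRing.CotangentSpace.span_image_eq_top_iff`).  So the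
maximal ideal of the quotient has `n - card J` generators, and its dimension is at least
`n - card J` (`ringKrullDim_le_ringKrullDim_quotient_add_encard`);
`IsRegularLocalRing.of_spanFinrank_maximalIdeal_le`.
`FF_lift`: induction on `n`, for all `M`.  For `n = 0` a stably free finite module over the local
ring `A ⧸ (x)` is free (`Module.free_of_flat_of_isLocalRing`), then
`Module.free_quotSMulTop_iff_free`.  For `n + 1` lift the surjection to `g : (Fin m → A) →ₗ[A] M`
(onto by Nakayama), let `K = ker g`; `x` is regular on `K`, and `QuotSMulTop x K` is isomorphic to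
the kernel of the given surjection since `x` is regular on `M`; `FF.equiv`.
`allFF_of_sp`: induction on `n`, for all rings.  For `n = 0` the ring is a field.  Otherwise let
`x = f 0`; the ring `A ⧸ (x)` with the sequence `fun i => mk (f (i + 1))` satisfies the hypotheses
(`VReg1_sp_succ`), and for `M` finite the kernel `K` of a surjection `(Fin m → A) → M` is torsion
free, so `FF_lift` applies to `K`.
-/

namespace Pool.Agent.Work.MP_10f4af_ag

open IsLocalRing Ideal

universe u

variable {A : Type u} [CommRing A]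

theorem exists_sp (A : Type u) [CommRing A] [IsRegularLocalRing A] :
    ∃ (n : ℕ) (f : ℕ → A), ringKrullDim A = n ∧ (∀ i ≤ n, (sp f i).IsPrime) ∧
      (∀ i < n, f i ∉ sp f i) ∧ sp f n = maximalIdeal A := by
  obtain ⟨s, h1, h2⟩ := Submodule.FG.exists_span_finset_card_eq_spanFinrank
    (IsNoetherian.noetherian (maximalIdeal A))
  have h3 := IsRegularLocalRing.spanFinrank_maximalIdeal (R := A)
  obtain ⟨f, hf⟩ := reg_seq _ A s h1.le h2 h3.le
  exact ⟨_, f, h3.symm, hf⟩

theorem reg_dom (A : Type u) [CommRing A] [IsRegularLocalRing A] : IsDomain A := by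
  obtain ⟨n, f, -, h, -⟩ := exists_sp A
  have := h 0 (Nat.zero_le n)
  rw [VReg1_sp_zero] at this
  exact IsDomain.of_bot_isPrime A

/-- exchange of generators of the maximal ideal -/
theorem GLL4_exch [IsLocalRing A] {J : Type} [Fintype J] (f : J → A)
    (hf : ∀ j, f j ∈ maximalIdeal A)
    (hi : ∀ a : J → A, ∑ j, a j * f j ∈ maximalIdeal A ^ 2 → ∀ j, a j ∈ maximalIdeal A)
    {s : Finset A} (hs : span (s : Set A) = maximalIdeal A) (T : Finset J) :
    ∃ t : Finset A, t ⊆ s ∧ t.card + T.card ≤ s.card ∧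
      maximalIdeal A ≤ span (t : Set A) ⊔ span (f '' T) := by
  classical
  induction T using Finset.induction_on with
  | empty => exact ⟨s, subset_rfl, le_rfl, hs.ge.trans le_sup_left⟩
  | insert j T hj ih =>
    obtain ⟨t, h1, h2, h3⟩ := ih
    obtain ⟨u, hu, v, hv, e⟩ := Submodule.mem_sup.1 (h3 (hf j))
    obtain ⟨c, -, hc⟩ := Submodule.mem_span_finset.1 hu
    have hm : ∀ y ∈ t, y ∈ maximalIdeal A := fun y hy => hs ▸ subset_span (h1 hy)
    have hex : ∃ y ∈ t, c y ∉ maximalIdeal A := by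
      by_contra h
      push Not at h
      obtain ⟨a, ha⟩ := (Submodule.mem_span_image_finset_iff_exists_fun' A).1 hv
      have k := hi (fun i => if i = j then 1 else if i ∈ T then -a i else 0) (by
        have e1 : ∑ i, (if i = j then 1 else if i ∈ T then -a i else 0) * f i = u := by
          rw [← Finset.sum_subset (Finset.subset_univ (insert j T)) fun i _ hi => by
            rw [Finset.mem_insert, not_or] at hi
            rw [if_neg hi.1, if_neg hi.2, zero_mul], Finset.sum_insert hj, if_pos rfl, one_mul,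
            Finset.sum_congr rfl (g := fun i => -(a i • f i)) fun i hi => by
              rw [if_neg fun e : i = j => hj (e ▸ hi), if_pos hi, neg_mul, smul_eq_mul],
            Finset.sum_neg_distrib, ha, ← e, add_neg_cancel_right]
        rw [e1, ← hc, pow_two]
        exact sum_mem fun y hy => mul_mem_mul (h y hy) (hm y hy)) j
      rw [if_pos rfl] at k
      exact (maximalIdeal.isMaximal A).ne_top ((eq_top_iff_one _).2 k)
    obtain ⟨y, hy, hu'⟩ := hex
    obtain ⟨w, hw⟩ := (notMem_maximalIdeal.1 hu').exists_left_inv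
    have hT : span (f '' T) ≤ span (f '' (insert j T : Finset J)) :=
      span_mono (Set.image_mono (Finset.coe_subset.2 (Finset.subset_insert j T)))
    refine ⟨t.erase y, (Finset.erase_subset _ _).trans h1, ?_, h3.trans (sup_le ?_
      (hT.trans le_sup_right))⟩
    · have := Finset.card_erase_add_one hy
      rw [Finset.card_insert_of_notMem hj]
      omega
    · rw [span_le]
      intro z hz
      by_cases hzy : z = y
      · subst hzy
        rw [← Finset.add_sum_erase _ _ hy] at hc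
        have e' : z = w * (f j - v - ∑ x ∈ t.erase z, c x • x) := by
          rw [← e, ← hc, add_sub_cancel_right, add_sub_cancel_right, smul_eq_mul, ← mul_assoc, hw,
            one_mul]
        rw [SetLike.mem_coe]
        refine (congrArg (· ∈ _) e').mpr (mul_mem_left _ _ (sub_mem (mem_sup_right (sub_mem
          (subset_span ⟨j, Finset.mem_coe.2 (Finset.mem_insert_self _ _), rfl⟩) (hT hv))) ?_))
        exact mem_sup_left (sum_mem fun x hx => Submodule.smul_mem _ _ (subset_span hx))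
      · exact mem_sup_left (subset_span (Finset.mem_coe.2 (Finset.mem_erase.2 ⟨hzy, hz⟩)))

theorem GLL4_loc [IsLocalRing A] {I : Ideal A} (h : I ≤ maximalIdeal A) : IsLocalRing (A ⧸ I) :=
  have : Nontrivial (A ⧸ I) := Ideal.Quotient.nontrivial_iff.2 fun e =>
    (maximalIdeal.isMaximal A).ne_top (top_le_iff.1 (e ▸ h))
  IsLocalRing.of_surjective' (Ideal.Quotient.mk _) Ideal.Quotient.mk_surjective

theorem reg_quot [IsRegularLocalRing A] {J : Type} [Fintype J] (f : J → A)
    (hf : ∀ j, f j ∈ maximalIdeal A)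
    (hi : ∀ a : J → A, ∑ j, a j * f j ∈ maximalIdeal A ^ 2 → ∀ j, a j ∈ maximalIdeal A) :
    IsRegularLocalRing (A ⧸ span (Set.range f)) := by
  classical
  obtain ⟨s, h1, h2⟩ := Submodule.FG.exists_span_finset_card_eq_spanFinrank
    (IsNoetherian.noetherian (maximalIdeal A))
  obtain ⟨t, k1, k2, k3⟩ := GLL4_exch f hf hi h2 Finset.univ
  rw [Finset.coe_univ, Set.image_univ] at k3
  have := GLL4_loc (span_le.2 (Set.range_subset_iff.2 hf))
  have hmap := map_maximalIdeal_of_surjective (Ideal.Quotient.mk (span (Set.range f)))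
    Ideal.Quotient.mk_surjective
  have e : maximalIdeal (A ⧸ span (Set.range f)) =
      span (Ideal.Quotient.mk (span (Set.range f)) '' t) := by
    rw [← map_span, ← hmap]
    refine le_antisymm ((map_mono k3).trans ?_) (map_mono ?_)
    · rw [Ideal.map_sup, map_quotient_self, sup_bot_eq]
    · rw [← h2]
      exact span_mono (Finset.coe_subset.2 k1)
  have k4 : (maximalIdeal (A ⧸ span (Set.range f))).spanFinrank ≤ t.card := by
    rw [e]
    exact (Submodule.spanFinrank_span_le_ncard_of_finite (t.finite_toSet.image _)).trans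
      ((Set.ncard_image_le t.finite_toSet).trans (Set.ncard_coe_finset t).le)
  have k5 := ringKrullDim_le_ringKrullDim_quotient_add_card (Finset.univ.image f) (by
    rw [← Ideal.jacobson_bot, IsLocalRing.jacobson_eq_maximalIdeal _ bot_ne_top,
      Finset.coe_image, Finset.coe_univ, Set.image_univ]
    exact Set.range_subset_iff.2 hf)
  rw [← IsRegularLocalRing.spanFinrank_maximalIdeal, ← h1, Finset.coe_image, Finset.coe_univ,
    Set.image_univ] at k5
  refine IsRegularLocalRing.of_spanFinrank_maximalIdeal_le _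
    (ENat.WithBot.add_le_add_natCast_right_iff.1 (le_trans ?_ k5))
  have k6 := Finset.card_image_le (s := Finset.univ) (f := f)
  exact_mod_cast (by omega : _ + _ ≤ s.card)

open Pointwise in
theorem FF_lift [IsLocalRing A] [IsNoetherianRing A] {x : A} (hx : x ∈ maximalIdeal A) {n : ℕ}
    {M : Type u} [AddCommGroup M] [Module A M] [Module.Finite A M]
    (hM : IsSMulRegular M x) (hr : IsSMulRegular A x)
    (h : FF (A ⧸ span {x}) n (QuotSMulTop x M)) : FF A n M := by
  have hj : span {x} ≤ (⊥ : Ideal A).jacobson := by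
    rw [IsLocalRing.jacobson_eq_maximalIdeal _ bot_ne_top, span_singleton_le_iff_mem]
    exact hx
  have := GLL4_loc ((span_singleton_le_iff_mem _).2 hx)
  induction n generalizing M with
  | zero =>
    obtain ⟨h1, h2⟩ := h
    have := Module.finitePresentation_of_finite A M
    have := (Module.free_quotSMulTop_iff_free A M (hj (mem_span_singleton_self x)) hM).1
      Module.free_of_flat_of_isLocalRing
    exact ⟨inferInstance, inferInstance⟩
  | succ n ih =>
    obtain ⟨k, f, hf, hk⟩ := h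
    let r : (Fin k → A) →ₗ[A] Fin k → A ⧸ span {x} := (span {x}).mkQ.compLeft (Fin k)
    have rs : Function.Surjective r := (Submodule.mkQ_surjective _).comp_left
    obtain ⟨g, hg⟩ := Module.projective_lifting_property (x • (⊤ : Submodule A M)).mkQ
      (f.restrictScalars A ∘ₗ r) (Submodule.mkQ_surjective _)
    have hg' : ∀ a, (x • (⊤ : Submodule A M)).mkQ (g a) = f (r a) := LinearMap.congr_fun hg
    have gs : Function.Surjective g := g.surjective_of_surjective_comp_mkQ _ hj (by
      rw [Submodule.ideal_span_singleton_smul x ⊤, hg]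
      exact hf.comp rs)
    have rx : ∀ a, r (x • a) = 0 := fun a => funext fun i =>
      Ideal.Quotient.eq_zero_iff_mem.2 (mul_mem_right _ _ (mem_span_singleton_self x))
    let φ : LinearMap.ker g →ₗ[A] LinearMap.ker f :=
      (r ∘ₗ (LinearMap.ker g).subtype).codRestrict ((LinearMap.ker f).restrictScalars A) fun v => by
        have hv : g v = 0 := v.2
        exact (hg' v).symm.trans (by rw [hv, map_zero])
    have φs : Function.Surjective φ := by
      rintro ⟨b, hb⟩
      obtain ⟨a, rfl⟩ := rs b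
      obtain ⟨m, -, hm⟩ := (Submodule.mem_smul_pointwise_iff_exists _ _ _).1
        ((Submodule.Quotient.mk_eq_zero _).1 ((hg' a).trans hb))
      obtain ⟨c, rfl⟩ := gs m
      refine ⟨⟨a - x • c, by rw [LinearMap.mem_ker, map_sub, map_smul, hm, sub_self]⟩,
        Subtype.ext ?_⟩
      change r (a - x • c) = r a
      rw [map_sub, rx, sub_zero]
    have φk : x • (⊤ : Submodule A (LinearMap.ker g)) = LinearMap.ker φ := by
      ext v
      rw [Submodule.mem_smul_pointwise_iff_exists]
      constructor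
      · rintro ⟨w, -, rfl⟩
        exact Subtype.ext (rx w)
      · intro hv
        have h1 : r v = 0 := congrArg Subtype.val hv
        choose w hw using fun i => mem_span_singleton'.1
          (Ideal.Quotient.eq_zero_iff_mem.1 (congrFun h1 i))
        have e : x • w = v := funext fun i => (mul_comm _ _).trans (hw i)
        exact ⟨⟨w, hM.right_eq_zero_of_smul (by rw [← map_smul, e]; exact v.2)⟩, trivial,
          Subtype.ext e⟩
    exact ⟨k, g, gs, ih ((IsSMulRegular.pi fun _ => hr).submodule _ x) (hk.equiv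
      (((Submodule.quotEquivOfEq _ _ φk).trans (φ.quotKerEquivOfSurjective φs)
        ).extendScalarsOfSurjective Ideal.Quotient.mk_surjective).symm)⟩

theorem allFF_of_sp (n : ℕ) : ∀ (A : Type u) [CommRing A] [IsLocalRing A] [IsNoetherianRing A]
    (f : ℕ → A), (∀ i ≤ n, (sp f i).IsPrime) → (∀ i < n, f i ∉ sp f i) →
    sp f n = maximalIdeal A → AllFF A := by
  induction n with
  | zero =>
    intro A _ _ _ f _ _ h M _ _ hM
    rw [VReg1_sp_zero] at h
    let _ := (isField_iff_maximalIdeal_eq.2 h.symm).toField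
    have : Module.Free A M := Module.Free.of_divisionRing A M
    exact ⟨0, hM, inferInstance⟩
  | succ n ih =>
    intro A _ _ _ f h1 h2 h3 M _ _ hM
    obtain ⟨x, g, rfl⟩ : ∃ (x : A) (g : ℕ → A), f = fun k => Nat.casesOn k x g :=
      ⟨f 0, fun i => f (i + 1), funext fun k => by cases k <;> rfl⟩
    have hx : x ∈ maximalIdeal A := h3 ▸ subset_span ⟨0, Nat.succ_pos n, rfl⟩
    have h0 := h1 0 (Nat.zero_le _)
    have h0' := h2 0 (Nat.succ_pos n)
    rw [VReg1_sp_zero] at h0 h0'
    have := IsDomain.of_bot_isPrime A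
    have hr : IsSMulRegular A x := (IsRegular.of_ne_zero h0').left.isSMulRegular
    have := GLL4_loc ((span_singleton_le_iff_mem _).2 hx)
    have hs := Ideal.Quotient.mk_surjective (I := span {x})
    have hB := ih (A ⧸ span {x}) (fun k => Ideal.Quotient.mk (span {x}) (g k)) (fun i hi => by
        have k := h1 (i + 1) (by omega)
        rw [VReg1_sp_succ] at k
        rw [← map_comap_of_surjective _ hs (sp _ i)]
        exact map_isPrime_of_surjective hs (ker_le_comap _))
      (fun i hi k => h2 (i + 1) (by omega) (by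
        rw [VReg1_sp_succ]
        exact k))
      (by rw [← map_comap_of_surjective _ hs (sp _ n), ← VReg1_sp_succ, h3,
        map_maximalIdeal_of_surjective _ hs])
    obtain ⟨k, p, hp⟩ := Module.Finite.exists_fin' A M
    obtain ⟨m, hm⟩ := hB (QuotSMulTop x (LinearMap.ker p))
      (Module.Finite.of_restrictScalars_finite A _ _)
    exact ⟨m + 1, k, p, hp, FF_lift hx ((IsSMulRegular.pi fun _ => hr).submodule _ x) hr hm⟩

theorem reg_allFF (A : Type u) [CommRing A] [IsRegularLocalRing A] : AllFF A := by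
  obtain ⟨n, f, -, h1, h2, h3⟩ := exists_sp A
  exact allFF_of_sp n A f h1 h2 h3

end Pool.Agent.Work.MP_10f4af_ag
end
end

-- merged part: Pool.Agent.Work.MP_10f4af_ag.GL.Q1
section
-- merged part: Pool.Agent.Work.MP_10f4af_ag.GL.N1
section
/-!
# A discrete valuation ring along which the coefficients are specialised

Plan.  `exists_dvr_sep`: let `A = Algebra.adjoin F {t}`, a principal ideal domain isomorphic to
`F[X]` (`Polynomial.algEquivOfTranscendental`), `K = F⟮t⟯` (or `FractionRing A` mapped to `k`) its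
field of fractions, `K' = IntermediateField.adjoin K s`, finite and separable over `K`.  The
integral closure `C` of `A` in `K'` is a Dedekind domain with field of fractions `K'`
(`integralClosure.isDedekindDomain`, `integralClosure.isFractionRing_of_finite_extension`).  Take a
maximal ideal `P` over `(t)` (`Ideal.exists_maximal_ideal_liesOver_of_isIntegral` or
`Ideal.exists_ideal_over_maximal_of_isIntegral`); it is not zero, the localisation at `P` is a
discrete valuation ring (`IsLocalization.AtPrime.isDiscreteValuationRing_of_dedekind_domain`), and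
`O` is the range of the injective map to `k` given by `IsLocalization.lift`
(`IsDiscreteValuationRing.of_ringEquiv` or `RingEquiv.isDiscreteValuationRing`; or use
`Localization.subalgebra.ofField`).
`exists_dvr`: take `p` with `ExpChar k p` (`ExpChar.exists`).  Each `y` algebraic over `K` has a
power `y ^ p ^ n` which is separable over `K` (in the algebraic extension `K⟮y⟯` or `k`, the
extension over `separableClosure` is purely inseparable: `separableClosure.isPurelyInseparable`,
`isPurelyInseparable_iff_pow_mem`); powers of separable elements are separable, so one `n` works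
for all the coefficients.  `MvPolynomial.map_iterateFrobenius_expand` (or `sum_pow_char_pow`)
shows that the coefficients of `g ^ p ^ n` are zero or of the form `y ^ p ^ n`; multiply by the
product of the denominators; `MvPolynomial.mem_range_map_iff_coeffs_subset`.
`exists_chart`: `c' i = c i` if `Al i` or `i = i₀`, and `c i / c i₀` otherwise (`c i₀ ≠ 0`).  Each
`c i` is in `adjoin k₀ (range c')`, so `k` is algebraic over it, and `c'` is a transcendence basis
(`Algebra.IsAlgebraic.isTranscendenceBasis_of_lift_le_trdeg_of_finite`,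
`AlgebraicIndependent.lift_cardinalMk_le_trdeg`).  Put `F = adjoin k₀ (c' '' {i₀}ᶜ)`;
`AlgebraicIndependent.transcendental_adjoin`, `IntermediateField.transcendental_adjoin_iff`.
`exists_spec`: `exists_chart`, `exists_dvr`, `Subalgebra.restrictScalars`.  The residue map is
injective on the field `F`, so the residues of the `c i` with `Al i` are independent
(`AlgebraicIndependent.map'`, `AlgebraicIndependent.of_map` or `algebraicIndependent_iff`: a
nonzero element of `F` is a unit of `O`).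
-/

namespace Pool.Agent.Work.MP_10f4af_ag

open IsLocalRing MvPolynomial

universe u

variable {F k : Type u} [Field F] [Field k] [Algebra F k]

theorem GLN1_transfer {R : Type*} [CommRing R] [IsDomain R] [IsDiscreteValuationRing R]
    (φ : R →+* k) (hφ : Function.Injective φ) (hF : ∀ x : F, algebraMap F k x ∈ φ.range) :
    ∃ (O : Subalgebra F k) (_ : IsDiscreteValuationRing O) (e : R ≃+* O),
      ∀ r, (e r : k) = φ r := by
  let O : Subalgebra F k := { φ.range.toSubsemiring with algebraMap_mem' := hF }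
  let ψ : R →+* O := φ.codRestrict O (fun r => ⟨r, rfl⟩)
  have hψ : Function.Bijective ψ := by
    refine ⟨fun a b h => hφ (congrArg Subtype.val h), ?_⟩
    rintro ⟨_, r, rfl⟩
    exact ⟨r, rfl⟩
  exact ⟨O, IsDiscreteValuationRing.RingEquivClass.isDiscreteValuationRing
    (RingEquiv.ofBijective ψ hψ), RingEquiv.ofBijective ψ hψ, fun r => rfl⟩

theorem GLN1_alg {R S : Type*} [CommRing R] [CommRing S] [Algebra R k] [Algebra S k]
    (hR : Function.Injective (algebraMap R k))
    (h : ∀ r, algebraMap R k r ∈ Set.range (algebraMap S k)) [Algebra.IsAlgebraic R k] :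
    Algebra.IsAlgebraic S k := by
  refine ⟨fun x => ?_⟩
  obtain ⟨p, hp, hx⟩ := Algebra.IsAlgebraic.isAlgebraic (R := R) x
  have hl : p.map (algebraMap R k) ∈ Polynomial.lifts (algebraMap S k) := by
    rw [Polynomial.lifts_iff_coeff_lifts]
    intro n
    rw [Polynomial.coeff_map]
    exact h _
  obtain ⟨q, hq⟩ := (Polynomial.mem_lifts _).1 hl
  refine ⟨q, ?_, ?_⟩
  · rintro rfl
    rw [Polynomial.map_zero] at hq
    exact hp ((Polynomial.map_eq_zero_iff hR).1 hq.symm)
  · rw [← Polynomial.eval_map_algebraMap, hq, Polynomial.eval_map_algebraMap, hx]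

theorem GLN1_abs {A K L : Type*} [CommRing A] [IsDedekindDomain A] [Field K] [Field L]
    [Algebra A K] [IsFractionRing A K] [Algebra K L] [Algebra A L] [IsScalarTower A K L]
    [FiniteDimensional K L] [Algebra.IsSeparable K L] {a : A} (ha0 : a ≠ 0) (ha : ¬ IsUnit a) :
    ∃ (O : Subring L) (_ : IsDiscreteValuationRing O) (h : ∀ x, algebraMap A L x ∈ O),
      ¬ IsUnit (⟨algebraMap A L a, h a⟩ : O) ∧ ∀ y : L, ∃ u ∈ O, u ≠ 0 ∧ u * y ∈ O := by
  have hinj : Function.Injective (algebraMap A L) := by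
    rw [IsScalarTower.algebraMap_eq A K L]
    exact (algebraMap K L).injective.comp (IsFractionRing.injective A K)
  have : FaithfulSMul A L := (faithfulSMul_iff_algebraMap_injective A L).2 hinj
  have hC : IsDedekindDomain (integralClosure A L) := integralClosure.isDedekindDomain A K L
  have hfr : IsFractionRing (integralClosure A L) L :=
    integralClosure.isFractionRing_of_finite_extension K L
  have hinj' : Function.Injective (algebraMap A (integralClosure A L)) := by
    intro x y hxy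
    exact hinj (congrArg Subtype.val hxy)
  have : FaithfulSMul A (integralClosure A L) :=
    (faithfulSMul_iff_algebraMap_injective A _).2 hinj'
  have hnu : algebraMap A (integralClosure A L) a ∈ nonunits (integralClosure A L) := by
    intro hu
    exact ha (isUnit_of_map_unit (algebraMap A (integralClosure A L)) a hu)
  obtain ⟨P, hP, haP⟩ := exists_max_ideal_of_mem_nonunits hnu
  have hP0 : P ≠ ⊥ := by
    rintro rfl
    rw [Ideal.mem_bot] at haP
    exact ha0 (hinj' (by rw [haP, map_zero]))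
  have hPp := hP.isPrime
  let O := Localization.subalgebra.ofField L P.primeCompl P.primeCompl_le_nonZeroDivisors
  have hO : IsDiscreteValuationRing O :=
    IsLocalization.AtPrime.isDiscreteValuationRing_of_dedekind_domain _ hP0 O
  have hmem : ∀ x : integralClosure A L, (x : L) ∈ O := fun x => O.algebraMap_mem x
  let ψ : O →+* O.toSubring := (O.val : O →+* L).codRestrict O.toSubring (fun r => r.2)
  have hψ : Function.Bijective ψ := by
    refine ⟨fun a b h => Subtype.ext (congrArg Subtype.val h), ?_⟩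
    rintro ⟨x, hx⟩
    exact ⟨⟨x, hx⟩, rfl⟩
  let e := RingEquiv.ofBijective ψ hψ
  refine ⟨O.toSubring, IsDiscreteValuationRing.RingEquivClass.isDiscreteValuationRing e,
    fun x => hmem (algebraMap A _ x), ?_, ?_⟩
  · intro hu
    have h1 : IsUnit (algebraMap (integralClosure A L) O (algebraMap A _ a)) := by
      have h2 := hu.map e.symm
      convert h2 using 1
      apply e.injective
      rw [RingEquiv.apply_symm_apply]
      rfl
    exact (IsLocalization.AtPrime.isUnit_to_map_iff O P _).1 h1 haP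
  · intro y
    obtain ⟨x, z, hz, rfl⟩ := IsFractionRing.div_surjective (integralClosure A L) y
    have hz0 : algebraMap (integralClosure A L) L z ≠ 0 :=
      IsFractionRing.to_map_ne_zero_of_mem_nonZeroDivisors hz
    refine ⟨algebraMap (integralClosure A L) L z, hmem z, hz0, ?_⟩
    rw [mul_div_cancel₀ _ hz0]
    exact hmem x

theorem exists_dvr_sep {t : k} (ht : Transcendental F t) (s : Finset k)
    (hs : ∀ y ∈ s, IsSeparable (IntermediateField.adjoin F {t}) y) :
    ∃ (O : Subalgebra F k) (_ : IsDiscreteValuationRing O) (h : t ∈ O),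
      ¬ IsUnit (⟨t, h⟩ : O) ∧ ∀ y ∈ s, ∃ u ∈ O, u ≠ 0 ∧ u * y ∈ O := by
  classical
  open IntermediateField.algebraAdjoinAdjoin in
  have key : ∃ (O : Subring (IntermediateField.adjoin (IntermediateField.adjoin F {t}) (s : Set k)))
      (_ : IsDiscreteValuationRing O)
      (h : ∀ x, algebraMap (Algebra.adjoin F {t}) _ x ∈ O),
      ¬ IsUnit (⟨algebraMap (Algebra.adjoin F {t}) _
          ⟨t, Algebra.self_mem_adjoin_singleton F t⟩, h _⟩ : O) ∧
        ∀ y, ∃ u ∈ O, u ≠ 0 ∧ u * y ∈ O := by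
    let e := Polynomial.algEquivOfTranscendental F t ht
    have hpid : IsPrincipalIdealRing (Algebra.adjoin F {t}) :=
      IsPrincipalIdealRing.of_surjective e.toRingEquiv.toRingHom e.surjective
    have hfin : FiniteDimensional (IntermediateField.adjoin F {t})
        (IntermediateField.adjoin (IntermediateField.adjoin F {t}) (s : Set k)) :=
      IntermediateField.finiteDimensional_adjoin (fun y hy => (hs y hy).isIntegral)
    have hsep : Algebra.IsSeparable (IntermediateField.adjoin F {t})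
        (IntermediateField.adjoin (IntermediateField.adjoin F {t}) (s : Set k)) :=
      (IntermediateField.isSeparable_adjoin_iff_isSeparable _ _).2 hs
    have hX : e Polynomial.X = ⟨t, Algebra.self_mem_adjoin_singleton F t⟩ :=
      Polynomial.algEquivOfTranscendental_apply_X F t ht
    refine GLN1_abs (K := IntermediateField.adjoin F {t}) ?_ ?_
    · rw [← hX]
      exact fun h => Polynomial.X_ne_zero (e.injective (by rw [h, map_zero]))
    · rw [← hX]
      intro h
      have h2 := h.map e.symm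
      rw [AlgEquiv.symm_apply_apply] at h2
      exact Polynomial.not_isUnit_X h2
  obtain ⟨O, hO, h, hu, hy⟩ := key
  obtain ⟨O', hO', e, he⟩ := GLN1_transfer (F := F)
    ((algebraMap (IntermediateField.adjoin (IntermediateField.adjoin F {t}) (s : Set k)) k).comp
      O.subtype) (fun a b hab => Subtype.ext (Subtype.ext hab))
    (fun x => ⟨⟨_, h (algebraMap F _ x)⟩, rfl⟩)
  have hm : ∀ x ∈ O, (x : k) ∈ O' := fun x hx => by
    have h1 := (e ⟨x, hx⟩).2
    rw [he] at h1
    exact h1
  refine ⟨O', hO', hm _ (h ⟨t, Algebra.self_mem_adjoin_singleton F t⟩), ?_, ?_⟩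
  · intro h1
    apply hu
    have h2 := h1.map e.symm
    convert h2 using 1
    apply e.injective
    rw [RingEquiv.apply_symm_apply]
    exact Subtype.ext (he _)
  · intro y hys
    obtain ⟨u, huO, hu0, huy⟩ := hy ⟨y, IntermediateField.subset_adjoin _ _ hys⟩
    exact ⟨u, hm _ huO, fun h0 => hu0 (Subtype.ext h0), hm _ huy⟩

theorem exists_dvr {t : k} (ht : Transcendental F t)
    (ha : Algebra.IsAlgebraic (IntermediateField.adjoin F {t}) k) {σ : Type}
    (T : Finset (MvPolynomial σ k)) :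
    ∃ (O : Subalgebra F k) (_ : IsDiscreteValuationRing O) (h : t ∈ O),
      ¬ IsUnit (⟨t, h⟩ : O) ∧ ∀ g ∈ T, ∃ (G : MvPolynomial σ O) (u : k) (q : ℕ), u ≠ 0 ∧ 0 < q ∧
        MvPolynomial.map (algebraMap O k) G = C u * g ^ q := by
  classical
  obtain ⟨p, hp⟩ := ExpChar.exists (separableClosure (IntermediateField.adjoin F {t}) k)
  have hpk : ExpChar k p := expChar_of_injective_algebraMap
    (algebraMap (separableClosure (IntermediateField.adjoin F {t}) k) k).injective p
  have h1 : ∀ y : k, ∃ n : ℕ, ∀ m, n ≤ m →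
      IsSeparable (IntermediateField.adjoin F {t}) (y ^ p ^ m) := by
    intro y
    obtain ⟨n, z, hz⟩ := IsPurelyInseparable.pow_mem
      (separableClosure (IntermediateField.adjoin F {t}) k) p y
    refine ⟨n, fun m hm => ?_⟩
    obtain ⟨d, rfl⟩ := Nat.exists_eq_add_of_le hm
    rw [pow_add, pow_mul, ← hz, ← mem_separableClosure_iff]
    exact pow_mem z.2 _
  choose n hn using h1
  let N : MvPolynomial σ k → ℕ := fun g => g.support.sup (fun m => n (coeff m g))
  obtain ⟨O, hO, h, hu, hs⟩ := exists_dvr_sep ht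
    (T.biUnion (fun g => g.support.image (fun m => coeff m g ^ p ^ N g))) (by
      intro y hy
      obtain ⟨g, -, hy⟩ := Finset.mem_biUnion.1 hy
      obtain ⟨m, hm, rfl⟩ := Finset.mem_image.1 hy
      exact hn _ _ (Finset.le_sup (f := fun m => n (coeff m g)) hm))
  refine ⟨O, hO, h, hu, fun g hg => ?_⟩
  have h2 : ∀ m, ∃ u ∈ O, u ≠ 0 ∧ (m ∈ g.support → u * coeff m g ^ p ^ N g ∈ O) := by
    intro m
    by_cases hm : m ∈ g.support
    · obtain ⟨u, hu1, hu2, hu3⟩ := hs _ (Finset.mem_biUnion.2 ⟨g, hg,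
        Finset.mem_image.2 ⟨m, hm, rfl⟩⟩)
      exact ⟨u, hu1, hu2, fun _ => hu3⟩
    · exact ⟨1, O.one_mem, one_ne_zero, fun h => absurd h hm⟩
  choose u hu1 hu2 hu3 using h2
  have h3 : C (∏ m ∈ g.support, u m) * g ^ p ^ N g ∈
      (MvPolynomial.map (σ := σ) (algebraMap O k)).range := by
    have h4 : g ^ p ^ N g = ∑ m ∈ g.support, monomial ((p ^ N g) • m) (coeff m g ^ p ^ N g) := by
      have h5 : g ^ p ^ N g = (∑ m ∈ g.support, monomial m (coeff m g)) ^ p ^ N g :=
        congrArg (fun x => x ^ p ^ N g) g.as_sum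
      rw [h5, sum_pow_char_pow]
      exact Finset.sum_congr rfl (fun m _ => monomial_pow)
    rw [h4, Finset.mul_sum]
    refine Subring.sum_mem _ (fun m hm => ?_)
    rw [C_mul_monomial]
    have h6 : (∏ m ∈ g.support, u m) * coeff m g ^ p ^ N g ∈ O := by
      rw [← Finset.mul_prod_erase _ _ hm, mul_right_comm]
      exact O.mul_mem (hu3 m hm) (O.prod_mem (fun i _ => hu1 i))
    exact ⟨monomial _ ⟨_, h6⟩, by rw [map_monomial]; rfl⟩
  obtain ⟨G, hG⟩ := h3
  exact ⟨G, _, p ^ N g, Finset.prod_ne_zero_iff.2 (fun m _ => hu2 m),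
    expChar_pow_pos k p _, hG⟩

variable {ι : Type} [Finite ι] {c : ι → k}

theorem exists_chart (hc : AlgebraicIndependent F c)
    (ha : Algebra.IsAlgebraic (Algebra.adjoin F (Set.range c)) k) (Al : ι → Prop) {i₀ : ι}
    (h0 : ¬ Al i₀) : ∃ E : IntermediateField F k, Transcendental E (c i₀) ∧
      Algebra.IsAlgebraic (IntermediateField.adjoin E {c i₀}) k ∧ (∀ i, Al i → c i ∈ E) ∧
      ∀ i, ¬ Al i → ∃ u ∈ E, c i = u * c i₀ := by
  classical
  have hc0 : c i₀ ≠ 0 := hc.ne_zero i₀
  let c' : ι → k := fun i => if Al i ∨ i = i₀ then c i else c i / c i₀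
  have hc'0 : c' i₀ = c i₀ := if_pos (Or.inr rfl)
  have hle : Algebra.adjoin F (Set.range c) ≤ Algebra.adjoin F (Set.range c') := by
    refine Algebra.adjoin_le ?_
    rintro _ ⟨i, rfl⟩
    by_cases hi : Al i ∨ i = i₀
    · exact Algebra.subset_adjoin ⟨i, if_pos hi⟩
    · have h1 : c i = c' i * c' i₀ := by
        rw [hc'0]
        simp only [c', if_neg hi]
        rw [div_mul_cancel₀ _ hc0]
      rw [h1]
      exact Subalgebra.mul_mem _ (Algebra.subset_adjoin ⟨i, rfl⟩) (Algebra.subset_adjoin ⟨i₀, rfl⟩)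
  have ha' : Algebra.IsAlgebraic (Algebra.adjoin F (Set.range c')) k :=
    ⟨fun x => (Algebra.IsAlgebraic.isAlgebraic x).tower_top_of_subalgebra_le hle⟩
  have hb : IsTranscendenceBasis F c' :=
    Algebra.IsAlgebraic.isTranscendenceBasis_of_lift_le_trdeg_of_finite F c'
      hc.lift_cardinalMk_le_trdeg
  have hE : ∀ i, i ≠ i₀ → c' i ∈ IntermediateField.adjoin F (c' '' {i₀}ᶜ) := fun i hi =>
    IntermediateField.subset_adjoin _ _ ⟨i, hi, rfl⟩
  have htr : Transcendental (IntermediateField.adjoin F (c' '' {i₀}ᶜ)) (c i₀) := by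
    rw [IntermediateField.transcendental_adjoin_iff, ← hc'0]
    exact hb.1.transcendental_adjoin (by simp)
  generalize IntermediateField.adjoin F (c' '' {i₀}ᶜ) = E at hE htr
  refine ⟨E, htr, ?_, ?_, ?_⟩
  · have hle2 : Algebra.adjoin F (Set.range c') ≤
        ((IntermediateField.adjoin E {c i₀}).restrictScalars F).toSubalgebra := by
      refine Algebra.adjoin_le ?_
      rintro _ ⟨i, rfl⟩
      change c' i ∈ IntermediateField.adjoin E {c i₀}
      by_cases hi : i = i₀
      · rw [hi, hc'0]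
        exact IntermediateField.mem_adjoin_simple_self E (c i₀)
      · exact (IntermediateField.adjoin E {c i₀}).algebraMap_mem ⟨_, hE i hi⟩
    exact GLN1_alg (R := Algebra.adjoin F (Set.range c')) Subtype.val_injective
      (fun r => ⟨⟨r, hle2 r.2⟩, rfl⟩)
  · intro i hi
    have h1 : c i = c' i := (if_pos (Or.inl hi)).symm
    rw [h1]
    exact hE i (fun h => h0 (h ▸ hi))
  · intro i hi
    by_cases h : i = i₀
    · exact ⟨1, one_mem _, by rw [h, one_mul]⟩
    · refine ⟨c' i, hE i h, ?_⟩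
      have h2 : ¬ (Al i ∨ i = i₀) := fun h3 => h3.elim hi h
      simp only [c', if_neg h2]
      rw [div_mul_cancel₀ _ hc0]

theorem exists_spec (hc : AlgebraicIndependent F c)
    (ha : Algebra.IsAlgebraic (Algebra.adjoin F (Set.range c)) k) (Al : ι → Prop) {i₀ : ι}
    (h0 : ¬ Al i₀) {σ : Type} (T : Finset (MvPolynomial σ k)) :
    ∃ (O : Subalgebra F k) (_ : IsDiscreteValuationRing O) (c' : ι → O),
      Algebra.IsAlgebraic O k ∧ (∀ i, (c' i : k) = c i) ∧
      (∀ i, ¬ Al i → residue O (c' i) = 0) ∧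
      AlgebraicIndependent F (fun i : {i // Al i} => residue O (c' i)) ∧
      ∀ g ∈ T, ∃ (G : MvPolynomial σ O) (u : k) (q : ℕ), u ≠ 0 ∧ 0 < q ∧
        MvPolynomial.map (algebraMap O k) G = C u * g ^ q := by
  classical
  obtain ⟨E, ht, hE, hA, hN⟩ := exists_chart hc ha Al h0
  obtain ⟨O, hO, h, hu, hT⟩ := exists_dvr ht hE T
  obtain ⟨O', hO', e, he⟩ := GLN1_transfer (F := F) (algebraMap O k) Subtype.val_injective
    (fun x => ⟨algebraMap E O (algebraMap F E x), rfl⟩)
  have hm : ∀ x ∈ O, x ∈ O' := fun x hx => by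
    have h1 := (e ⟨x, hx⟩).2
    rw [he] at h1
    exact h1
  have hEO : ∀ x ∈ E, x ∈ O := fun x hx => O.algebraMap_mem ⟨x, hx⟩
  have hcO : ∀ i, c i ∈ O' := fun i => by
    by_cases hi : Al i
    · exact hm _ (hEO _ (hA i hi))
    · obtain ⟨u, hu1, hu2⟩ := hN i hi
      rw [hu2]
      exact hm _ (O.mul_mem (hEO _ hu1) h)
  have hle : Algebra.adjoin F (Set.range c) ≤ O' := by
    refine Algebra.adjoin_le ?_
    rintro _ ⟨i, rfl⟩
    exact hcO i
  refine ⟨O', hO', fun i => ⟨c i, hcO i⟩,
    ⟨fun x => (Algebra.IsAlgebraic.isAlgebraic x).tower_top_of_subalgebra_le hle⟩,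
    fun i => rfl, ?_, ?_, ?_⟩
  · intro i hi
    obtain ⟨u, hu1, hu2⟩ := hN i hi
    have h1 : (⟨c i, hcO i⟩ : O') = ⟨u, hm _ (hEO _ hu1)⟩ * e ⟨c i₀, h⟩ := by
      apply Subtype.ext
      rw [Subalgebra.coe_mul, he]
      exact hu2
    change residue O' ⟨c i, hcO i⟩ = 0
    rw [residue_eq_zero_iff, h1]
    refine Ideal.mul_mem_left _ _ ?_
    rw [mem_maximalIdeal, mem_nonunits_iff]
    intro h2
    have h3 := h2.map e.symm
    rw [RingEquiv.symm_apply_apply] at h3
    exact hu h3
  · have hle2 : E.toSubalgebra ≤ O' := fun x hx => hm _ (hEO _ hx)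
    let ρ : E →ₐ[F] ResidueField O' :=
      (IsScalarTower.toAlgHom F O' (ResidueField O')).comp (Subalgebra.inclusion hle2)
    have h1 : AlgebraicIndependent F (fun i : {i // Al i} => (⟨c i, hA i i.2⟩ : E)) :=
      AlgebraicIndependent.of_comp E.val (hc.comp Subtype.val Subtype.val_injective)
    exact h1.map' (f := ρ) (ρ : E →+* ResidueField O').injective
  · intro g hg
    obtain ⟨G, u, q, hu0, hq, hG⟩ := hT g hg
    refine ⟨MvPolynomial.map (e : O →+* O') G, u, q, hu0, hq, ?_⟩
    rw [map_map, ← hG]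
    congr 2
    exact RingHom.ext (fun r => he r)

end Pool.Agent.Work.MP_10f4af_ag
end

-- merged part: Pool.Agent.Work.MP_10f4af_ag.GL.L5
section
/-!
# The theorem of Auslander and Buchsbaum, after Kaplansky

Plan.  `exists_loc_gen`: a generator of the extended ideal is `w / s` with `w ∈ p`
(`IsLocalization.mem_map_algebraMap_iff`), and `s` is a unit.
`inv_of_loc`: let `K = FractionRing A`, `I = IsLocalization.coeSubmodule K p`, `J = 1 / I`.  The
product `I * J ≤ 1` is the image of an ideal which is in no maximal ideal `q`: with `w` as in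
`exists_loc_gen` (it is not zero) and `s ∉ q` the product of the `s` which belong to finitely many
generators of `p`, the element `s / w` is in `J`.  So `I` is a unit of `Submodule A K`; use the
instance `Module.Invertible A (I : (Submodule A K)ˣ)` and `Module.Invertible.congr`.
`principal_of_FF`: an invertible module is projective, `FF.stablyFree`,
`Module.free_of_isStablyFree_of_invertible`, `Module.Invertible.free_iff_linearEquiv`.
`reg_ufd_aux`: induction on `n`, for all rings.  `IsRegularLocalRing.of_isRegularRing_of_isLocalRing`,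
`exists_sp`.  If the dimension is zero the ring is a field.  Otherwise `x = f 0` is a prime element
(`sp f 1 = span {x}`), and by `UniqueFactorizationMonoid.iff_localizationAway_of_prime` and
`of_forall_isPrincipal_of_height_eq_one` it is enough to show that a prime `p` of height one of
`S = Localization.Away x` is principal.  `AllFF.localization`, `reg_allFF`, `principal_of_FF`.  For
a maximal ideal `q` of `S` the ring `Localization.AtPrime q` is regular (`reg_loc` twice), local, of
dimension `q.height = (q.under A).height < n + 1` (`IsLocalization.AtPrime.ringKrullDim_eq_height`,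
`IsLocalization.height_under`, `Ideal.height_strict_mono_of_isPrime`; `x` is not in the
contraction), so it is factorial, and `principal_of_ufd` applies.
`principal_of_ufd`: if `p ≤ q` the extension is a prime of height one
(`IsLocalization.isPrime_of_isPrime_disjoint`, `IsLocalization.height_map_of_disjoint`), otherwise
it is `⊤`.
-/

namespace Pool.Agent.Work.MP_10f4af_ag

open IsLocalRing Ideal

universe u

variable {A : Type u} [CommRing A]

theorem reg_loc [IsRegularRing A] (T : Submonoid A) (S : Type u)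
    [CommRing S] [Algebra A S] [IsLocalization T S] : IsRegularRing S := by
  have := IsLocalization.isNoetherianRing T S inferInstance
  refine isRegularRing_iff.2 fun p hp => ?_
  have := IsLocalization.isLocalization_isLocalization_atPrime_isLocalization T
    (Localization.AtPrime p) p
  exact IsRegularLocalRing.of_ringEquiv (IsLocalization.algEquiv
    (p.comap (algebraMap A S)).primeCompl (Localization.AtPrime (p.comap (algebraMap A S)))
    (Localization.AtPrime p)).toRingEquiv

theorem exists_loc_gen {p q : Ideal A} [q.IsPrime]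
    (h : (p.map (algebraMap A (Localization.AtPrime q))).IsPrincipal) :
    ∃ w ∈ p, ∀ v ∈ p, ∃ s ∉ q, s * v ∈ span {w} := by
  obtain ⟨g, hg⟩ := h
  have hgm : g ∈ p.map (algebraMap A (Localization.AtPrime q)) := by
    rw [hg]
    exact Submodule.mem_span_singleton_self g
  obtain ⟨⟨w, s0⟩, hw⟩ :=
    (IsLocalization.mem_map_algebraMap_iff q.primeCompl (Localization.AtPrime q)).1 hgm
  refine ⟨w, w.2, fun v hv => ?_⟩
  have hv' : algebraMap A (Localization.AtPrime q) v ∈
      p.map (algebraMap A (Localization.AtPrime q)) := Ideal.mem_map_of_mem _ hv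
  rw [hg] at hv'
  obtain ⟨c, hc⟩ := Submodule.mem_span_singleton.1 hv'
  obtain ⟨⟨a, t⟩, hat⟩ := IsLocalization.surj q.primeCompl c
  have he : algebraMap A (Localization.AtPrime q) ((t : A) * s0 * v) =
      algebraMap A (Localization.AtPrime q) (a * w) := by
    simp only at hw hat
    rw [map_mul, map_mul, map_mul, ← hw, ← hat, ← hc, smul_eq_mul]
    ring
  obtain ⟨u, hu⟩ := (IsLocalization.eq_iff_exists q.primeCompl _).1 he
  refine ⟨u * (t * s0), (u * (t * s0)).2, ?_⟩
  rw [mul_assoc, hu, ← mul_assoc]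
  exact Ideal.mul_mem_left _ _ (Ideal.mem_span_singleton_self _)

theorem GLL5_unif {p q W : Ideal A} [q.IsPrime] (hp : p.FG)
    (h : ∀ v ∈ p, ∃ s ∉ q, s * v ∈ W) : ∃ s ∉ q, ∀ v ∈ p, s * v ∈ W := by
  classical
  obtain ⟨t, rfl⟩ := hp
  choose! s hs hsW using h
  have hm : ∀ v ∈ t, v ∈ span (t : Set A) := fun v hv => Ideal.subset_span hv
  refine ⟨∏ v ∈ t, s v, q.primeCompl.prod_mem fun v hv => hs v (hm v hv), fun v hv => ?_⟩
  induction hv using Submodule.span_induction with
  | mem x hx =>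
    rw [← Finset.prod_erase_mul t s hx, mul_assoc]
    exact W.mul_mem_left _ (hsW x (hm x hx))
  | zero => simp
  | add x y _ _ hx hy =>
    rw [mul_add]
    exact W.add_mem hx hy
  | smul a x _ hx =>
    rw [smul_eq_mul, mul_left_comm]
    exact W.mul_mem_left _ hx

theorem inv_of_loc [IsDomain A] [IsNoetherianRing A] {p : Ideal A} (h0 : p ≠ ⊥)
    (h : ∀ (q : Ideal A) [q.IsMaximal],
      (p.map (algebraMap A (Localization.AtPrime q))).IsPrincipal) : Module.Invertible A p := by
  let K := FractionRing A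
  let I : Submodule A K := IsLocalization.coeSubmodule K p
  have hinj : Function.Injective (algebraMap A K) := IsFractionRing.injective A K
  have hIJ : I * (1 / I) = 1 := by
    refine le_antisymm Submodule.mul_one_div_le_one ?_
    have hC : ((I * (1 / I)).comap (Algebra.linearMap A K) : Ideal A) = ⊤ := by
      by_contra hne
      obtain ⟨q, hq, hle⟩ := Ideal.exists_le_maximal _ hne
      obtain ⟨w, hw, hv⟩ := exists_loc_gen (h q)
      obtain ⟨s, hs, hsv⟩ := GLL5_unif (IsNoetherian.noetherian p) hv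
      have hw0 : w ≠ 0 := by
        rintro rfl
        obtain ⟨v, hvp, hv0⟩ := Submodule.exists_mem_ne_zero_of_ne_bot h0
        have h1 := hsv v hvp
        rw [Ideal.span_singleton_zero, Ideal.mem_bot, mul_eq_zero] at h1
        rcases h1 with h1 | h1
        · exact hs (h1 ▸ q.zero_mem)
        · exact hv0 h1
      have hwK : algebraMap A K w ≠ 0 := fun h1 => hw0 (hinj (h1.trans (map_zero _).symm))
      have hJ : algebraMap A K s / algebraMap A K w ∈ 1 / I := by
        rw [Submodule.mem_div_iff_forall_mul_mem]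
        intro y hy
        obtain ⟨v, hvp, rfl⟩ := (IsLocalization.mem_coeSubmodule K p).1 hy
        obtain ⟨c, hc⟩ := Ideal.mem_span_singleton'.1 (hsv v hvp)
        refine Submodule.mem_one.2 ⟨c, ?_⟩
        rw [div_mul_eq_mul_div, ← map_mul, ← hc, map_mul, mul_div_cancel_right₀ _ hwK]
      have hwI : algebraMap A K w ∈ I := (IsLocalization.mem_coeSubmodule K p).2 ⟨w, hw, rfl⟩
      have h2 := Submodule.mul_mem_mul hwI hJ
      rw [mul_div_cancel₀ _ hwK] at h2
      exact hs (hle h2)
    rw [Submodule.one_le]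
    have h1 : (1 : A) ∈ ((I * (1 / I)).comap (Algebra.linearMap A K) : Ideal A) := by
      rw [hC]
      trivial
    simpa using h1
  let U : (Submodule A K)ˣ := Units.mkOfMulEqOne I (1 / I) hIJ
  have hU : Module.Invertible A U := inferInstance
  have e : (p : Type u) ≃ₗ[A] I := Submodule.equivMapOfInjective (Algebra.linearMap A K) hinj p
  exact @Module.Invertible.congr A _ _ _ _ _ _ _ hU e.symm

theorem principal_of_FF [IsDomain A] [IsNoetherianRing A] (hF : AllFF A) {p : Ideal A}
    (h : ∀ (q : Ideal A) [q.IsMaximal],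
      (p.map (algebraMap A (Localization.AtPrime q))).IsPrincipal) : p.IsPrincipal := by
  by_cases h0 : p = ⊥
  · rw [h0]
    exact bot_isPrincipal
  have hI := inv_of_loc h0 h
  obtain ⟨n, hn⟩ := hF p inferInstance
  have hS := hn.stablyFree inferInstance
  have hfree := Module.free_of_isStablyFree_of_invertible A p
  obtain ⟨e⟩ := Module.Invertible.free_iff_linearEquiv.1 hfree
  refine ⟨⟨(e.symm 1 : p), le_antisymm (fun x hx => ?_) ?_⟩⟩
  · refine Submodule.mem_span_singleton.2 ⟨e ⟨x, hx⟩, ?_⟩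
    have h1 : e ⟨x, hx⟩ • e.symm 1 = ⟨x, hx⟩ := by
      rw [← map_smul, smul_eq_mul, mul_one, e.symm_apply_apply]
    exact congrArg Subtype.val h1
  · rw [Submodule.span_singleton_le_iff_mem]
    exact (e.symm 1).2

theorem principal_of_ufd {p q : Ideal A} [p.IsPrime] [q.IsPrime] (hp : p.height = 1)
    [IsDomain (Localization.AtPrime q)] [UniqueFactorizationMonoid (Localization.AtPrime q)] :
    (p.map (algebraMap A (Localization.AtPrime q))).IsPrincipal := by
  by_cases hpq : p ≤ q
  · have hd : Disjoint (q.primeCompl : Set A) (p : Set A) :=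
      Set.disjoint_left.2 fun x hx hxp => hx (hpq hxp)
    have := IsLocalization.isPrime_of_isPrime_disjoint q.primeCompl (Localization.AtPrime q) p
      inferInstance hd
    refine UniqueFactorizationMonoid.isPrincipal_of_height_eq_one ?_
    rw [IsLocalization.height_map_of_disjoint q.primeCompl p hd, hp]
  · obtain ⟨x, hxp, hxq⟩ := Set.not_subset.1 hpq
    have hu : IsUnit (algebraMap A (Localization.AtPrime q) x) :=
      IsLocalization.map_units (Localization.AtPrime q) (⟨x, hxq⟩ : q.primeCompl)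
    rw [Ideal.eq_top_of_isUnit_mem _ (Ideal.mem_map_of_mem _ hxp) hu]
    exact top_isPrincipal

theorem GLL5_aux (n : ℕ) : ∀ (A : Type u) [CommRing A] [IsRegularRing A] [IsLocalRing A],
    ringKrullDim A < n → UniqueFactorizationMonoid A := by
  induction n with
  | zero =>
    intro A _ _ _ h
    exact absurd h (not_lt.2 ringKrullDim_nonneg_of_nontrivial)
  | succ n ih =>
    intro A _ _ _ h
    have := IsRegularLocalRing.of_isRegularRing_of_isLocalRing A
    have := reg_dom A
    obtain ⟨m, f, hm, hP, hN, hM⟩ := exists_sp A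
    have hmn : m ≤ n := by
      rw [hm] at h
      have h1 : m < n + 1 := by exact_mod_cast h
      omega
    rcases Nat.eq_zero_or_pos m with rfl | hpos
    · rw [VReg1_sp_zero] at hM
      have hF : IsField A := IsLocalRing.isField_iff_maximalIdeal_eq.2 hM.symm
      have := hF.isPrincipalIdealRing
      infer_instance
    · have h1 : sp f 1 = span {f 0} := by
        unfold sp
        congr 1
        ext y
        simp
      have hx0 : f 0 ≠ 0 := by
        have h2 := hN 0 hpos
        rwa [VReg1_sp_zero, Ideal.mem_bot] at h2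
      have hx : Prime (f 0) := (Ideal.span_singleton_prime hx0).1 (h1 ▸ hP 1 hpos)
      rw [UniqueFactorizationMonoid.iff_localizationAway_of_prime hx]
      let S := Localization.Away (f 0)
      have : IsDomain S := IsLocalization.Away.isDomain S hx0
      have : IsRegularRing S := reg_loc (Submonoid.powers (f 0)) S
      refine UniqueFactorizationMonoid.of_forall_isPrincipal_of_height_eq_one fun p _ hp => ?_
      refine principal_of_FF ((reg_allFF A).localization (Submonoid.powers (f 0)) S) fun q _ => ?_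
      have : IsRegularRing (Localization.AtPrime q) := reg_loc q.primeCompl _
      have : IsDomain (Localization.AtPrime q) :=
        IsLocalization.isDomain_localization q.primeCompl_le_nonZeroDivisors
      have hxq : f 0 ∉ q.under A := fun hx =>
        (inferInstance : q.IsPrime).ne_top (Ideal.eq_top_of_isUnit_mem _ hx
          (IsLocalization.Away.algebraMap_isUnit (f 0)))
      have hlt : q.under A < maximalIdeal A := by
        refine lt_of_le_of_ne (le_maximalIdeal (Ideal.IsPrime.ne_top inferInstance)) fun he => ?_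
        exact hxq (he ▸ (mem_maximalIdeal _).2 hx.not_isUnit)
      have hh := Ideal.height_strict_mono_of_isPrime hlt
      have hd : ringKrullDim (Localization.AtPrime q) < n := by
        rw [IsLocalization.AtPrime.ringKrullDim_eq_height q,
          ← IsLocalization.height_under (Submonoid.powers (f 0)) q]
        have h3 : (((q.under A).height : ℕ∞) : WithBot ℕ∞) < ((maximalIdeal A).height : ℕ∞) :=
          WithBot.coe_lt_coe.2 hh
        rw [IsLocalRing.maximalIdeal_height_eq_ringKrullDim, hm] at h3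
        exact h3.trans_le (by exact_mod_cast hmn)
      have := ih (Localization.AtPrime q) hd
      exact principal_of_ufd hp

theorem reg_ufd_aux (n : ℕ) : ∀ (A : Type u) [CommRing A] [IsRegularRing A] [IsLocalRing A],
    ringKrullDim A ≤ n → UniqueFactorizationMonoid A := by
  intro A _ _ _ h
  exact GLL5_aux (n + 1) A (h.trans_lt (by exact_mod_cast Nat.lt_succ_self n))

theorem reg_ufd (A : Type u) [CommRing A] [IsRegularRing A] [IsLocalRing A] :
    IsDomain A ∧ UniqueFactorizationMonoid A := by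
  have := IsRegularLocalRing.of_isRegularRing_of_isLocalRing A
  obtain ⟨m, -, hm, -⟩ := exists_sp A
  exact ⟨reg_dom A, reg_ufd_aux m A hm.le⟩

end Pool.Agent.Work.MP_10f4af_ag
end

-- merged part: Pool.Agent.Work.MP_10f4af_ag.GL.L1
section
/-!
# Localisations of quotients

Plan.  `LocQ.base`: `IsLocalization.map_units`, `IsLocalization.surj`,
`IsLocalization.map_eq_zero_iff`.  `LocQ.isLoc`: check the three fields of `IsLocalization`
(`isLocalization_iff` or `IsLocalization.of_le_isUnit` style constructors); everything else can be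
deduced from it and the Mathlib API, or done by hand.
`mem_map`: the set of `y` with `y * φ s = φ w` for some `s ∈ M`, `w ∈ J` is an ideal which contains
the image of `J`.
`LocQ.ufd`: `LocQ.lift` gives `ψ : L →+* L'`; with `ψ.toAlgebra` the ring `L'` is the localisation
of `L` at `M'.map φ`; `UniqueFactorizationMonoid.of_isLocalization`.
`LocQ.min`: a prime `q ≤ p.map φ` which contains `J.map φ` has a contraction between `I ⊔ J` and
`p`; use `map_comap`.
`rsq_perm`: localise at `n` (`LocQ.base`, `LocQ.rsq`), move `fs` to the front by `RSq.perm`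
(`List.perm_append_comm`), use `RSq_append`, and then `RSq_surj` for the map from the localisation
onto `L` given by `LocQ.lift`, whose kernel is the extension of `Ideal.ofList fs`.
-/

namespace Pool.Agent.Work.MP_10f4af_ag

open IsLocalRing Ideal

universe u

variable {B B' L L' : Type u} [CommRing B] [CommRing B'] [CommRing L] [CommRing L']

/-- `L` is the localisation of `B ⧸ I` at the image of `M`. -/
structure LocQ (φ : B →+* L) (I : Ideal B) (M : Submonoid B) : Prop where
  unit : ∀ s ∈ M, IsUnit (φ s)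
  surj : ∀ y, ∃ u, ∃ s ∈ M, y * φ s = φ u
  ker : ∀ u, φ u = 0 ↔ ∃ s ∈ M, s * u ∈ I

variable {φ : B →+* L} {φ' : B →+* L'} {I J : Ideal B} {M M' : Submonoid B}

theorem LocQ.base (M : Submonoid B) (L : Type u) [CommRing L] [Algebra B L]
    [IsLocalization M L] : LocQ (algebraMap B L) ⊥ M := by
  refine ⟨fun s hs => IsLocalization.map_units L (⟨s, hs⟩ : M), fun y => ?_, fun u => ?_⟩
  · obtain ⟨⟨u, s⟩, h⟩ := IsLocalization.surj M y
    exact ⟨u, s, s.2, h⟩
  · rw [IsLocalization.map_eq_zero_iff M]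
    exact ⟨fun ⟨s, h⟩ => ⟨s, s.2, h⟩, fun ⟨s, hs, h⟩ => ⟨⟨s, hs⟩, h⟩⟩

theorem LocQ.zero (h : LocQ φ I M) {u : B} (hu : u ∈ I) : φ u = 0 := by
  exact (h.ker u).2 ⟨1, M.one_mem, by rwa [one_mul]⟩

theorem GLL1_isLoc (h : LocQ φ ⊥ M) : @IsLocalization _ _ M L _ φ.toAlgebra := by
  letI := φ.toAlgebra
  refine (isLocalization_iff M L).2 ⟨fun s => h.unit s s.2, fun y => ?_, fun {x y} e => ?_⟩
  · obtain ⟨u, s, hs, e⟩ := h.surj y
    exact ⟨⟨u, s, hs⟩, e⟩
  · have e' : φ (x - y) = 0 := by rw [map_sub, sub_eq_zero]; exact e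
    obtain ⟨s, hs, e⟩ := (h.ker _).1 e'
    rw [Ideal.mem_bot, mul_sub, sub_eq_zero] at e
    exact ⟨⟨s, hs⟩, e⟩

theorem GLL1_desc {θ : B →+* B'} (hθ : Function.Surjective θ) (hk : RingHom.ker θ ≤ I)
    (h : LocQ φ I M) {φ₀ : B' →+* L} (e : ∀ u, φ₀ (θ u) = φ u) :
    LocQ φ₀ (I.map θ) (M.map θ) := by
  refine ⟨?_, fun y => ?_, fun u => ?_⟩
  · rintro _ ⟨s, hs, rfl⟩
    rw [e]
    exact h.unit s hs
  · obtain ⟨u, s, hs, e'⟩ := h.surj y
    exact ⟨θ u, θ s, ⟨s, hs, rfl⟩, by rw [e, e, e']⟩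
  · obtain ⟨u, rfl⟩ := hθ u
    rw [e, h.ker]
    constructor
    · rintro ⟨s, hs, e'⟩
      exact ⟨θ s, ⟨s, hs, rfl⟩, by rw [← map_mul]; exact mem_map_of_mem _ e'⟩
    · rintro ⟨_, ⟨s, hs, rfl⟩, e'⟩
      rw [← map_mul, ← mem_comap, comap_map_of_surjective _ hθ, ← RingHom.ker_eq_comap_bot,
        sup_eq_left.2 hk] at e'
      exact ⟨s, hs, e'⟩

theorem LocQ.isLoc (h : LocQ φ I M) :
    @IsLocalization _ _ (M.map (Ideal.Quotient.mk I)) L _
      (Ideal.Quotient.lift I φ fun _ => h.zero).toAlgebra := by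
  have := GLL1_desc Ideal.Quotient.mk_surjective Ideal.mk_ker.le h
    (φ₀ := Ideal.Quotient.lift I φ fun _ => h.zero) fun _ => rfl
  rw [map_quotient_self] at this
  exact GLL1_isLoc this

theorem LocQ.lift (h : LocQ φ I M) (g : B →+* L') (hg : ∀ s ∈ M, IsUnit (g s))
    (hI : ∀ u ∈ I, g u = 0) : ∃ ψ : L →+* L', ψ.comp φ = g := by
  letI := (Ideal.Quotient.lift I φ fun _ => h.zero).toAlgebra
  haveI := h.isLoc
  have hu : ∀ y : M.map (Ideal.Quotient.mk I), IsUnit (Ideal.Quotient.lift I g hI y) := by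
    rintro ⟨_, s, hs, rfl⟩
    exact hg s hs
  exact ⟨IsLocalization.lift hu, RingHom.ext fun u =>
    IsLocalization.lift_eq (S := L) hu (Ideal.Quotient.mk I u)⟩

theorem GLL1_mem (h : LocQ φ I M) {y : L} (hy : y ∈ J.map φ) :
    ∃ s ∈ M, ∃ w ∈ J, y * φ s = φ w := by
  refine Submodule.span_induction ?_ ?_ ?_ ?_ hy
  · rintro _ ⟨w, hw, rfl⟩
    exact ⟨1, M.one_mem, w, hw, by rw [map_one, mul_one]⟩
  · exact ⟨1, M.one_mem, 0, J.zero_mem, by rw [map_zero, zero_mul]⟩
  · rintro x y - - ⟨s, hs, w, hw, e⟩ ⟨s', hs', w', hw', e'⟩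
    refine ⟨s * s', M.mul_mem hs hs', s' * w + s * w',
      J.add_mem (J.mul_mem_left _ hw) (J.mul_mem_left _ hw'), ?_⟩
    rw [map_add, map_mul, map_mul, map_mul, ← e, ← e']
    ring
  · rintro r y - ⟨s, hs, w, hw, e⟩
    obtain ⟨v, t, ht, e'⟩ := h.surj r
    refine ⟨t * s, M.mul_mem ht hs, v * w, J.mul_mem_left _ hw, ?_⟩
    rw [map_mul, map_mul, ← e, ← e', smul_eq_mul]
    ring

theorem GLL1_map (h : LocQ φ I M) : I.map φ = ⊥ :=
  (map_eq_bot_iff_le_ker φ).2 fun _ => h.zero

theorem GLL1_frac (h : LocQ φ I M) {q : Ideal L} {y : L} {u s : B} (hs : s ∈ M)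
    (e : y * φ s = φ u) : y ∈ q ↔ φ u ∈ q := by
  rw [← e, q.mul_unit_mem_iff_mem (h.unit s hs)]

theorem LocQ.mem_map (h : LocQ φ I M) (hJ : I ≤ J) {u : B} :
    φ u ∈ J.map φ ↔ ∃ s ∈ M, s * u ∈ J := by
  constructor
  · intro hu
    obtain ⟨s, hs, w, hw, e⟩ := GLL1_mem h hu
    obtain ⟨t, ht, e'⟩ := (h.ker (u * s - w)).1 (by rw [map_sub, map_mul, e, sub_self])
    refine ⟨t * s, M.mul_mem ht hs, ?_⟩
    have := J.add_mem (hJ e') (J.mul_mem_left t hw)
    rwa [show t * (u * s - w) + t * w = t * s * u by ring] at this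
  · rintro ⟨s, hs, e⟩
    have := mem_map_of_mem φ e
    rwa [map_mul, (J.map φ).unit_mul_mem_iff_mem (h.unit s hs)] at this

theorem LocQ.quot (h : LocQ φ I M) (J : Ideal B) :
    LocQ ((Ideal.Quotient.mk (J.map φ)).comp φ) (I ⊔ J) M := by
  refine ⟨fun s hs => (h.unit s hs).map (Ideal.Quotient.mk _), fun y => ?_, fun u => ?_⟩
  · obtain ⟨y, rfl⟩ := Ideal.Quotient.mk_surjective y
    obtain ⟨u, s, hs, e⟩ := h.surj y
    exact ⟨u, s, hs, by rw [RingHom.comp_apply, RingHom.comp_apply, ← map_mul, e]⟩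
  · rw [RingHom.comp_apply, Ideal.Quotient.eq_zero_iff_mem, ← h.mem_map le_sup_left, Ideal.map_sup,
      GLL1_map h, bot_sup_eq]

theorem GLL1_comp (h : LocQ φ I M) {ψ : L →+* L'} {N : Submonoid L} (h' : LocQ ψ ⊥ N)
    (hM : M ≤ M') (h1 : ∀ s ∈ M', IsUnit (ψ (φ s)))
    (h2 : ∀ t ∈ N, ∃ s, ∃ u ∈ M', t * φ s = φ u) : LocQ (ψ.comp φ) I M' := by
  refine ⟨h1, fun y => ?_, fun x => ⟨fun e => ?_, ?_⟩⟩
  · obtain ⟨v, t, ht, e⟩ := h'.surj y
    obtain ⟨s, u, hu, e1⟩ := h2 t ht
    obtain ⟨u', s', hs', e2⟩ := h.surj v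
    refine ⟨u' * s, u * s', M'.mul_mem hu (hM hs'), ?_⟩
    simp only [RingHom.comp_apply, map_mul, ← e1, ← e2, ← e]
    ring
  · obtain ⟨t, ht, e⟩ := (h'.ker _).1 e
    obtain ⟨s, u, hu, e1⟩ := h2 t ht
    rw [Ideal.mem_bot] at e
    obtain ⟨s', hs', e'⟩ := (h.ker (u * x)).1
      (by rw [map_mul, ← e1, mul_right_comm, e, zero_mul])
    exact ⟨s' * u, M'.mul_mem (hM hs') hu, by rwa [mul_assoc]⟩
  · rintro ⟨s, hs, e⟩
    have := congrArg ψ (h.zero e)
    rw [map_mul, map_mul, map_zero] at this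
    exact (h1 s hs).mul_right_eq_zero.1 this

theorem LocQ.atPrime (h : LocQ φ I M) (q : Ideal L) [q.IsPrime] :
    LocQ ((algebraMap L (Localization.AtPrime q)).comp φ) I (q.comap φ).primeCompl := by
  have hM : ∀ s ∈ M, φ s ∉ q := fun s hs e =>
    Ideal.IsPrime.ne_top ‹_› (q.eq_top_of_isUnit_mem e (h.unit s hs))
  refine GLL1_comp h (LocQ.base q.primeCompl _) hM (fun s hs =>
    IsLocalization.map_units _ (⟨φ s, hs⟩ : q.primeCompl)) fun t ht => ?_
  obtain ⟨u, s, hs, e⟩ := h.surj t
  exact ⟨s, u, fun hu => ht ((GLL1_frac h hs e).2 hu), e⟩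

theorem LocQ.away (h : LocQ φ I M) (b : B) :
    LocQ ((algebraMap L (Localization.Away (φ b))).comp φ) I (M ⊔ Submonoid.powers b) := by
  refine GLL1_comp h (LocQ.base (Submonoid.powers (φ b)) _) le_sup_left (fun s hs => ?_) ?_
  · obtain ⟨t, ht, _, ⟨n, rfl⟩, rfl⟩ := Submonoid.mem_sup.1 hs
    rw [map_mul, map_mul, map_pow, map_pow]
    exact ((h.unit t ht).map _).mul ((IsLocalization.Away.algebraMap_isUnit (φ b)).pow n)
  · rintro _ ⟨n, rfl⟩
    exact ⟨1, b ^ n, Submonoid.mem_sup_right ⟨n, rfl⟩, by rw [map_one, mul_one, map_pow]⟩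

theorem LocQ.desc {θ : B →+* B'} (hθ : Function.Surjective θ) (hk : RingHom.ker θ ≤ I)
    (h : LocQ φ I M) : ∃ φ₀ : B' →+* L, φ₀.comp θ = φ ∧ LocQ φ₀ (I.map θ) (M.map θ) := by
  have hk' : RingHom.ker θ ≤ RingHom.ker φ := fun _ hu => h.zero (hk hu)
  exact ⟨θ.liftOfSurjective hθ ⟨φ, hk'⟩, θ.liftOfSurjective_comp hθ _,
    GLL1_desc hθ hk h (θ.liftOfSurjective_comp_apply hθ _)⟩

theorem LocQ.equiv (h : LocQ φ I M) (h' : LocQ φ' I M) : Nonempty (L ≃+* L') := by
  letI := (Ideal.Quotient.lift I φ fun _ => h.zero).toAlgebra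
  letI := (Ideal.Quotient.lift I φ' fun _ => h'.zero).toAlgebra
  haveI := h.isLoc
  haveI := h'.isLoc
  exact ⟨(IsLocalization.algEquiv (M.map (Ideal.Quotient.mk I)) L L').toRingEquiv⟩

theorem LocQ.ufd (h : LocQ φ I M) (h' : LocQ φ' I M') (hM : M ≤ M')
    [UniqueFactorizationMonoid L] : UniqueFactorizationMonoid L' := by
  obtain ⟨ψ, e⟩ := h.lift φ' (fun s hs => h'.unit s (hM hs)) fun _ => h'.zero
  have e : ∀ u, ψ (φ u) = φ' u := fun u => by rw [← e]; rfl
  have H : LocQ ψ ⊥ (M'.map φ) := by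
    refine ⟨?_, fun y => ?_, fun x => ⟨fun hx => ?_, ?_⟩⟩
    · rintro _ ⟨s, hs, rfl⟩
      rw [e]
      exact h'.unit s hs
    · obtain ⟨u, s, hs, e'⟩ := h'.surj y
      exact ⟨φ u, φ s, ⟨s, hs, rfl⟩, by rw [e, e, e']⟩
    · obtain ⟨u, s, hs, e'⟩ := h.surj x
      obtain ⟨t, ht, e2⟩ := (h'.ker u).1 (by rw [← e, ← e', map_mul, hx, zero_mul])
      refine ⟨φ t, ⟨t, ht, rfl⟩, ?_⟩
      have := h.zero e2
      rw [map_mul, ← e', ← mul_assoc] at this
      exact (h.unit s hs).mul_left_eq_zero.1 this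
    · rintro ⟨_, ⟨t, ht, rfl⟩, e'⟩
      have := congrArg ψ (Ideal.mem_bot.1 e')
      rw [map_mul, map_zero, e] at this
      exact (h'.unit t ht).mul_right_eq_zero.1 this
  letI := ψ.toAlgebra
  haveI := GLL1_isLoc H
  exact UniqueFactorizationMonoid.of_isLocalization (M'.map φ) L'

theorem LocQ.noeth [IsNoetherianRing B] (h : LocQ φ I M) : IsNoetherianRing L := by
  letI := (Ideal.Quotient.lift I φ fun _ => h.zero).toAlgebra
  haveI := h.isLoc
  exact IsLocalization.isNoetherianRing (M.map (Ideal.Quotient.mk I)) L inferInstance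

theorem LocQ.isUnit_iff {n : Ideal B} [n.IsPrime] (h : LocQ φ I n.primeCompl) (hI : I ≤ n)
    {u : B} : IsUnit (φ u) ↔ u ∉ n := by
  refine ⟨fun hu hn => ?_, h.unit u⟩
  have := ((n.map φ).eq_top_of_isUnit_mem (mem_map_of_mem φ hn) hu).ge
    (Submodule.mem_top (x := φ 1))
  obtain ⟨s, hs, e⟩ := (h.mem_map hI).1 this
  exact hs (by rwa [mul_one] at e)

theorem LocQ.isLocalRing {n : Ideal B} [n.IsPrime] (h : LocQ φ I n.primeCompl) (hI : I ≤ n) :
    IsLocalRing L := by
  haveI : Nontrivial L := by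
    refine ⟨1, 0, fun e => ?_⟩
    obtain ⟨s, hs, e⟩ := (h.ker 1).1 (by rwa [map_one])
    exact hs (hI (by rwa [mul_one] at e))
  refine IsLocalRing.of_isUnit_or_isUnit_one_sub_self fun x => ?_
  obtain ⟨u, s, hs, e⟩ := h.surj x
  by_cases hu : u ∈ n
  · refine Or.inr (isUnit_of_mul_isUnit_left (y := φ s) ?_)
    rw [sub_mul, one_mul, e, ← map_sub]
    exact h.unit _ fun e => hs (by simpa using n.add_mem e hu)
  · exact Or.inl (isUnit_of_mul_isUnit_left (y := φ s) (e ▸ h.unit u hu))

theorem LocQ.le_comap (h : LocQ φ I M) (q : Ideal L) : I ≤ q.comap φ := by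
  intro u hu
  rw [mem_comap, h.zero hu]
  exact q.zero_mem

theorem LocQ.map_comap (h : LocQ φ I M) (q : Ideal L) : (q.comap φ).map φ = q := by
  refine le_antisymm map_comap_le fun y hy => ?_
  obtain ⟨u, s, hs, e⟩ := h.surj y
  exact (GLL1_frac h hs e).2 (mem_map_of_mem φ ((GLL1_frac h hs e).1 hy))

theorem LocQ.map_prime (h : LocQ φ I M) {p : Ideal B} [p.IsPrime] (hI : I ≤ p)
    (hd : ∀ s ∈ M, s ∉ p) : (p.map φ).IsPrime ∧ (p.map φ).comap φ = p := by
  have hp : p.IsPrime := ‹_›
  have key : ∀ u, φ u ∈ p.map φ ↔ u ∈ p := fun u => ⟨fun hu => by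
    obtain ⟨s, hs, e⟩ := (h.mem_map hI).1 hu
    exact (hp.mem_or_mem e).resolve_left (hd s hs), mem_map_of_mem φ⟩
  refine ⟨⟨fun e => hd 1 M.one_mem ((key 1).1 (e.ge Submodule.mem_top)), fun {x y} hxy => ?_⟩,
    Ideal.ext key⟩
  obtain ⟨u, s, hs, e⟩ := h.surj x
  obtain ⟨v, t, ht, e'⟩ := h.surj y
  rw [GLL1_frac h hs e, GLL1_frac h ht e', key, key]
  refine hp.mem_or_mem ((key _).1 ((GLL1_frac h (M.mul_mem hs ht) ?_).1 hxy))
  rw [map_mul, map_mul, ← e, ← e']
  ring

theorem LocQ.min (h : LocQ φ I M) {p : Ideal B} (hd : ∀ s ∈ M, s ∉ p)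
    (hp : p ∈ (I ⊔ J).minimalPrimes) : p.map φ ∈ (J.map φ).minimalPrimes := by
  haveI := hp.1.1
  have hI : I ≤ p := le_sup_left.trans hp.1.2
  obtain ⟨h1, h2⟩ := h.map_prime hI hd
  refine ⟨⟨h1, map_mono (le_sup_right.trans hp.1.2)⟩, fun q hq hle => ?_⟩
  haveI := hq.1
  rw [map_le_iff_le_comap]
  exact hp.2 ⟨comap_isPrime φ q, sup_le (h.le_comap q) (map_le_iff_le_comap.1 hq.2)⟩
    (h2 ▸ comap_mono hle)

theorem LocQ.rsq (h : LocQ φ I M) (hJ : I ≤ J) {l : List B} (hl : RSq J l) :
    RSq (J.map φ) (l.map φ) := by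
  induction l generalizing J with
  | nil => trivial
  | cons x l ih =>
    refine ⟨fun y hy => ?_, ?_⟩
    · obtain ⟨u, s, hs, e⟩ := h.surj y
      have e' : φ x * y * φ s = φ (x * u) := by rw [map_mul, ← e, mul_assoc]
      obtain ⟨t, ht, e2⟩ := (h.mem_map hJ).1 ((GLL1_frac h hs e').1 hy)
      exact (GLL1_frac h hs e).2 ((h.mem_map hJ).2 ⟨t, ht, hl.1 _ (by rwa [mul_left_comm])⟩)
    · have := ih (hJ.trans le_sup_left) hl.2
      rwa [Ideal.map_sup, map_span, Set.image_singleton] at this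

theorem exists_locq (I : Ideal B) (M : Submonoid B) :
    ∃ (L : Type u) (_ : CommRing L) (φ : B →+* L), LocQ φ I M := by
  have := (LocQ.base M (Localization M)).quot I
  rw [bot_sup_eq] at this
  exact ⟨_, _, _, this⟩

theorem LocQ.rsq_perm [IsNoetherianRing B] {n : Ideal B} [n.IsPrime] {l fs : List B}
    (hn : ∀ x ∈ l ++ fs, x ∈ n) (hl : RSq ⊥ (l ++ fs))
    (h : LocQ φ (Ideal.ofList fs) n.primeCompl) : RSq ⊥ (l.map φ) := by
  have hA := LocQ.base n.primeCompl (Localization.AtPrime n)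
  generalize algebraMap B (Localization.AtPrime n) = α at hA
  haveI := hA.noeth
  have h1 := hA.rsq le_rfl hl
  rw [Ideal.map_bot] at h1
  have h2 := h1.perm (List.perm_append_comm.map α) fun x hx => by
    obtain ⟨y, hy, rfl⟩ := List.mem_map.1 hx
    exact fun hu => (hA.isUnit_iff bot_le).1 hu (hn y hy)
  rw [List.map_append, RSq_append, bot_sup_eq, ← map_ofList] at h2
  obtain ⟨ψ, e⟩ := hA.lift φ h.unit fun u hu => by rw [Ideal.mem_bot.1 hu, map_zero]
  have e' : ∀ u, ψ (α u) = φ u := fun u => by rw [← e]; rfl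
  have hs : Function.Surjective ψ := fun y => by
    obtain ⟨u, s, hs, e1⟩ := h.surj y
    obtain ⟨v, hv⟩ := (hA.unit s hs).exists_right_inv
    refine ⟨α u * v, ?_⟩
    rw [map_mul, e', ← e1, ← e', mul_assoc, ← map_mul, hv, map_one, mul_one]
  have hk : RingHom.ker ψ ≤ (Ideal.ofList fs).map α := fun x hx => by
    obtain ⟨u, s, hs, e1⟩ := hA.surj x
    obtain ⟨t, ht, e2⟩ := (h.ker u).1 (by rw [← e', ← e1, map_mul, hx, zero_mul])
    have := mem_map_of_mem α e2
    rw [map_mul, Ideal.unit_mul_mem_iff_mem _ (hA.unit t ht)] at this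
    exact (GLL1_frac hA hs e1).2 this
  have h3 := (RSq_surj hs hk).2 h2.2
  rwa [Ideal.map_map, List.map_map, e, GLL1_map h, ← RingHom.coe_comp, e] at h3

end Pool.Agent.Work.MP_10f4af_ag
end

-- merged part: Pool.Agent.Work.MP_10f4af_ag.GL.L6
section
/-!
# The Jacobian criterion

Plan.  `smo_of_indep`: `MP_ffcd14_ag.exists_col` over the residue field gives columns `col`; take
`N s j = if col j = s then 1 else 0`, so that the product is the submatrix; `RingHom.map_det`,
`Ideal.algebraMap_residueField_eq_zero`.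
`Smo.lift`: lift the entries of `N` (`MvPolynomial.map_surjective`); `pderiv_map`.
`Smo.indep`: the row vector `a` times `Jac F * N` has entries in `q`; multiply by the adjugate
(`Matrix.mul_adjugate`, `Matrix.vecMul_vecMul`).
`pderiv_sq`: `pow_two`, `Submodule.mul_induction_on`, `Derivation.leibniz`.
`jac_reg`: `LocQ.noeth`, `isRegularRing_iff`.  For a prime `p` of `L` let `q' = p.comap φ`; it
contains the `F j` (`LocQ.le_comap`) and `q' ≤ q` (`LocQ.unit`).  `LocQ.atPrime`, and on the other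
side `LocQ.base`, `LocQ.quot` for `A = Localization.AtPrime q'`; `LocQ.equiv`, `reg_quot`.  For the
independence clear denominators (`IsLocalization.exist_integer_multiples_of_finite`,
`Localization.AtPrime.map_eq_maximalIdeal`, `Ideal.map_pow`,
`IsLocalization.mem_map_algebraMap_iff`): `t * ∑ j, a j * F j ∈ q' ^ 2` with `t ∉ q'`; apply
`pderiv_sq` and `Smo.indep`.
-/

namespace Pool.Agent.Work.MP_10f4af_ag

open IsLocalRing Ideal MvPolynomial

universe u

variable {R R' L : Type u} [CommRing R] [CommRing R'] [CommRing L] {σ J : Type} [Fintype σ]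
  [Fintype J] [DecidableEq J]

/-- The Jacobian matrix. -/
noncomputable def Jac (F : J → MvPolynomial σ R) : Matrix J σ (MvPolynomial σ R) :=
  Matrix.of fun j s => pderiv s (F j)

/-- The Jacobian matrix has full rank at `q`. -/
def Smo (F : J → MvPolynomial σ R) (q : Ideal (MvPolynomial σ R)) : Prop :=
  ∃ N : Matrix σ J (MvPolynomial σ R), (Jac F * N).det ∉ q

variable {F : J → MvPolynomial σ R} {q q' : Ideal (MvPolynomial σ R)}

theorem smo_of_indep [q.IsPrime] (h : ∀ l : J → q.ResidueField,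
    (∀ s, ∑ j, l j * algebraMap (MvPolynomial σ R) q.ResidueField (pderiv s (F j)) = 0) → l = 0) :
    Smo F q := by
  classical
  obtain ⟨col, -, -, hdet⟩ := MP_ffcd14_ag.exists_col
    (fun j s => algebraMap (MvPolynomial σ R) q.ResidueField (pderiv s (F j))) (fun _ => True)
    fun l hl => h l fun s => hl s trivial
  refine ⟨Matrix.of fun s j => if col j = s then 1 else 0, fun hq => hdet ?_⟩
  rw [← Ideal.algebraMap_residueField_eq_zero, RingHom.map_det] at hq
  rw [← hq]
  congr 1
  ext j j'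
  simp [Matrix.mul_apply, Jac]

theorem Smo.anti (h : Smo F q) (hq : q' ≤ q) : Smo F q' := by
  obtain ⟨N, hN⟩ := h
  exact ⟨N, fun k => hN (hq k)⟩

theorem Smo.lift {θ : R →+* R'} (hθ : Function.Surjective θ) {p : Ideal (MvPolynomial σ R')}
    (h : Smo (fun j => MvPolynomial.map θ (F j)) p) : Smo F (p.comap (MvPolynomial.map θ)) := by
  obtain ⟨N, hN⟩ := h
  choose N' hN' using fun s j => MvPolynomial.map_surjective (σ := σ) θ hθ (N s j)
  refine ⟨Matrix.of N', fun k => hN ?_⟩
  rw [Ideal.mem_comap, RingHom.map_det] at k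
  convert k using 2
  ext1 j j'
  simp [Matrix.mul_apply, Jac, hN', pderiv_map]

theorem Smo.indep [q.IsPrime] (h : Smo F q) {a : J → MvPolynomial σ R}
    (ha : ∀ s, ∑ j, a j * pderiv s (F j) ∈ q) (j : J) : a j ∈ q := by
  obtain ⟨N, hN⟩ := h
  have h1 : ∀ i, Matrix.vecMul a (Jac F * N) i ∈ q := fun i => by
    rw [← Matrix.vecMul_vecMul]
    exact q.sum_mem fun s _ => q.mul_mem_right _ (ha s)
  have h2 : Matrix.vecMul (Matrix.vecMul a (Jac F * N)) (Jac F * N).adjugate j ∈ q :=
    q.sum_mem fun i _ => q.mul_mem_right _ (h1 i)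
  rw [Matrix.vecMul_vecMul, Matrix.mul_adjugate, Matrix.vecMul_smul, Matrix.vecMul_one] at h2
  exact ((inferInstance : q.IsPrime).mem_or_mem h2).resolve_left hN

omit [Fintype σ] in
theorem pderiv_sq {g : MvPolynomial σ R} (h : g ∈ q ^ 2) (s : σ) : pderiv s g ∈ q := by
  rw [pow_two] at h
  refine Submodule.mul_induction_on h (fun a ha b hb => ?_) fun a b ha hb => ?_
  · rw [Derivation.leibniz]
    exact q.add_mem (q.mul_mem_right _ ha) (q.mul_mem_right _ hb)
  · rw [map_add]
    exact q.add_mem ha hb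

theorem GLL6_indep [q.IsPrime] (h : Smo F q) (hF : ∀ j, F j ∈ q) {a : J → MvPolynomial σ R}
    (ha : ∑ j, a j * F j ∈ q ^ 2) (j : J) : a j ∈ q := by
  refine h.indep (fun s => ?_) j
  have h1 := pderiv_sq ha s
  simp only [map_sum, Derivation.leibniz, smul_eq_mul, Finset.sum_add_distrib] at h1
  exact (q.add_mem_iff_left (q.sum_mem fun i _ => q.mul_mem_right _ (hF i))).1 h1

theorem GLL6_loc [IsRegularRing R] [q.IsPrime] (h : Smo F q) (hF : ∀ j, F j ∈ q) :
    IsRegularLocalRing (Localization.AtPrime q ⧸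
      (span (Set.range F)).map (algebraMap (MvPolynomial σ R) (Localization.AtPrime q))) := by
  rw [Ideal.map_span, ← Set.range_comp]
  refine reg_quot _ (fun j => ?_) fun a ha j => ?_
  · exact (IsLocalization.AtPrime.to_map_mem_maximal_iff _ q _).2 (hF j)
  obtain ⟨b, hb⟩ := IsLocalization.exist_integer_multiples_of_finite q.primeCompl a
  choose c hc using hb
  have h1 : algebraMap (MvPolynomial σ R) (Localization.AtPrime q) (∑ j, c j * F j) ∈
      (q ^ 2).map (algebraMap (MvPolynomial σ R) (Localization.AtPrime q)) := by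
    rw [Ideal.map_pow, Localization.AtPrime.map_eq_maximalIdeal]
    convert Ideal.mul_mem_left _ (algebraMap (MvPolynomial σ R) _ b) ha using 1
    simp only [map_sum, map_mul, hc, Finset.mul_sum, Algebra.smul_def, mul_assoc,
      Function.comp_apply]
  obtain ⟨s, hs, h2⟩ := ((LocQ.base q.primeCompl (Localization.AtPrime q)).mem_map bot_le).1 h1
  have h3 : s * c j ∈ q := GLL6_indep (a := fun j => s * c j) h hF
    (by simpa only [Finset.mul_sum, mul_assoc] using h2) j
  have h4 := (IsLocalization.AtPrime.to_map_mem_maximal_iff (Localization.AtPrime q) q _).2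
    (((inferInstance : q.IsPrime).mem_or_mem h3).resolve_left hs)
  rw [hc, Algebra.smul_def] at h4
  exact (Ideal.unit_mul_mem_iff_mem _ (IsLocalization.map_units _ b)).1 h4

theorem jac_reg [IsRegularRing R] [q.IsPrime] (h : Smo F q) {φ : MvPolynomial σ R →+* L}
    (hL : LocQ φ (span (Set.range F)) q.primeCompl) : IsRegularRing L := by
  have := hL.noeth
  refine isRegularRing_iff.2 fun p hp => ?_
  have hq : p.comap φ ≤ q := fun u hu => by
    by_contra k
    exact hp.ne_top (p.eq_top_of_isUnit_mem hu (hL.unit u k))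
  have h1 := GLL6_loc (h.anti hq) fun j => hL.le_comap p (subset_span ⟨j, rfl⟩)
  have h2 := (LocQ.base (p.comap φ).primeCompl (Localization.AtPrime (p.comap φ))).quot
    (span (Set.range F))
  rw [bot_sup_eq] at h2
  obtain ⟨e⟩ := h2.equiv (hL.atPrime p)
  exact IsRegularLocalRing.of_ringEquiv e

end Pool.Agent.Work.MP_10f4af_ag
end

-- merged part: Pool.Agent.Work.MP_10f4af_ag.GL.M1
section
/-!
# A factorial special fibre, and divisors on the total space

Plan.  `Spc.ufd_loc`: `L` is local and noetherian (`LocQ.isLocalRing`, `LocQ.noeth`), and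
`RSq ⊥ [φ b, φ z₁, φ z₂]` by `LocQ.rsq_perm`, `ofList_ofFn`.  Let `T = L ⧸ (span {X b}).map φ`
(`LocQ.quot`); it is local, the images of `X z₁`, `X z₂` form a regular sequence (`RSq_surj`), and
its localisation at a prime which misses one of them is regular (`LocQ.atPrime`, `smT`, `jac_reg`;
`span (range fun o : Option _ => _) = span (range f) ⊔ span {X b}`), hence a domain (`reg_ufd`).
`dom_of_punct`, `dom_of_quot`; so `φ (X b)` is a prime element (`Ideal.span_singleton_prime`), and
`UniqueFactorizationMonoid.iff_localizationAway_of_prime`, `LocQ.away`, `LocQ.ufd` finish.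
`ker_red`: `MvPolynomial.ker_map`, `IsLocalRing.ker_residue`, `Irreducible.maximalIdeal_eq`.
`core`: let `π` be a uniformiser, `red = map (residue O)`, `I = span (range f)`, and
`φ : O[x] → A` from `exists_locq I (irr σ O).primeCompl`.  The list
`[C π, X b, X z₁, X z₂] ++ List.ofFn f` is regular (`C π` is not zero, then `RSq_surj` for `red`),
so `RSq ⊥ [φ (C π), φ (X b), φ (X z₁), φ (X z₂)]` (`LocQ.rsq_perm`).  `LocQ.quot` for
`span {C π}`, `LocQ.desc` for `red`, `map_irr` and `Spc.ufd_loc` show that `A ⧸ (φ (C π))` is a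
factorial domain; `dom_of_quot`.  The prime `p.map φ` (`LocQ.map_prime`) is minimal over
`(φ g₁) ≠ ⊥` (`LocQ.min`, `hg`), so it has height one
(`Ideal.height_le_one_of_isPrincipal_of_mem_minimalPrimes`, `Ideal.height_eq_zero_iff`).  For a prime `q` of
`A` as in `lift_principal`, `q' = q.comap φ` contains `ker red`, so `q'.map red` is a prime with
contraction `q'`; `smA`, `Smo.lift`, `LocQ.atPrime`, `jac_reg`, `reg_ufd`, `principal_of_ufd`.
Finally `exists_gen_of_principal` for `φ '' T` (`Ideal.map_span`) and `LocQ.mem_map` for the ideal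
`I ⊔ span {g}`.
-/

namespace Pool.Agent.Work.MP_10f4af_ag

open IsLocalRing Ideal MvPolynomial

universe u

variable {σ : Type} [Fintype σ] {r : ℕ}

/-- The properties of the special fibre. -/
structure Spc {κ : Type u} [Field κ] (f : Fin r → MvPolynomial σ κ) (b z₁ z₂ : σ) : Prop where
  cst : ∀ j, constantCoeff (f j) = 0
  reg : RSq ⊥ ([X b, X z₁, X z₂] ++ List.ofFn f)
  smT : ∀ (q : Ideal (MvPolynomial σ κ)) [q.IsPrime], X b ∈ q → (∀ j, f j ∈ q) →
    X z₁ ∉ q ∨ X z₂ ∉ q → Smo (fun o : Option (Fin r) => o.elim (X b) f) q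
  smA : ∀ (q : Ideal (MvPolynomial σ κ)) [q.IsPrime], (∀ j, f j ∈ q) →
    X b ∉ q ∨ X z₁ ∉ q ∨ X z₂ ∉ q → Smo f q
  ufd : ∃ (U : Type u) (_ : CommRing U) (ψ : MvPolynomial σ κ →+* U),
    UniqueFactorizationMonoid U ∧ LocQ ψ (span (Set.range f)) (Submonoid.powers (X b))

/-- The maximal ideal of the vertex of the special fibre. -/
noncomputable def irr (σ : Type) (O : Type u) [CommRing O] [IsLocalRing O] :
    Ideal (MvPolynomial σ O) :=
  (maximalIdeal O).comap constantCoeff

instance irr_prime (σ : Type) (O : Type u) [CommRing O] [IsLocalRing O] : (irr σ O).IsPrime :=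
  Ideal.comap_isPrime _ _

section Aux

variable {B L : Type u} [CommRing B] [CommRing L] {φ : B →+* L} {I : Ideal B} {M : Submonoid B}

theorem GLM1_quot (h : LocQ φ I M) (x : B) :
    LocQ ((Ideal.Quotient.mk (span {φ x})).comp φ) (I ⊔ span {x}) M := by
  have := h.quot (span {x})
  rwa [Ideal.map_span, Set.image_singleton] at this

theorem GLM1_tail {x : L} {l : List L} (h : RSq ⊥ (x :: l)) :
    RSq ⊥ (l.map (Ideal.Quotient.mk (span {x}))) := by
  have h1 : RSq (⊥ ⊔ span {x}) l := h.2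
  rw [bot_sup_eq] at h1
  have := (RSq_surj Ideal.Quotient.mk_surjective Ideal.mk_ker.le).2 h1
  rwa [Ideal.map_quotient_self] at this

theorem GLM1_max {n : Ideal B} [n.IsPrime] [IsLocalRing L] (h : LocQ φ I n.primeCompl)
    (hI : I ≤ n) {x : B} (hx : x ∈ n) : φ x ∈ maximalIdeal L :=
  (mem_maximalIdeal _).2 fun hu => (h.isUnit_iff hI).1 hu hx

end Aux

omit [Fintype σ] in
theorem GLM1_mem {O : Type u} [CommRing O] [IsLocalRing O] {x : MvPolynomial σ O} :
    x ∈ irr σ O ↔ constantCoeff x ∈ maximalIdeal O := Iff.rfl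

omit [Fintype σ] in
theorem GLM1_X {O : Type u} [CommRing O] [IsLocalRing O] (s : σ) : X s ∈ irr σ O := by
  rw [GLM1_mem, constantCoeff_X]
  exact zero_mem _

theorem Spc.ufd_loc {κ L : Type u} [Field κ] [CommRing L] {f : Fin r → MvPolynomial σ κ}
    {b z₁ z₂ : σ} (h : Spc f b z₁ z₂) {φ : MvPolynomial σ κ →+* L}
    (hL : LocQ φ (span (Set.range f)) (irr σ κ).primeCompl) :
    IsDomain L ∧ UniqueFactorizationMonoid L := by
  have hf : ∀ j, f j ∈ irr σ κ := fun j => by
    rw [GLM1_mem, h.cst]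
    exact zero_mem _
  have hI : span (Set.range f) ≤ irr σ κ := span_le.2 (Set.range_subset_iff.2 hf)
  have := hL.isLocalRing hI
  have := hL.noeth
  have hr : RSq ⊥ [φ (X b), φ (X z₁), φ (X z₂)] :=
    LocQ.rsq_perm (n := irr σ κ) (l := [X b, X z₁, X z₂]) (fs := List.ofFn f) (by
      simp only [List.mem_append, List.mem_cons, List.not_mem_nil, or_false, List.mem_ofFn]
      rintro _ ((rfl | rfl | rfl) | ⟨j, rfl⟩)
      exacts [GLM1_X _, GLM1_X _, GLM1_X _, hf j]) h.reg (by rwa [ofList_ofFn])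
  have hT := GLM1_quot hL (X b)
  have := hT.isLocalRing (sup_le hI ((span_singleton_le_iff_mem _).2 (GLM1_X b)))
  have e : span (Set.range fun o : Option (Fin r) => o.elim (X b) f) =
      span (Set.range f) ⊔ span {X b} := by
    rw [← span_union]
    congr 1
    ext x
    simp only [Set.mem_range, Option.exists, Option.elim_none, Option.elim_some, Set.mem_union,
      Set.mem_singleton_iff]
    tauto
  have hd : IsDomain (L ⧸ span {φ (X b)}) := dom_of_punct (GLM1_tail hr) fun q _ hq => by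
    have := jac_reg (h.smT (q.comap ((Ideal.Quotient.mk (span {φ (X b)})).comp φ))
      (hT.le_comap q (mem_sup_right (mem_span_singleton_self _)))
      (fun j => hT.le_comap q (mem_sup_left (subset_span ⟨j, rfl⟩))) hq) (e ▸ hT.atPrime q)
    exact (reg_ufd _).1
  have hp := (Ideal.Quotient.isDomain_iff_prime _).1 hd
  have := dom_of_quot (GLM1_max hL hI (GLM1_X b)) hr.1 hp
  have h0 : φ (X b) ≠ 0 := fun e0 =>
    one_ne_zero (mem_bot.1 (hr.1 1 (by rw [e0, zero_mul]; exact zero_mem _)))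
  obtain ⟨U, _, ψ, _, hU⟩ := h.ufd
  exact ⟨this, (UniqueFactorizationMonoid.iff_localizationAway_of_prime
    ((span_singleton_prime h0).1 hp)).2 (hU.ufd (hL.away (X b)) le_sup_right)⟩

variable {O : Type u} [CommRing O] [IsDomain O] [IsDiscreteValuationRing O]

omit [Fintype σ] in
theorem ker_red {π : O} (hπ : Irreducible π) :
    RingHom.ker (MvPolynomial.map (residue O) : MvPolynomial σ O →+* _) = span {C π} := by
  rw [MvPolynomial.ker_map, IsLocalRing.ker_residue, hπ.maximalIdeal_eq, Ideal.map_span,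
    Set.image_singleton]

omit [Fintype σ] in
theorem GLM1_red {x : MvPolynomial σ O} :
    MvPolynomial.map (residue O) x ∈ irr σ (ResidueField O) ↔ x ∈ irr σ O := by
  rw [GLM1_mem, GLM1_mem, constantCoeff_map, maximalIdeal_eq_bot, mem_bot, residue_eq_zero_iff]

omit [Fintype σ] in
theorem map_irr : (irr σ O).primeCompl.map
    (MvPolynomial.map (residue O) : MvPolynomial σ O →+* _) =
      (irr σ (ResidueField O)).primeCompl := by
  ext x
  constructor
  · rintro ⟨y, hy, rfl⟩ h
    exact hy (GLM1_red.1 h)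
  · intro hx
    obtain ⟨y, rfl⟩ := MvPolynomial.map_surjective (residue O) residue_surjective x
    exact ⟨y, fun h => hx (GLM1_red.2 h), rfl⟩

theorem core {f : Fin r → MvPolynomial σ O} {b z₁ z₂ : σ}
    (h : Spc (fun j => MvPolynomial.map (residue O) (f j)) b z₁ z₂) {p : Ideal (MvPolynomial σ O)}
    (hn : p ≤ irr σ O) (hc : ∀ c : O, C c ∈ p → c = 0) {g₁ : MvPolynomial σ O}
    (hm : p ∈ (span (Set.range f) ⊔ span {g₁}).minimalPrimes)
    (hg : ∀ s ∉ irr σ O, s * g₁ ∉ span (Set.range f)) {T : Set (MvPolynomial σ O)}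
    (hT : span T = p) :
    ∃ g ∈ T, ∀ G ∈ p, ∃ s ∉ irr σ O, s * G ∈ span (Set.range f) ⊔ span {g} := by
  obtain ⟨π, hπ⟩ := IsDiscreteValuationRing.exists_irreducible O
  have hs : Function.Surjective (MvPolynomial.map (residue O) : MvPolynomial σ O →+* _) :=
    MvPolynomial.map_surjective _ residue_surjective
  have hpp : p.IsPrime := hm.isPrime
  have hIp : span (Set.range f) ≤ p := le_sup_left.trans hm.le
  have hI : span (Set.range f) ≤ irr σ O := hIp.trans hn
  have hC : C π ∈ irr σ O := by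
    rw [GLM1_mem, constantCoeff_C]
    exact (mem_maximalIdeal _).2 hπ.not_isUnit
  obtain ⟨A, _, φ, hA⟩ := exists_locq (span (Set.range f)) (irr σ O).primeCompl
  have := hA.isLocalRing hI
  have := hA.noeth
  have hr0 : RSq ⊥ ([C π, X b, X z₁, X z₂] ++ List.ofFn f) := by
    refine ⟨fun u hu => ?_, ?_⟩
    · exact mem_bot.2 ((mul_eq_zero.1 (mem_bot.1 hu)).resolve_left
        ((map_ne_zero_iff _ (C_injective σ O)).2 hπ.ne_zero))
    · rw [bot_sup_eq, ← ker_red hπ]
      refine (RSq_surj hs le_rfl).1 ?_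
      have e : (RingHom.ker (MvPolynomial.map (residue O) : MvPolynomial σ O →+* _)).map
          (MvPolynomial.map (residue O)) = ⊥ := (Ideal.map_eq_bot_iff_le_ker _).2 le_rfl
      rw [e]
      simpa [List.map_ofFn, Function.comp_def] using h.reg
  have hr : RSq ⊥ [φ (C π), φ (X b), φ (X z₁), φ (X z₂)] :=
    LocQ.rsq_perm (n := irr σ O) (l := [C π, X b, X z₁, X z₂]) (fs := List.ofFn f) (by
      simp only [List.mem_append, List.mem_cons, List.not_mem_nil, or_false, List.mem_ofFn]
      rintro _ ((rfl | rfl | rfl | rfl) | ⟨j, rfl⟩)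
      exacts [hC, GLM1_X _, GLM1_X _, GLM1_X _, hI (subset_span ⟨j, rfl⟩)]) hr0
      (by rwa [ofList_ofFn])
  obtain ⟨φ₀, -, h0⟩ := (GLM1_quot hA (C π)).desc hs ((ker_red hπ).le.trans le_sup_right)
  rw [map_irr, Ideal.map_sup, ← ker_red hπ, (Ideal.map_eq_bot_iff_le_ker _).2 le_rfl, sup_bot_eq,
    Ideal.map_span, ← Set.range_comp] at h0
  obtain ⟨hd, hu⟩ := h.ufd_loc h0
  have := dom_of_quot (GLM1_max hA hI hC) hr.1 ((Ideal.Quotient.isDomain_iff_prime _).1 hd)
  have hdis : ∀ s ∈ (irr σ O).primeCompl, s ∉ p := fun s h1 h2 => h1 (hn h2)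
  obtain ⟨hP, hPc⟩ := hA.map_prime hIp hdis
  have hmin := hA.min hdis hm
  rw [Ideal.map_span, Set.image_singleton] at hmin
  have hne : p.map φ ≠ ⊥ := fun e => by
    obtain ⟨s, h1, h2⟩ := (hA.ker g₁).1 (mem_bot.1 (e ▸ hmin.le (mem_span_singleton_self _)))
    exact hg s h1 h2
  have hht : (p.map φ).height = 1 :=
    le_antisymm (Ideal.height_le_one_of_isPrincipal_of_mem_minimalPrimes _ _ hmin)
      (Order.one_le_iff_ne_zero.2 (Ideal.height_eq_zero_iff_eq_bot.not.2 hne))
  have hpr : (p.map φ).IsPrincipal := by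
    refine lift_principal ?_ hr hht (fun e => hπ.ne_zero (hc π (hPc ▸ mem_comap.2 e)))
      fun q _ _ hq1 hq2 => ?_
    · simp only [List.mem_cons, List.not_mem_nil, or_false]
      rintro _ (rfl | rfl | rfl | rfl)
      exacts [GLM1_max hA hI hC, GLM1_max hA hI (GLM1_X _), GLM1_max hA hI (GLM1_X _),
        GLM1_max hA hI (GLM1_X _)]
    have hk : RingHom.ker (MvPolynomial.map (residue O) : MvPolynomial σ O →+* _) ≤
        q.comap φ := (ker_red hπ).le.trans ((span_singleton_le_iff_mem _).2 hq1)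
    have := Ideal.map_isPrime_of_surjective hs hk
    have e : ((q.comap φ).map (MvPolynomial.map (residue O))).comap
        (MvPolynomial.map (residue O)) = q.comap φ := by
      rw [Ideal.comap_map_of_surjective _ hs, sup_eq_left]
      exact hk
    have hX : ∀ s, X s ∈ (q.comap φ).map (MvPolynomial.map (residue O)) → φ (X s) ∈ q :=
      fun s h1 => by
        rw [← mem_comap, ← e, mem_comap, map_X]
        exact h1
    have h1 := (h.smA ((q.comap φ).map (MvPolynomial.map (residue O)))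
      (fun j => mem_map_of_mem _ (hA.le_comap q (subset_span ⟨j, rfl⟩)))
      (hq2.imp (mt (hX _)) (Or.imp (mt (hX _)) (mt (hX _))))).lift residue_surjective
    rw [e] at h1
    have := jac_reg h1 (hA.atPrime q)
    obtain ⟨_, _⟩ := reg_ufd (Localization.AtPrime q)
    exact principal_of_ufd hht
  rw [← hT, Ideal.map_span] at hpr hne
  obtain ⟨_, ⟨g, hgT, rfl⟩, e⟩ := exists_gen_of_principal hpr hne
  refine ⟨g, hgT, fun G hG => (hA.mem_map le_sup_left).1 ?_⟩
  rw [Ideal.map_sup]
  refine mem_sup_right ?_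
  rw [Ideal.map_span, Set.image_singleton, ← e, ← Ideal.map_span, hT]
  exact mem_map_of_mem _ hG

end Pool.Agent.Work.MP_10f4af_ag
end

-- merged part: Pool.Agent.Work.MP_10f4af_ag.GL.N2
section
/-!
# Forms with algebraically independent coefficients have no singular common zero

Plan.  `indep_card`: in the subalgebra `A = adjoin F (range g)` the family `c` is independent
(`AlgebraicIndependent.of_map` for `A.val`), so `#ι ≤ trdeg F A ≤ #γ`
(`AlgebraicIndependent.lift_cardinalMk_le_trdeg`, `Algebra.IsAlgebraic.trdeg_le_cardinalMk`); or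
work in `L` with the matroid `AlgebraicIndependent.matroid`.
`gen_smooth_one` (the case `x s₀ = 1`, `l j₀ = 1`): let `ι` be the index type of `hi`; it is finite
(`Finsupp.finite_of_degree_le`).  Let `p j = (j, single s₀ (e j))` and, for `s ∈ V j₀` different
from `s₀`, `d s = (j₀, single s₀ (e j₀ - 1) + single s 1)`.  Define `g : {i : ι // i ≠ p j₀} → L` by
`g (p j) = l j`, `g (d s) = x s`, and `g i = c i` otherwise, and `A = adjoin F (range g)`.  Then
`x s ∈ A` for `s ∈ V j₀` and `l j ∈ A`.  Expand `eval x (h j) = ∑ m, coeff m (h j) * ∏ x s ^ m s`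
(`eval_eq`): for `j ≠ j₀` this gives `c (p j) ∈ A`, so all the coefficients of `h j` are in `A`, and
so is `eval x (pderiv s (h j))`.  For `j₀`, the equation `hd s` gives `c (d s) ∈ A`, since
`eval x (pderiv s (monomial m 1))` is `1` for `m = d s`, and `0` for `m = d s'` and `m = p j₀`
(`pderiv_monomial`).  Then `h0 j₀` gives `c (p j₀) ∈ A`, and `indep_card` is contradicted.
`gen_smooth`: replace `x` by `(x s₀)⁻¹ • x` and `l j` by `l j * x s₀ ^ (e j - 1)`, divided by its
value at `j₀` (`IsHomogeneous.pderiv`; `eval (a • x) g = a ^ n * eval x g` for `g` homogeneous).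
-/

namespace Pool.Agent.Work.MP_10f4af_ag

open MvPolynomial

universe u

variable {F L : Type u} [Field F] [Field L] [Algebra F L]

theorem indep_card {ι γ : Type} [Finite ι] [Finite γ] {c : ι → L} (hc : AlgebraicIndependent F c)
    (g : γ → L) (h : ∀ i, c i ∈ Algebra.adjoin F (Set.range g)) : Nat.card ι ≤ Nat.card γ := by
  have h1 : (AlgebraicIndependent.matroid F L).Indep (Set.range c) :=
    AlgebraicIndependent.matroid_indep_iff.mpr hc.to_subtype_range
  have h2 : Set.range c ⊆ (AlgebraicIndependent.matroid F L).closure (Set.range g) := by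
    rintro _ ⟨i, rfl⟩
    rw [AlgebraicIndependent.matroid_closure_eq]
    exact isAlgebraic_algebraMap (⟨c i, h i⟩ : Algebra.adjoin F (Set.range g))
  have h3 : (Set.range c).encard ≤ (Set.range g).encard :=
    (h1.encard_le_eRk_of_subset h2).trans (by
      rw [Matroid.eRk_closure_eq]
      exact Matroid.eRk_le_encard _ _)
  rw [← (Set.finite_range c).cast_ncard_eq, ← (Set.finite_range g).cast_ncard_eq,
    Nat.cast_le] at h3
  rw [← Nat.card_range_of_injective hc.injective]
  exact h3.trans (Finite.card_range_le g)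

theorem eval_smul_hom {σ : Type} {g : MvPolynomial σ L} {n : ℕ} (hg : g.IsHomogeneous n) (a : L)
    (x : σ → L) : eval (a • x) g = a ^ n * eval x g := by
  rw [eval_eq, eval_eq, Finset.mul_sum]
  refine Finset.sum_congr rfl fun m hm => ?_
  simp only [Pi.smul_apply, smul_eq_mul, mul_pow, Finset.prod_mul_distrib,
    Finset.prod_pow_eq_pow_sum]
  rw [← hg.degree_eq_sum_deg_support hm]
  ring

theorem GLN2_expand {σ : Type} (φ : MvPolynomial σ L →ₗ[L] L) (f : MvPolynomial σ L) :
    φ f = ∑ m ∈ f.support, coeff m f * φ (monomial m 1) := by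
  conv_lhs => rw [f.as_sum, map_sum]
  refine Finset.sum_congr rfl fun m _ => ?_
  rw [← smul_eq_mul, ← map_smul, smul_monomial, smul_eq_mul, mul_one]

theorem GLN2_solve {σ : Type} (A : Subalgebra F L) (φ : MvPolynomial σ L →ₗ[L] L)
    (f : MvPolynomial σ L) (m₀ : σ →₀ ℕ) (h0 : φ f ∈ A) (h1 : φ (monomial m₀ 1) = 1)
    (h2 : ∀ m, coeff m f ≠ 0 → m ≠ m₀ → coeff m f * φ (monomial m 1) ∈ A) : coeff m₀ f ∈ A := by
  classical
  by_cases h3 : m₀ ∈ f.support
  · rw [GLN2_expand, ← Finset.add_sum_erase _ _ h3, h1, mul_one] at h0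
    exact (add_mem_cancel_right (sum_mem fun m hm => h2 m
      (mem_support_iff.1 (Finset.mem_of_mem_erase hm)) (Finset.ne_of_mem_erase hm))).1 h0
  · rw [notMem_support_iff.1 h3]
    exact zero_mem _

variable {σ J : Type} [Finite σ] [Fintype J] {V : J → Set σ} {e : J → ℕ}
  {h : J → MvPolynomial σ L} (he : ∀ j, 0 < e j) (hh : ∀ j, (h j).IsHomogeneous (e j))
  (hV : ∀ j m, coeff m (h j) ≠ 0 → ∀ s ∈ m.support, s ∈ V j)
  (hi : AlgebraicIndependent F fun p : {p : J × (σ →₀ ℕ) //
    p.2.degree = e p.1 ∧ ∀ s ∈ p.2.support, s ∈ V p.1} => coeff p.1.2 (h p.1.1))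
  {j₀ : J} (hj : ∀ j, V j ⊆ V j₀) {s₀ : σ} (hs : ∀ j, s₀ ∈ V j) {x : σ → L} {l : J → L}
  (h0 : ∀ j, eval x (h j) = 0) (hd : ∀ s ∈ V j₀, ∑ j, l j * eval x (pderiv s (h j)) = 0)
include he hh hV hi hj hs h0 hd

theorem gen_smooth_one (hx : x s₀ = 1) (hl : l j₀ = 1) : False := by
  classical
  let p : J → σ →₀ ℕ := fun j => Finsupp.single s₀ (e j)
  let q : σ → σ →₀ ℕ := fun s => Finsupp.single s₀ (e j₀ - 1) + Finsupp.single s 1
  let G : J → (σ →₀ ℕ) → L := fun j m =>
    if m = p j then l j else if j = j₀ ∧ ∃ s, m = q s then eval x (monomial m 1) else coeff m (h j)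
  let ι := {p : J × (σ →₀ ℕ) // p.2.degree = e p.1 ∧ ∀ s ∈ p.2.support, s ∈ V p.1}
  have hfin : Finite ι := by
    refine Set.Finite.to_subtype (s := {p : J × (σ →₀ ℕ) |
      p.2.degree = e p.1 ∧ ∀ s ∈ p.2.support, s ∈ V p.1}) ?_
    refine (Set.finite_univ.prod (Finsupp.finite_of_degree_le (∑ j, e j))).subset
      fun a ha => ⟨trivial, ?_⟩
    exact ha.1.trans_le (Finset.single_le_sum (fun j _ => Nat.zero_le (e j)) (Finset.mem_univ _))
  have hp : ∀ j, (p j).degree = e j ∧ ∀ s ∈ (p j).support, s ∈ V j := fun j =>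
    ⟨Finsupp.degree_single _ _, fun s hs' => by
      rw [Finset.mem_singleton.1 (Finsupp.support_single_subset hs')]
      exact hs j⟩
  have hp0 : ∀ j s, s ≠ s₀ → p j s = 0 := fun j s hs' => Finsupp.single_eq_of_ne hs'
  have hq : ∀ s ∈ V j₀, (q s).degree = e j₀ ∧ ∀ s' ∈ (q s).support, s' ∈ V j₀ := fun s hs' =>
    ⟨by
      rw [map_add, Finsupp.degree_single, Finsupp.degree_single]
      exact Nat.sub_add_cancel (he j₀), fun s' hs'' => by
      rcases Finset.mem_union.1 (Finsupp.support_add hs'') with h1 | h1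
      · rw [Finset.mem_singleton.1 (Finsupp.support_single_subset h1)]
        exact hs j₀
      · rwa [Finset.mem_singleton.1 (Finsupp.support_single_subset h1)]⟩
  have hq0 : ∀ s s', s ≠ s₀ → s' ≠ s → q s' s = 0 := fun s s' h1 h2 => by
    rw [Finsupp.add_apply, Finsupp.single_eq_of_ne h1, Finsupp.single_eq_of_ne h2.symm, add_zero]
  have hq1 : ∀ s, s ≠ s₀ → q s s = 1 := fun s h1 => by
    rw [Finsupp.add_apply, Finsupp.single_eq_of_ne h1, Finsupp.single_eq_same]
  have hqp : q s₀ = p j₀ :=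
    (Finsupp.single_add _ _ _).symm.trans (congrArg _ (Nat.sub_add_cancel (he j₀)))
  have hx1 : ∀ n, eval x (monomial (Finsupp.single s₀ n) 1) = 1 := fun n => by
    rw [← X_pow_eq_monomial, map_pow, eval_X, hx, one_pow]
  let i₀ : ι := ⟨(j₀, p j₀), hp j₀⟩
  let A := Algebra.adjoin F (Set.range fun i : {i : ι // i ≠ i₀} => G i.1.1.1 i.1.1.2)
  have hA : ∀ j m, (m.degree = e j ∧ ∀ s ∈ m.support, s ∈ V j) → (j = j₀ → m ≠ p j₀) →
      G j m ∈ A := fun j m h1 h2 => Algebra.subset_adjoin
    ⟨⟨⟨(j, m), h1⟩, fun h3 => h2 (congrArg (·.1.1) h3) (congrArg (·.1.2) h3)⟩, rfl⟩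
  have hl' : ∀ j, l j ∈ A := fun j => by
    by_cases h1 : j = j₀
    · rw [h1, hl]
      exact one_mem _
    · simpa only [G, if_true] using hA j (p j) (hp j) fun h2 => absurd h2 h1
  have hx' : ∀ s ∈ V j₀, x s ∈ A := fun s hs' => by
    by_cases h1 : s = s₀
    · rw [h1, hx]
      exact one_mem _
    · have h2 : q s ≠ p j₀ := fun h2 => one_ne_zero ((hq1 s h1).symm.trans (h2 ▸ hp0 j₀ s h1))
      have h3 := hA j₀ (q s) (hq s hs') fun _ => h2
      simp only [G] at h3
      rwa [if_neg h2, if_pos ⟨trivial, s, rfl⟩, monomial_add_single, map_mul, hx1, one_mul, pow_one,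
        eval_X] at h3
  have hm : ∀ m : σ →₀ ℕ, (∀ s ∈ m.support, s ∈ V j₀) → eval x (monomial m 1) ∈ A := fun m h1 => by
    rw [eval_monomial, one_mul]
    exact prod_mem fun s hs' => pow_mem (hx' s (h1 s hs')) _
  let φ : MvPolynomial σ L →ₗ[L] L := (aeval x).toLinearMap
  let ψ : σ → MvPolynomial σ L →ₗ[L] L := fun s => φ ∘ₗ (pderiv s).toLinearMap
  have hφ : ∀ f, φ f = eval x f := fun f => congrFun (coe_aeval_eq_eval x ▸ rfl) f
  have hψ : ∀ s f, ψ s f = eval x (pderiv s f) := fun s f => hφ _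
  have hψ' : ∀ s m, ψ s (monomial m 1) = m s * eval x (monomial (m - Finsupp.single s 1) 1) :=
    fun s m => by rw [hψ, pderiv_monomial, eval_monomial, eval_monomial, one_mul, one_mul]
  have hm0 : ∀ j m, coeff m (h j) ≠ 0 → φ (monomial m 1) ∈ A := fun j m h1 => by
    rw [hφ]
    exact hm m fun s hs' => hj j (hV j m h1 s hs')
  have hm1 : ∀ j m s, coeff m (h j) ≠ 0 → ψ s (monomial m 1) ∈ A := fun j m s h1 => by
    rw [hψ']
    exact mul_mem (natCast_mem _ _)
      (hm _ fun s hs' => hj j (hV j m h1 s (Finsupp.support_tsub hs')))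
  have hc1 : ∀ j m, coeff m (h j) ≠ 0 → m ≠ p j → ¬(j = j₀ ∧ ∃ s, m = q s) → coeff m (h j) ∈ A :=
    fun j m h1 h2 h3 => by
      have h4 := hA j m ⟨by_contra fun h5 => h1 ((hh j).coeff_eq_zero h5), hV j m h1⟩
        fun h5 => h5 ▸ h2
      simp only [G] at h4
      rwa [if_neg h2, if_neg h3] at h4
  have hc2 : ∀ j, (∀ m, coeff m (h j) ≠ 0 → m ≠ p j → coeff m (h j) ∈ A) →
      ∀ m, coeff m (h j) ∈ A := fun j h1 m => by
    by_cases h2 : m = p j
    · rw [h2]
      exact GLN2_solve A φ (h j) (p j) (by rw [hφ, h0]; exact zero_mem _) (by rw [hφ, hx1])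
        fun m h3 h4 => mul_mem (h1 m h3 h4) (hm0 j m h3)
    · by_cases h3 : coeff m (h j) = 0
      · rw [h3]
        exact zero_mem _
      · exact h1 m h3 h2
  have hc3 : ∀ j, j ≠ j₀ → ∀ m, coeff m (h j) ∈ A := fun j h1 =>
    hc2 j fun m h2 h3 => hc1 j m h2 h3 fun h4 => h1 h4.1
  have hc4 : ∀ s ∈ V j₀, s ≠ s₀ → coeff (q s) (h j₀) ∈ A := fun s hs' h1 => by
    refine GLN2_solve A (ψ s) (h j₀) (q s) ?_ ?_ fun m h2 h3 => ?_
    · have h2 := hd s hs'
      rw [← Finset.add_sum_erase _ _ (Finset.mem_univ j₀), hl, one_mul] at h2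
      rw [hψ, eq_neg_of_add_eq_zero_left h2]
      refine neg_mem (sum_mem fun j h3 => mul_mem (hl' j) ?_)
      rw [← hψ, GLN2_expand]
      exact sum_mem fun m h4 =>
        mul_mem (hc3 j (Finset.ne_of_mem_erase h3) m) (hm1 j m s (mem_support_iff.1 h4))
    · rw [hψ', hq1 s h1, add_tsub_cancel_right, hx1, Nat.cast_one, one_mul]
    · by_cases h4 : m s = 0
      · rw [hψ', h4, Nat.cast_zero, zero_mul, mul_zero]
        exact zero_mem _
      · refine mul_mem (hc1 j₀ m h2 (fun h5 => h4 (h5 ▸ hp0 j₀ s h1)) ?_) (hm1 j₀ m s h2)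
        rintro ⟨-, s', rfl⟩
        exact h4 (hq0 s s' h1 fun h5 => h3 (congrArg q h5))
  have hc5 : ∀ m, coeff m (h j₀) ∈ A := hc2 j₀ fun m h1 h2 => by
    by_cases h3 : ∃ s, m = q s
    · obtain ⟨s, rfl⟩ := h3
      have h4 : s ≠ s₀ := fun h4 => h2 (h4 ▸ hqp)
      exact hc4 s (hV j₀ _ h1 s (Finsupp.mem_support_iff.2 (hq1 s h4 ▸ one_ne_zero))) h4
    · exact hc1 j₀ m h1 h2 fun h4 => h3 h4.2
  have h1 := indep_card hi (fun i : {i : ι // i ≠ i₀} => G i.1.1.1 i.1.1.2) fun i => by
    by_cases h1 : i.1.1 = j₀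
    · rw [h1]
      exact hc5 _
    · exact hc3 _ h1 _
  exact h1.not_gt (Finite.card_subtype_lt (x := i₀) fun h2 => h2 rfl)

theorem gen_smooth (hx : x s₀ ≠ 0) : l j₀ = 0 := by
  by_contra hl
  refine gen_smooth_one he hh hV hi hj hs (x := (x s₀)⁻¹ • x)
    (l := fun j => (l j₀ * x s₀ ^ (e j₀ - 1))⁻¹ * (l j * x s₀ ^ (e j - 1))) (fun j => ?_)
    (fun s hs' => ?_) (inv_mul_cancel₀ hx) (inv_mul_cancel₀ (mul_ne_zero hl (pow_ne_zero _ hx)))
  · rw [eval_smul_hom (hh j), h0, mul_zero]
  · rw [← mul_zero (l j₀ * x s₀ ^ (e j₀ - 1))⁻¹, ← hd s hs', Finset.mul_sum]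
    refine Finset.sum_congr rfl fun j _ => ?_
    rw [eval_smul_hom (hh j).pderiv, inv_pow, mul_assoc, mul_assoc (l j),
      mul_inv_cancel_left₀ (pow_ne_zero _ hx)]

end Pool.Agent.Work.MP_10f4af_ag
end

-- merged part: Pool.Agent.Work.MP_10f4af_ag.GL.N3
section
/-!
# Triangular systems: regular sequences and elimination

Plan.  `rg_monic`: let `τ = {t // t ≠ s}` and `E : MvPolynomial σ R ≃ₐ[R] (MvPolynomial τ R)[X]`
(`renameEquiv` for `Equiv.optionSubtypeNe s`, then `optionEquivLeft`; `optionEquivLeft_coeff_coeff`).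
The elements of `T` go to constants (`exists_rename_eq_of_vars_subset_range`), so `span T` goes to
`I'.map Polynomial.C`, and `g` goes to a unit times a monic polynomial of degree `n`.  Reduce the
coefficients modulo `I'` (`Polynomial.ker_mapRingHom`, `Polynomial.Monic.map`,
`Polynomial.Monic.isRegular`).
`tri_ufd`: let `B₀ = MvPolynomial τ κ` for `τ = {s // ∀ j, a j ≠ s}`, `U = Localization.Away (X b)`,
and for `w : Fin r → U` let `ψ w` be the evaluation which sends `a j` to `w j` and the other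
variables to themselves.  `tri_sol`: by induction on `m` there is `w` which solves the equations
`j < m`; update `w` at `m`, the values of the `h j` for `j ≤ m` do not change (`hom_congr_vars`,
`aeval_eq_aeval_of_forall_mem_vars_eq`).  `tri_elim`: the `u` with the stated property form a
subalgebra which contains the variables (strong induction on `j` for `X (a j)`, with
`mem_supported`, `supported_eq_adjoin_X`).  For the kernel: if `ψ u = 0` then the image of `u'` in
`U` is zero, so `u' = 0`.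
-/

namespace Pool.Agent.Work.MP_10f4af_ag

open Ideal MvPolynomial

universe u

variable {σ : Type} {r : ℕ}

theorem rg_monic {R : Type u} [CommRing R] {T : Set (MvPolynomial σ R)} {s : σ}
    (hT : ∀ t ∈ T, s ∉ t.vars) {g : MvPolynomial σ R} {n : ℕ}
    (hc : IsUnit (coeff (Finsupp.single s n) g))
    (hd : ∀ m, coeff m g ≠ 0 → m = Finsupp.single s n ∨ m s < n) : Rg (span T) g := by
  classical
  obtain ⟨φ, hφ⟩ : ∃ φ : MvPolynomial σ R →ₐ[R] Polynomial (MvPolynomial σ R),
      ∀ t, φ (X t) = if t = s then Polynomial.X else Polynomial.C (X t) :=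
    ⟨aeval fun t => if t = s then Polynomial.X else Polynomial.C (X t), fun t => aeval_X _ t⟩
  have hC : ∀ x, φ (C x) = Polynomial.C (C x) := fun x => φ.commutes x
  have hs : φ (X s) = Polynomial.X := by rw [hφ, if_pos rfl]
  have hcon : ∀ t : MvPolynomial σ R, s ∉ t.vars → φ t = Polynomial.C t := fun t ht =>
    hom_congr_vars (f₁ := φ.toRingHom) (f₂ := Polynomial.C) (RingHom.ext hC)
      (fun i hi _ => (hφ i).trans (if_neg fun e : i = s => ht (e ▸ hi))) rfl
  have hev : ∀ u, Polynomial.evalRingHom (X s) (φ u) = u := fun u =>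
    RingHom.congr_fun (f := (Polynomial.evalRingHom (X s)).comp φ.toRingHom) (g := RingHom.id _)
      (ringHom_ext (fun x => by simp [hC]) fun t => by
        by_cases e : t = s <;> simp [hφ, e]) u
  have hmon : ∀ (m : σ →₀ ℕ) (x : R), (φ (monomial m x)).degree ≤ m s := by
    intro m x
    have e : monomial m x = monomial (m.erase s) x * X s ^ m s := by
      rw [← monomial_add_single, Finsupp.erase_add_single]
    rw [e, map_mul, map_pow, hs, hcon]
    · exact Polynomial.degree_C_mul_X_pow_le _ _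
    · intro h1
      obtain ⟨d, h2, h3⟩ := (mem_vars_iff_mem_support s).1 h1
      rw [Finset.mem_singleton.1 (support_monomial_subset h2)] at h3
      simp at h3
  obtain ⟨e, he⟩ := hc.exists_left_inv
  obtain ⟨g', hg'⟩ : ∃ g', g' = C e * g - X s ^ n := ⟨_, rfl⟩
  have hdeg : (φ g').degree < n := by
    rw [← Polynomial.mem_degreeLT, g'.as_sum, map_sum]
    refine Submodule.sum_mem _ fun m hm => Polynomial.mem_degreeLT.2 ((hmon m _).trans_lt ?_)
    have h1 := mem_support_iff.1 hm
    rw [hg', coeff_sub, coeff_C_mul, coeff_X_pow] at h1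
    by_cases h2 : Finsupp.single s n = m
    · rw [if_pos h2, ← h2, he, sub_self] at h1
      exact absurd rfl h1
    · rw [if_neg h2, sub_zero] at h1
      exact_mod_cast (hd m (right_ne_zero_of_mul h1)).resolve_left (Ne.symm h2)
  have hmo : (φ (C e * g)).Monic := by
    rw [show C e * g = X s ^ n + g' by rw [hg']; ring, map_add, map_pow, hs]
    exact Polynomial.monic_X_pow_add hdeg
  have hker : RingHom.ker (Polynomial.mapRingHom (Ideal.Quotient.mk (span T))) =
      (span T).map Polynomial.C := by rw [Polynomial.ker_mapRingHom, mk_ker]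
  intro u hu
  have h1 : φ (C e * g * u) ∈ (span T).map Polynomial.C := by
    have h2 : (span T).map φ.toRingHom ≤ (span T).map Polynomial.C := by
      rw [map_span, span_le]
      rintro _ ⟨t, ht, rfl⟩
      exact (hcon t (hT t ht)).symm ▸ mem_map_of_mem Polynomial.C (subset_span ht)
    exact h2 (mem_map_of_mem _ (by rw [mul_assoc]; exact mul_mem_left _ _ hu))
  rw [← hker, RingHom.mem_ker, map_mul φ, map_mul] at h1
  have h2 := (hmo.map (Ideal.Quotient.mk (span T))).mul_right_eq_zero_iff.1 h1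
  have h3 : φ u ∈ (span T).map Polynomial.C := by rw [← hker]; exact h2
  have h4 := mem_map_of_mem (Polynomial.evalRingHom (X s : MvPolynomial σ R)) h3
  rwa [hev, Ideal.map_map, show (Polynomial.evalRingHom (X s : MvPolynomial σ R)).comp
    Polynomial.C = RingHom.id _ from RingHom.ext fun _ => Polynomial.eval_C, Ideal.map_id] at h4

variable {κ : Type u} [Field κ] {a : Fin r → σ} (ha : Function.Injective a) {b : σ}
  (hb : ∀ j, a j ≠ b) {c : Fin r → κ} (hc : ∀ j, c j ≠ 0) (n : Fin r → ℕ)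
  {h : Fin r → MvPolynomial σ κ} (hh : ∀ j i, a i ∈ (h j).vars → i < j)
include ha hb hc hh

theorem tri_sol {U : Type u} [CommRing U] [Algebra κ U] (y : σ → U) (hy : IsUnit (y b)) :
    ∃ y' : σ → U, (∀ s, (∀ j, a j ≠ s) → y' s = y s) ∧
      ∀ j, aeval y' (C (c j) * X (a j) * X b ^ n j + h j) = 0 := by
  classical
  have key : ∀ m : ℕ, ∃ y' : σ → U, (∀ s, (∀ j, a j ≠ s) → y' s = y s) ∧
      ∀ j : Fin r, j.val < m → aeval y' (C (c j) * X (a j) * X b ^ n j + h j) = 0 := by
    intro m
    induction m with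
    | zero => exact ⟨y, fun _ _ => rfl, fun j hj => absurd hj (Nat.not_lt_zero _)⟩
    | succ m ih =>
      obtain ⟨y', h1, h2⟩ := ih
      by_cases hm : m < r
      · obtain ⟨j₀, hj₀⟩ : ∃ j₀ : Fin r, j₀.val = m := ⟨⟨m, hm⟩, rfl⟩
        obtain ⟨v, hv⟩ := (((Ne.isUnit (hc j₀)).map (algebraMap κ U)).mul
          (hy.pow (n j₀))).exists_right_inv
        obtain ⟨z, hz, hz'⟩ : ∃ z : σ → U, z (a j₀) = -(aeval y' (h j₀) * v) ∧
            ∀ s, a j₀ ≠ s → z s = y' s :=
          ⟨Function.update y' (a j₀) (-(aeval y' (h j₀) * v)), Function.update_self _ _ _,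
            fun s hs => Function.update_of_ne hs.symm _ _⟩
        have h3 : ∀ j, j ≤ j₀ → aeval z (h j) = aeval y' (h j) := fun j hj =>
          hom_congr_vars (f₁ := (aeval z : MvPolynomial σ κ →ₐ[κ] U).toRingHom)
            (f₂ := (aeval y' : MvPolynomial σ κ →ₐ[κ] U).toRingHom) (RingHom.ext fun x => by simp)
            (fun i hi _ => by
              simpa using hz' i fun e => absurd (hh j j₀ (e ▸ hi)) (not_lt.2 hj)) rfl
        refine ⟨z, fun s hs => (hz' s (hs j₀)).trans (h1 s hs), fun j hj => ?_⟩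
        by_cases e : j = j₀
        · subst e
          simp only [map_add, map_mul, map_pow, aeval_C, aeval_X]
          rw [h3 j le_rfl, hz, hz' b (hb j), h1 b hb]
          linear_combination (-(aeval y' (h j))) * hv
        · have h4 : j.val < m := by
            have : j.val ≠ j₀.val := fun e' => e (Fin.ext e')
            omega
          have h5 := h2 j h4
          simp only [map_add, map_mul, map_pow, aeval_C, aeval_X] at h5 ⊢
          rwa [h3 j (Fin.le_def.2 (by omega)), hz' b (hb j₀), hz' _ fun e' => e (ha e').symm]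
      · exact ⟨y', h1, fun j _ => h2 j (by have := j.isLt; omega)⟩
  obtain ⟨y', h1, h2⟩ := key r
  exact ⟨y', h1, fun j => h2 j j.isLt⟩

omit ha in
theorem tri_elim (u : MvPolynomial σ κ) : ∃ (m : ℕ) (u' : MvPolynomial {s // ∀ j, a j ≠ s} κ),
    X b ^ m * u - rename Subtype.val u' ∈
      span (Set.range fun j => C (c j) * X (a j) * X b ^ n j + h j) := by
  obtain ⟨I, hI⟩ : ∃ I, I = span (Set.range fun j => C (c j) * X (a j) * X b ^ n j + h j) :=
    ⟨_, rfl⟩
  rw [← hI]
  obtain ⟨S, hS⟩ : ∃ S : Subalgebra κ (MvPolynomial σ κ), ∀ u, u ∈ S ↔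
      ∃ (m : ℕ) (u' : MvPolynomial {s // ∀ j, a j ≠ s} κ),
        X b ^ m * u - rename Subtype.val u' ∈ I := by
    refine ⟨{ carrier := {u | ∃ (m : ℕ) (u' : MvPolynomial {s // ∀ j, a j ≠ s} κ),
                X b ^ m * u - rename Subtype.val u' ∈ I}
              mul_mem' := ?_, add_mem' := ?_, algebraMap_mem' := fun x => ⟨0, C x, by simp⟩ },
      fun _ => Iff.rfl⟩
    · rintro u v ⟨m, u', h1⟩ ⟨k, v', h2⟩
      refine ⟨m + k, u' * v', ?_⟩
      have := I.add_mem (I.mul_mem_left (X b ^ m * u) h2)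
        (I.mul_mem_left (rename Subtype.val v') h1)
      rw [map_mul]
      exact (congrArg (· ∈ I) (by ring)).mp this
    · rintro u v ⟨m, u', h1⟩ ⟨k, v', h2⟩
      refine ⟨m + k, X ⟨b, hb⟩ ^ k * u' + X ⟨b, hb⟩ ^ m * v', ?_⟩
      have := I.add_mem (I.mul_mem_left (X b ^ k) h1) (I.mul_mem_left (X b ^ m) h2)
      simp only [map_add, map_mul, map_pow, rename_X]
      exact (congrArg (· ∈ I) (by ring)).mp this
  have h1 : ∀ s, (∀ j, a j ≠ s) → X s ∈ S := fun s hs => (hS _).2 ⟨0, X ⟨s, hs⟩, by simp⟩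
  have h2 : ∀ (m : ℕ) (j : Fin r), j.val < m → X (a j) ∈ S := by
    intro m
    induction m with
    | zero => exact fun j hj => absurd hj (Nat.not_lt_zero _)
    | succ m ih =>
      intro j hj
      have h3 : h j ∈ S := by
        have h4 : supported κ ((h j).vars : Set σ) ≤ S := by
          rw [supported_eq_adjoin_X, Algebra.adjoin_le_iff]
          rintro _ ⟨s, hs, rfl⟩
          by_cases e : ∀ i, a i ≠ s
          · exact h1 s e
          · push Not at e
            obtain ⟨i, rfl⟩ := e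
            have := Fin.lt_def.1 (hh j i hs)
            exact ih i (by omega)
        exact h4 (mem_supported_vars _)
      obtain ⟨k, u', h5⟩ := (hS _).1 h3
      refine (hS _).2 ⟨k + n j, -(C (c j)⁻¹ * u'), ?_⟩
      have h6 : C (c j) * X (a j) * X b ^ n j + h j ∈ I := hI ▸ subset_span ⟨j, rfl⟩
      have h7 := I.mul_mem_left (C (c j)⁻¹) (I.sub_mem (I.mul_mem_left (X b ^ k) h6) h5)
      have h8 : (C (c j)⁻¹ * C (c j) : MvPolynomial σ κ) = 1 := by
        rw [← C_mul, inv_mul_cancel₀ (hc j), C_1]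
      simp only [map_neg, map_mul, rename_C]
      exact (congrArg (· ∈ I) (by linear_combination (X b ^ (k + n j) * X (a j)) * h8)).mp h7
  refine (hS u).1 ?_
  induction u using MvPolynomial.induction_on with
  | C x => exact S.algebraMap_mem x
  | add p q hp hq => exact S.add_mem hp hq
  | mul_X p s hp =>
    refine S.mul_mem hp ?_
    by_cases e : ∀ i, a i ≠ s
    · exact h1 s e
    · push Not at e
      obtain ⟨i, rfl⟩ := e
      exact h2 r i i.isLt

theorem tri_ufd : ∃ (U : Type u) (_ : CommRing U) (ψ : MvPolynomial σ κ →+* U),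
    UniqueFactorizationMonoid U ∧
      LocQ ψ (span (Set.range fun j => C (c j) * X (a j) * X b ^ n j + h j))
        (Submonoid.powers (X b)) := by
  classical
  let B₀ := MvPolynomial {s // ∀ j, a j ≠ s} κ
  let x : B₀ := X ⟨b, hb⟩
  let U := Localization.Away x
  have hx : IsUnit (algebraMap B₀ U x) := IsLocalization.Away.algebraMap_isUnit x
  obtain ⟨y, h1, h2⟩ := tri_sol ha hb hc n hh (U := U)
    (fun s => if h : ∀ j, a j ≠ s then algebraMap B₀ U (X ⟨s, h⟩) else 0)
    (by simp only [dif_pos hb]; exact hx)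
  have h3 : ∀ u' : B₀, aeval y (rename Subtype.val u') = algebraMap B₀ U u' := fun u' =>
    AlgHom.congr_fun (φ₁ := (aeval y).comp (rename Subtype.val))
      (φ₂ := IsScalarTower.toAlgHom κ B₀ U) (algHom_ext fun s => by
        simp only [AlgHom.comp_apply, rename_X, aeval_X, h1 s.1 s.2, dif_pos s.2]
        rfl) u'
  have h4 : aeval y (X b : MvPolynomial σ κ) = algebraMap B₀ U x := by
    rw [← h3, rename_X]
  have h5 : ∀ u ∈ span (Set.range fun j => C (c j) * X (a j) * X b ^ n j + h j),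
      aeval y u = 0 := fun u hu =>
    (span_le (I := RingHom.ker (aeval y : MvPolynomial σ κ →ₐ[κ] U))).2
      (by rintro _ ⟨j, rfl⟩; exact h2 j) hu
  have h6 : ∀ m : ℕ, IsUnit (aeval y (X b ^ m : MvPolynomial σ κ)) := fun m => by
    rw [map_pow, h4]; exact hx.pow m
  refine ⟨U, inferInstance, (aeval y : MvPolynomial σ κ →ₐ[κ] U).toRingHom, inferInstance,
    ?_, fun z => ?_, fun u => ⟨fun hu => ?_, ?_⟩⟩
  · rintro _ ⟨m, rfl⟩
    exact h6 m
  · obtain ⟨⟨u', _, m, rfl⟩, e⟩ := IsLocalization.surj (Submonoid.powers x) z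
    refine ⟨rename Subtype.val u', X b ^ m, ⟨m, rfl⟩, ?_⟩
    change z * aeval y (X b ^ m : MvPolynomial σ κ) = aeval y (rename Subtype.val u')
    rw [map_pow, h4, h3, ← map_pow]
    exact e
  · obtain ⟨m, u', h7⟩ := tri_elim hb hc n hh u
    have h8 := h5 _ h7
    have hu' : aeval y u = 0 := hu
    rw [map_sub, map_mul, hu', mul_zero, zero_sub, neg_eq_zero, h3] at h8
    have h9 : u' = 0 := IsLocalization.injective U (M := Submonoid.powers x)
      (powers_le_nonZeroDivisors_of_noZeroDivisors (X_ne_zero _)) (h8.trans (map_zero _).symm)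
    rw [h9, map_zero, sub_zero] at h7
    exact ⟨_, ⟨m, rfl⟩, h7⟩
  · rintro ⟨_, ⟨m, rfl⟩, h7⟩
    have h8 := h5 _ h7
    rw [map_mul] at h8
    exact (h6 m).mul_right_eq_zero.1 h8

end Pool.Agent.Work.MP_10f4af_ag
end

-- merged part: Pool.Agent.Work.MP_10f4af_ag.GL.N4
section
/-!
# The special fibre

The variables are `b = v (inl 0)`, `z₁, z₂, z₃ = v (inl 1), v (inl 2), v (inl 3)` and
`a j = v (inr j)`.  The equations are `f j = c j * a j * b ^ (e j - 1) + h j`, where `h j = 0` if
`e j = 1`, and otherwise `h j` is a generic form in the variables `TV v e j`.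

Plan.  `Tri.dec`: `c j` is the coefficient of `m₀ = single (a j) 1 + single b (e j - 1)`, which is
not zero (`AlgebraicIndependent.ne_zero`), and `h j = f j - monomial m₀ (c j)`; the support of `m₀`
contains `a j ∉ TV v e j`.
`Tri.reg`: `RSq_append`, `RSq_ofFn`, `rg_monic`, `Rg.congr`.  Modulo `X b` replace `f j` by
`h' j = h j` if `2 ≤ e j`, and by `h' j = C (c j) * X (a j)` if `e j = 1`.  The ideal before step
`j` is spanned by `X b`, `X z₁`, `X z₂` and the `h' i` with `i < j`.  The variable for `rg_monic` is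
`a j` if `e j = 1`; otherwise it is `a i₀` for the largest `i₀ < j` with `2 ≤ e i₀`, or `z₃` if there
is none (`exists_piv`).  A monomial of degree `n` different from `single s n` has `m s < n`
(`Finsupp.le_degree`); `mem_vars`.
`Tri.pt`: suppose `l j ≠ 0` for some `j` with `2 ≤ e j`, and take the largest one `j₀`.  Apply
`gen_smooth` to the family `map _ (h j)` indexed by `{j // 2 ≤ e j ∧ j ≤ j₀}`
(`AlgebraicIndependent.comp`, `AlgebraicIndependent.map'`, `aeval_def`, `eval_map`, `pderiv_map`,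
`Finset.sum_subtype`).  Then for `e j = 1` use `s = a j`.
`Tri.spc`: `smo_of_indep` with `x s` the class of `X s` in the residue field `L` of `q` (the map to
`L` is `aeval x`, `MvPolynomial.algHom_ext`).  For `smT` use `Tri.pt` and then `s = b`.  For `smA`
with `X b ∉ q` take the largest `j` with `l j ≠ 0` and `s = a j`
(`pderiv_eq_zero_of_notMem_vars`); with `X b ∈ q` use `Tri.pt`.  `tri_ufd`.
-/

namespace Pool.Agent.Work.MP_10f4af_ag

open Ideal MvPolynomial Sum

universe u

variable {σ : Type} {r : ℕ} (v : Fin 4 ⊕ Fin r ↪ σ) (e : Fin r → ℕ)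

/-- The variables of the `j`-th generic form. -/
def TV (j : Fin r) : Set σ := {s | s ≠ v (inl 0) ∧ ∀ i, s = v (inr i) → i < j ∧ 2 ≤ e i}

/-- The monomials of the `j`-th equation. -/
def TA (j : Fin r) (m : σ →₀ ℕ) : Prop :=
  m = Finsupp.single (v (inr j)) 1 + Finsupp.single (v (inl 0)) (e j - 1) ∨
    (2 ≤ e j ∧ ∀ s ∈ m.support, s ∈ TV v e j)

theorem not_TA {j : Fin r} (h : 0 < e j) : ¬ TA v e j (Finsupp.single (v (inl 0)) (e j)) := by
  rintro (k | ⟨-, k⟩)
  · have := DFunLike.congr_fun k (v (inr j))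
    have hne : v (inr j) ≠ v (inl 0) := fun k => absurd (v.injective k) inr_ne_inl
    simp [Finsupp.single_eq_of_ne hne] at this
  · exact (k _ (Finsupp.mem_support_iff.2 (by simpa using h.ne'))).1 rfl

theorem exists_piv (j : Fin r) : ∃ s ∈ TV v e j, s ≠ v (inl 1) ∧ s ≠ v (inl 2) ∧
    ∀ i < j, (2 ≤ e i → s ∉ TV v e i) ∧ (¬ 2 ≤ e i → s ≠ v (inr i)) := by
  classical
  by_cases hn : (Finset.univ.filter fun i => i < j ∧ 2 ≤ e i).Nonempty
  · obtain ⟨i₀, h1, h2⟩ := Finset.exists_max_image _ id hn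
    replace h1 := (Finset.mem_filter.1 h1).2
    refine ⟨v (inr i₀), ⟨by simp, fun i hi => ?_⟩, by simp, by simp, fun i hi =>
      ⟨fun k k' => ?_, fun k k' => ?_⟩⟩
    · rw [← inr_injective (v.injective hi)]
      exact h1
    · exact absurd (k'.2 i₀ rfl).1
        (not_lt.2 (h2 i (Finset.mem_filter.2 ⟨Finset.mem_univ _, hi, k⟩)))
    · exact k (inr_injective (v.injective k') ▸ h1.2)
  · exact ⟨v (inl 3), ⟨by simp, fun i hi => by simp at hi⟩, by simp, by simp, fun i hi =>
      ⟨fun k => absurd ⟨i, Finset.mem_filter.2 ⟨Finset.mem_univ _, hi, k⟩⟩ hn, fun _ => by simp⟩⟩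

theorem GLN4_deg {m : σ →₀ ℕ} {n : ℕ} (h : m.degree = n) (s : σ) :
    m = Finsupp.single s n ∨ m s < n := by
  by_cases k : m s < n
  · exact Or.inr k
  obtain ⟨m', rfl⟩ := exists_add_of_le (Finsupp.single_le_iff.2 (not_lt.1 k))
  rw [map_add, Finsupp.degree_single, add_eq_left, Finsupp.degree_eq_zero_iff] at h
  exact Or.inl (by rw [h, add_zero])

theorem GLN4_rgX {κ : Type u} [Field κ] {T : Set (MvPolynomial σ κ)} {s : σ}
    (hT : ∀ t ∈ T, s ∉ t.vars) {c : κ} (hc : c ≠ 0) : Rg (span T) (C c * X s) := by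
  classical
  refine rg_monic (n := 1) hT ?_ fun m hm => Or.inl ?_
  · rw [coeff_C_mul, coeff_X_same, mul_one]
    exact hc.isUnit
  · rw [coeff_C_mul, coeff_X] at hm
    by_contra k
    rw [if_neg (Ne.symm k), mul_zero] at hm
    exact hm rfl

theorem GLN4_vars {κ : Type u} [Field κ] {g : MvPolynomial σ κ} {P : Prop} {V : Set σ}
    (h : ∀ m, coeff m g ≠ 0 → P ∧ ∀ s ∈ m.support, s ∈ V) {s : σ} (hs : s ∈ g.vars) : s ∈ V := by
  obtain ⟨m, h1, h2⟩ := (mem_vars_iff_mem_support s).1 hs
  exact (h m (mem_support_iff.1 h1)).2 s h2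

theorem GLN4_zero {κ : Type u} [Field κ] {g : MvPolynomial σ κ} {P : Prop} {Q : (σ →₀ ℕ) → Prop}
    (h : ∀ m, coeff m g ≠ 0 → P ∧ Q m) (hP : ¬ P) : g = 0 :=
  MvPolynomial.ext _ _ fun m => by
    by_contra k
    exact hP (h m k).1

theorem GLN4_pd {κ : Type u} [Field κ] {a b s : σ} (hs : s ≠ b) (c : κ) (n : ℕ) :
    pderiv s (C c * X a * X b ^ n) = C c * pderiv s (X a) * X b ^ n := by
  rw [pderiv_mul, pderiv_C_mul, pderiv_pow, pderiv_X_of_ne hs.symm, mul_zero, mul_zero, add_zero]

theorem GLN4_ev {κ : Type u} [Field κ] (q : Ideal (MvPolynomial σ κ)) [q.IsPrime]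
    (g : MvPolynomial σ κ) : algebraMap (MvPolynomial σ κ) q.ResidueField g =
      aeval (fun s => algebraMap (MvPolynomial σ κ) q.ResidueField (X s)) g :=
  DFunLike.congr_fun (MvPolynomial.algHom_ext
    (f := IsScalarTower.toAlgHom κ (MvPolynomial σ κ) q.ResidueField)
    (g := aeval fun s => algebraMap (MvPolynomial σ κ) q.ResidueField (X s))
    fun s => by simp) g

variable (F : Type u) [Field F] {κ : Type u} [Field κ] [Algebra F κ]

/-- A generic triangular system. -/
structure Tri (f : Fin r → MvPolynomial σ κ) : Prop where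
  pos : ∀ j, 0 < e j
  hom : ∀ j, (f j).IsHomogeneous (e j)
  sup : ∀ j m, coeff m (f j) ≠ 0 → TA v e j m
  ind : AlgebraicIndependent F fun p : {p : Fin r × (σ →₀ ℕ) //
    p.2.degree = e p.1 ∧ TA v e p.1 p.2} => coeff p.1.2 (f p.1.1)

variable {v e F} {f : Fin r → MvPolynomial σ κ} (H : Tri v e F f)
include H

theorem Tri.dec : ∃ (c : Fin r → κ) (h : Fin r → MvPolynomial σ κ), (∀ j, c j ≠ 0) ∧
    (∀ j, f j = C (c j) * X (v (inr j)) * X (v (inl 0)) ^ (e j - 1) + h j) ∧
    (∀ j, (h j).IsHomogeneous (e j)) ∧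
    (∀ j m, coeff m (h j) ≠ 0 → 2 ≤ e j ∧ ∀ s ∈ m.support, s ∈ TV v e j) ∧
    ∀ j m, (∀ s ∈ m.support, s ∈ TV v e j) → coeff m (h j) = coeff m (f j) := by
  classical
  obtain ⟨m₀, hm⟩ : ∃ m₀ : Fin r → σ →₀ ℕ, ∀ j,
    m₀ j = Finsupp.single (v (inr j)) 1 + Finsupp.single (v (inl 0)) (e j - 1) := ⟨_, fun _ => rfl⟩
  have hd : ∀ j, (m₀ j).degree = e j := fun j => by
    have := H.pos j
    rw [hm, map_add, Finsupp.degree_single, Finsupp.degree_single]
    omega
  refine ⟨fun j => coeff (m₀ j) (f j), fun j => f j - monomial (m₀ j) (coeff (m₀ j) (f j)),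
    fun j => H.ind.ne_zero ⟨(j, m₀ j), hd j, Or.inl (hm j)⟩, fun j => ?_,
    fun j => (H.hom j).sub (isHomogeneous_monomial _ (hd j)), fun j m h => ?_, fun j m h => ?_⟩
  · rw [C_mul_X_eq_monomial, ← monomial_add_single, ← hm, add_sub_cancel]
  · rw [coeff_sub, coeff_monomial] at h
    split_ifs at h with k
    · exact absurd (by rw [k, sub_self]) h
    · rw [sub_zero] at h
      exact (H.sup j m h).resolve_left fun k' => k ((hm j).trans k'.symm)
  · rw [coeff_sub, coeff_monomial, if_neg, sub_zero]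
    rintro rfl
    refine lt_irrefl j ((h (v (inr j)) (Finsupp.mem_support_iff.2 ?_)).2 j rfl).1
    rw [hm]
    simp

theorem Tri.reg : RSq ⊥ ([X (v (inl 0)), X (v (inl 1)), X (v (inl 2))] ++ List.ofFn f) := by
  obtain ⟨c, h, hc, hf, hh, hs, he⟩ := H.dec
  have hX : ∀ {T : Set (MvPolynomial σ κ)} {s : σ}, (∀ t ∈ T, s ∉ t.vars) → Rg (span T) (X s) :=
    fun hT => by simpa using GLN4_rgX hT one_ne_zero
  refine RSq_append.2 ⟨⟨?_, ?_, ?_, trivial⟩, RSq_ofFn.2 fun j => ?_⟩
  · rw [← span_empty]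
    exact hX fun _ k => k.elim
  · rw [bot_sup_eq]
    refine hX ?_
    rintro _ rfl
    simp [vars_X]
  · rw [bot_sup_eq, ← span_union]
    refine hX ?_
    rintro _ (rfl | rfl) <;> simp [vars_X]
  obtain ⟨h', hh'⟩ : ∃ h' : Fin r → MvPolynomial σ κ, ∀ i,
    h' i = if 2 ≤ e i then h i else C (c i) * X (v (inr i)) := ⟨_, fun _ => rfl⟩
  have h1 : ∀ i, X (v (inl 0)) ∣ f i - h' i := fun i => by
    rw [hh', hf i]
    split_ifs with k
    · rw [add_sub_cancel_right]
      exact (dvd_pow_self _ (by omega)).mul_left _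
    · rw [GLN4_zero (hs i) k, show e i - 1 = 0 by omega]
      simp
  obtain ⟨T, hT⟩ : ∃ T : Set (MvPolynomial σ κ), T =
    {x | x ∈ [X (v (inl 0)), X (v (inl 1)), X (v (inl 2))]} ∪ h' '' {i | i < j} := ⟨_, rfl⟩
  have hb : ∀ (T' : Set (MvPolynomial σ κ)) i, f i - h' i ∈
      span ({x | x ∈ [X (v (inl 0)), X (v (inl 1)), X (v (inl 2))]} ∪ T') := fun T' i =>
    mem_of_dvd _ (h1 i) (subset_span (Or.inl List.mem_cons_self))
  have h2 : ⊥ ⊔ Ideal.ofList [X (v (inl 0)), X (v (inl 1)), X (v (inl 2))] ⊔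
      span (f '' {i | i < j}) = span T := by
    rw [bot_sup_eq, ← span_union, hT]
    refine le_antisymm (span_le.2 ?_) (span_le.2 ?_)
    · rintro x (k | ⟨i, hi, rfl⟩)
      · exact subset_span (Or.inl k)
      · have := Ideal.add_mem _ (hb _ i) (subset_span (Or.inr ⟨i, hi, rfl⟩ : h' i ∈ _ ∪ h' '' _))
        rwa [sub_add_cancel] at this
    · rintro x (k | ⟨i, hi, rfl⟩)
      · exact subset_span (Or.inl k)
      · rw [← sub_sub_cancel (f i) (h' i)]
        exact Ideal.sub_mem _ (subset_span (Or.inr ⟨i, hi, rfl⟩)) (hb _ i)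
  have h3 : ∀ s, s ≠ v (inl 0) → s ≠ v (inl 1) → s ≠ v (inl 2) →
      (∀ i < j, (2 ≤ e i → s ∉ TV v e i) ∧ (¬ 2 ≤ e i → s ≠ v (inr i))) →
      ∀ t ∈ T, s ∉ t.vars := by
    intro s s0 s1 s2 s3 t ht
    rw [hT] at ht
    rcases ht with k | ⟨i, hi, rfl⟩
    · simp only [List.mem_cons, List.not_mem_nil, or_false, Set.mem_ofPred_eq] at k
      rcases k with rfl | rfl | rfl <;> rwa [vars_X, Finset.mem_singleton]
    · rw [hh']
      split_ifs with k
      · exact fun k' => (s3 i hi).1 k (GLN4_vars (hs i) k')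
      · rw [vars_C_mul _ (hc i), vars_X, Finset.mem_singleton]
        exact (s3 i hi).2 k
  rw [h2]
  refine Rg.congr (x := h' j) ?_ (by rw [← neg_sub, hT]; exact neg_mem (hb _ j))
  rw [hh']
  split_ifs with k
  · obtain ⟨s, s0, s1, s2, s3⟩ := exists_piv v e j
    have h4 : ∀ t ∈ (Finsupp.single s (e j)).support, t ∈ TV v e j := fun t ht => by
      rwa [Finset.mem_singleton.1 (Finsupp.support_single_subset ht)]
    refine rg_monic (n := e j) (h3 s s0.1 s1 s2 s3) ?_ fun m hm => GLN4_deg ?_ s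
    · rw [he j _ h4]
      exact (H.ind.ne_zero ⟨(j, Finsupp.single s (e j)), Finsupp.degree_single _ _,
        Or.inr ⟨k, h4⟩⟩).isUnit
    · by_contra k'
      exact hm ((hh j).coeff_eq_zero k')
  · refine GLN4_rgX (h3 _ (by simp) (by simp) (by simp) fun i hi =>
      ⟨fun _ k' => k (k'.2 j rfl).2, fun _ k' => ?_⟩) (hc j)
    exact hi.ne' (inr_injective (v.injective k'))

theorem Tri.pt [Finite σ] {L : Type u} [Field L] [Algebra κ L] {x : σ → L}
    (hb : x (v (inl 0)) = 0) (hz : x (v (inl 1)) ≠ 0 ∨ x (v (inl 2)) ≠ 0)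
    (h0 : ∀ j, aeval x (f j) = 0) {l : Fin r → L}
    (hd : ∀ s ≠ v (inl 0), ∑ j, l j * aeval x (pderiv s (f j)) = 0) : l = 0 := by
  classical
  obtain ⟨c, h, hc, hf, hh, hs, he⟩ := H.dec
  let _ : Algebra F L := ((algebraMap κ L).comp (algebraMap F κ)).toAlgebra
  have _ : IsScalarTower F κ L := IsScalarTower.of_algebraMap_eq' rfl
  have h1 : ∀ j, 2 ≤ e j → ∀ s ≠ v (inl 0),
      aeval x (pderiv s (f j)) = aeval x (pderiv s (h j)) := fun j k s hs0 => by
    rw [hf j, map_add, GLN4_pd hs0, map_add, map_mul, map_pow, aeval_X, hb,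
      zero_pow (by omega), mul_zero, zero_add]
  have h2 : ∀ j, ¬ 2 ≤ e j → f j = C (c j) * X (v (inr j)) := fun j k => by
    rw [hf j, GLN4_zero (hs j) k, show e j - 1 = 0 by omega, pow_zero, mul_one, add_zero]
  have h3 : ∀ j, 2 ≤ e j → l j = 0 := by
    by_contra hn
    push Not at hn
    obtain ⟨j₀, k1, k2⟩ := Finset.exists_max_image
      (Finset.univ.filter fun j => 2 ≤ e j ∧ l j ≠ 0) id
      (hn.imp fun j k => Finset.mem_filter.2 ⟨Finset.mem_univ _, k⟩)
    replace k1 := (Finset.mem_filter.1 k1).2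
    obtain ⟨s₀, k3, k4⟩ : ∃ s₀, (∀ j, s₀ ∈ TV v e j) ∧ x s₀ ≠ 0 := by
      rcases hz with k | k
      · exact ⟨_, fun j => ⟨by simp, fun i hi => by simp at hi⟩, k⟩
      · exact ⟨_, fun j => ⟨by simp, fun i hi => by simp at hi⟩, k⟩
    refine k1.2 (gen_smooth (F := F) (J := {j // 2 ≤ e j ∧ j ≤ j₀}) (V := fun j => TV v e j.1)
      (e := fun j => e j.1) (h := fun j => map (algebraMap κ L) (h j.1)) (fun j => H.pos j.1)
      (fun j => (hh j.1).map _) (fun j m hm => (hs j.1 m fun k => hm ?_).2) ?_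
      (j₀ := ⟨j₀, k1.1, le_rfl⟩)
      (fun j s k => ⟨k.1, fun i hi => ⟨(k.2 i hi).1.trans_le j.2.2, (k.2 i hi).2⟩⟩)
      (fun j => k3 j.1) (l := fun j => l j.1) (fun j => ?_) (fun s hs0 => ?_) k4)
    · rw [coeff_map, k, map_zero]
    · have := (H.ind.comp (fun p : {p : {j // 2 ≤ e j ∧ j ≤ j₀} × (σ →₀ ℕ) //
          p.2.degree = e p.1.1 ∧ ∀ s ∈ p.2.support, s ∈ TV v e p.1.1} =>
          ⟨(p.1.1.1, p.1.2), p.2.1, Or.inr ⟨p.1.1.2.1, p.2.2⟩⟩) ?_).map'
          (f := IsScalarTower.toAlgHom F κ L) (algebraMap κ L).injective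
      · convert this using 2 with p
        rw [coeff_map, he _ _ p.2.2]
        rfl
      · intro p q k
        have k' := Prod.ext_iff.1 (congrArg Subtype.val k)
        exact Subtype.ext (Prod.ext (Subtype.ext k'.1) k'.2)
    · have := h0 j.1
      rw [hf j.1, map_add, map_mul, map_pow, aeval_X, hb, zero_pow (by have := j.2.1; omega),
        mul_zero, zero_add] at this
      rw [eval_map, ← aeval_def, this]
    · rw [← hd s hs0.1, ← Finset.sum_subset (Finset.filter_subset (fun j => 2 ≤ e j ∧ j ≤ j₀) _),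
        Finset.sum_subtype (p := fun j => 2 ≤ e j ∧ j ≤ j₀) _ (by simp)]
      · exact Finset.sum_congr rfl fun j _ => by
          rw [pderiv_map, eval_map, ← aeval_def, h1 j.1 j.2.1 s hs0.1]
      · intro j _ hj
        by_cases k : 2 ≤ e j
        · by_cases k' : l j = 0
          · rw [k', zero_mul]
          · exact absurd (Finset.mem_filter.2 ⟨Finset.mem_univ _, k,
              k2 j (Finset.mem_filter.2 ⟨Finset.mem_univ _, k, k'⟩)⟩) hj
        · rw [h2 j k, pderiv_C_mul, pderiv_X_of_ne fun k' => k (hs0.2 j k'.symm).2, mul_zero,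
            map_zero, mul_zero]
  funext j
  by_cases k : 2 ≤ e j
  · exact h3 j k
  have := hd (v (inr j)) (by simp)
  rw [Finset.sum_eq_single j, h2 j k, pderiv_C_mul, pderiv_X_self, mul_one, aeval_C] at this
  · exact (mul_eq_zero.1 this).resolve_right ((map_ne_zero _).2 (hc j))
  · intro i _ hi
    by_cases k' : 2 ≤ e i
    · rw [h3 i k', zero_mul]
    · rw [h2 i k', pderiv_C_mul, pderiv_X_of_ne (by simpa using hi), mul_zero, map_zero, mul_zero]
  · exact fun k' => absurd (Finset.mem_univ j) k'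

theorem Tri.spc [Fintype σ] : Spc f (v (inl 0)) (v (inl 1)) (v (inl 2)) := by
  classical
  obtain ⟨c, h, hc, hf, hh, hs, he⟩ := H.dec
  have hv : ∀ j i, v (inr i) ∈ (h j).vars → i < j := fun j i k =>
    ((GLN4_vars (hs j) k).2 i rfl).1
  have key : ∀ (q : Ideal (MvPolynomial σ κ)) [q.IsPrime], X (v (inl 0)) ∈ q → (∀ j, f j ∈ q) →
      X (v (inl 1)) ∉ q ∨ X (v (inl 2)) ∉ q → ∀ l : Fin r → q.ResidueField,
      (∀ s ≠ v (inl 0), ∑ j, l j * algebraMap (MvPolynomial σ κ) q.ResidueField
        (pderiv s (f j)) = 0) → l = 0 := by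
    intro q _ hb h0 hz l hl
    refine H.pt (x := fun s => algebraMap (MvPolynomial σ κ) q.ResidueField (X s))
      (algebraMap_residueField_eq_zero.2 hb)
      (hz.imp (mt algebraMap_residueField_eq_zero.1) (mt algebraMap_residueField_eq_zero.1))
      (fun j => ?_) fun s k => ?_
    · rw [← GLN4_ev]
      exact algebraMap_residueField_eq_zero.2 (h0 j)
    · simp only [← GLN4_ev]
      exact hl s k
  refine ⟨fun j => ?_, H.reg, fun q _ hb h0 hz => smo_of_indep fun l hl => ?_,
    fun q _ h0 hz => smo_of_indep fun l hl => ?_, ?_⟩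
  · rw [constantCoeff_eq]
    exact (H.hom j).coeff_eq_zero (by rw [map_zero]; exact (H.pos j).ne)
  · have h1 : (fun j => l (some j)) = 0 := key q hb h0 hz _ fun s k => by
      simpa [Fintype.sum_option, pderiv_X_of_ne k.symm] using hl s
    have h2 : ∀ j, l (some j) = 0 := congrFun h1
    funext o
    cases o with
    | none => simpa [Fintype.sum_option, h2] using hl (v (inl 0))
    | some j => exact h2 j
  · by_cases hb : X (v (inl 0)) ∈ q
    · exact key q hb h0 (hz.resolve_left (not_not.2 hb)) l fun s _ => hl s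
    by_contra hn
    obtain ⟨j, k1, k2⟩ := Finset.exists_max_image (Finset.univ.filter fun j => l j ≠ 0) id
      ((Function.ne_iff.1 hn).imp fun j k => Finset.mem_filter.2 ⟨Finset.mem_univ _, k⟩)
    have h1 : ∀ i ≤ j, pderiv (v (inr j)) (f i) =
        C (c i) * pderiv (v (inr j)) (X (v (inr i))) * X (v (inl 0)) ^ (e i - 1) := fun i hi => by
      rw [hf i, map_add, GLN4_pd (by simp),
        pderiv_eq_zero_of_notMem_vars fun k => (hv i j k).not_ge hi, add_zero]
    have := hl (v (inr j))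
    rw [Finset.sum_eq_single j, h1 j le_rfl, pderiv_X_self, mul_one, mul_eq_zero,
      algebraMap_residueField_eq_zero] at this
    · rcases this with k | k
      · exact (Finset.mem_filter.1 k1).2 k
      · rcases ‹q.IsPrime›.mem_or_mem k with k | k
        · exact ‹q.IsPrime›.ne_top (q.eq_top_of_isUnit_mem k ((hc j).isUnit.map C))
        · exact hb (‹q.IsPrime›.mem_of_pow_mem _ k)
    · intro i _ hi
      by_cases k : l i = 0
      · rw [k, zero_mul]
      · rw [h1 i (k2 i (Finset.mem_filter.2 ⟨Finset.mem_univ _, k⟩)),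
          pderiv_X_of_ne (by simpa using hi), mul_zero, zero_mul, map_zero, mul_zero]
    · exact fun k' => absurd (Finset.mem_univ j) k'
  · rw [funext hf]
    exact tri_ufd (a := fun j => v (inr j)) (v.injective.comp inr_injective) (fun j => by simp) hc
      (fun j => e j - 1) hv

end Pool.Agent.Work.MP_10f4af_ag
end

-- merged part: Pool.Agent.Work.MP_10f4af_ag.GL.Q1
section
/-!
# Prime divisors on a very general complete intersection are hypersurface sections

Plan.  `cst_idl`: `idl_hmg`, `cpt 0 f = C (constantCoeff f)`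
(`weightedHomogeneousComponent_zero`), `van_idl` at a point of `T`.
`idl_le_of_prime`: a minimal prime `q ≤ p` over `span (range f)` (`Ideal.exists_minimalPrimes_le`)
is homogeneous (`Hmg.span`, `Hmg_min`) and relevant (`rel_idl`, `Rel.anti`), so `q = idl T`
(`exists_idl`) with `T ⊆ Z.pts`; `idl_anti`.
`div_of_core`: apply `core` to `p = (idl D).comap (map (algebraMap O k))`,
`T = {G | G ∈ p ∧ ∃ a, IsForm (map _ G) a}` and `g₁ = G i` for an index `i` such that `g i` does not
vanish on `Z` (otherwise `Z ⊆ D` by `Cuts.mem`, against `SV.sdim_tp`, `sdim_mono`).  `T` spans `p`: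
a polynomial is the sum of its weighted homogeneous components
(`sum_weightedHomogeneousComponent`), which commute with `map` (compare coefficients).
Minimality: `going_down`, `idl_le_of_prime`, `min_form`.  At the end, for `x ∈ Z.pts` with
`ev x (map _ g) = 0` the product `map _ s * map _ (G i)` lies in the prime `idl ({x} : Sub k P)`,
and `map _ s` does not (`cst_idl`); `Cuts.mem`.
`wt_iff`, `form_iff`: `Finsupp.weight_apply`, `Finsupp.degree_eq_weight_one`, evaluate at `default`.
`div_cut`: `exists_base`, `exists_cuts`, an embedding `v : Fin 4 ⊕ Fin r ↪ P.V`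
(`Function.Embedding.nonempty_of_card_le`), `e j = a j default`, and `exists_spec` for
`Al p = TA v e p.1 p.2.1`, `i₀ = ⟨j, single (v (inl 0)) (e j)⟩` (`not_TA`) and the image of `g`.
Put `f' j = ∑ m : Mon (a j), monomial m.1 (c' ⟨j, m⟩)`; `form_eq`, `Tri.spc`, `div_of_core`.
-/

open MvPolynomial Topology TopologicalSpace

namespace Pool.Agent.Work.MP_10f4af_ag

open MP_ffcd14_ag hiding len vl cyc pl Weil idl_hmg mem_idl idl_prime idl_le_iff lin
open IsLocalRing

universe u

variable {k : Type u} [Field k] {P : Amb} {r : ℕ}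

theorem cst_idl (T : Sub k P) {f : MvPolynomial P.V k} (hf : f ∈ idl (T : Set (P.Pt k))) :
    constantCoeff f = 0 := by
  obtain ⟨x, hx⟩ := T.isIrreducible.nonempty
  have h1 := van_idl (idl_hmg _ f hf 0) x hx
  rw [cpt, weightedHomogeneousComponent_zero _ fun s => by simp, ev_eq, eval_C] at h1
  exact h1

theorem wt_iff [Unique P.ι] {m : P.V →₀ ℕ} {a : P.ι →₀ ℕ} :
    Finsupp.weight (fun s : P.V => Finsupp.single s.1 1) m = a ↔ m.degree = a default := by
  have e : (Finsupp.weight (fun s : P.V => (Finsupp.single s.1 1 : P.ι →₀ ℕ)) m) default =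
      m.degree := by
    rw [Finsupp.weight_apply, Finsupp.sum, Finsupp.finsetSum_apply, Finsupp.degree_apply]
    refine Finset.sum_congr rfl fun s _ => ?_
    rw [Unique.eq_default s.1]
    simp
  exact ⟨fun h => by rw [← e, h], fun h => Finsupp.unique_ext (e.trans h)⟩

theorem form_iff [Unique P.ι] {f : MvPolynomial P.V k} {a : P.ι →₀ ℕ} :
    IsForm f a ↔ f.IsHomogeneous (a default) := by
  refine forall_congr' fun d => imp_congr_right fun _ => ?_
  rw [wt_iff, Finsupp.degree_eq_weight_one]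
  rfl

variable [IsAlgClosed k] {Z : SV k P} {D : Sub k P}

theorem idl_le_of_prime {f : Fin r → MvPolynomial P.V k} (hf : ∀ j, ∃ a, IsForm (f j) a)
    (h : ∀ x, x ∈ Z.pts ↔ ∀ j, ev x (f j) = 0) {p : Ideal (MvPolynomial P.V k)} [p.IsPrime]
    (h1 : ∀ j, f j ∈ p) (h2 : p ≤ idl (D : Set (P.Pt k))) : idl Z.pts ≤ p := by
  have h3 : Ideal.span (Set.range f) ≤ p := Ideal.span_le.2 (Set.range_subset_iff.2 h1)
  obtain ⟨q, hq, hqp⟩ := Ideal.exists_minimalPrimes_le h3
  have : q.IsPrime := hq.1.1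
  obtain ⟨T, rfl⟩ := exists_idl
    (Hmg_min (Hmg.span (by rintro _ ⟨j, rfl⟩; exact hf j)) hq) ((rel_idl D).anti (hqp.trans h2))
  refine (idl_anti fun x hx => (h x).2 fun j => ?_).trans hqp
  exact van_idl (hq.1.2 (Ideal.subset_span ⟨j, rfl⟩)) x hx

omit [IsAlgClosed k] in
theorem GLQ1_pow {p : Ideal (MvPolynomial P.V k)} (hp : p.IsPrime) {g : MvPolynomial P.V k}
    {u : k} {q : ℕ} (hu : u ≠ 0) (hq : 0 < q) : C u * g ^ q ∈ p ↔ g ∈ p := by
  rw [Ideal.unit_mul_mem_iff_mem _ ((IsUnit.mk0 u hu).map C), hp.pow_mem_iff_mem q hq]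

omit [IsAlgClosed k] in
theorem GLQ1_irr {O : Type u} [CommRing O] [IsLocalRing O] [Algebra O k] [FaithfulSMul O k]
    (T : Sub k P) : (idl (T : Set (P.Pt k))).comap (MvPolynomial.map (algebraMap O k)) ≤
      irr P.V O := by
  intro G hG
  have h1 := cst_idl T hG
  rw [constantCoeff_map, FaithfulSMul.algebraMap_eq_zero_iff] at h1
  rw [irr, Ideal.mem_comap, h1]
  exact zero_mem _

omit [IsAlgClosed k] in
theorem GLQ1_span {O : Type u} [CommRing O] (φ : O →+* k) {J : Ideal (MvPolynomial P.V k)}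
    (hJ : Hmg J) : Ideal.span {G | G ∈ J.comap (MvPolynomial.map φ) ∧
      ∃ a, IsForm (MvPolynomial.map φ G) a} = J.comap (MvPolynomial.map φ) := by
  classical
  refine le_antisymm (Ideal.span_le.2 fun G hG => hG.1) fun G hG => ?_
  rw [← sum_weightedHomogeneousComponent (fun s : P.V => (Finsupp.single s.1 1 : P.ι →₀ ℕ)) G,
    finsum_eq_sum _ (weightedHomogeneousComponent_finsupp G)]
  refine Ideal.sum_mem _ fun a _ => Ideal.subset_span ?_
  have e : MvPolynomial.map φ (weightedHomogeneousComponent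
      (fun s : P.V => (Finsupp.single s.1 1 : P.ι →₀ ℕ)) a G) = cpt a (MvPolynomial.map φ G) := by
    ext d
    rw [cpt, coeff_map, coeff_weightedHomogeneousComponent, coeff_weightedHomogeneousComponent,
      coeff_map]
    split_ifs
    · rfl
    · exact map_zero _
  exact ⟨Ideal.mem_comap.2 (e ▸ hJ _ hG a), a, e ▸ cpt_form a _⟩

theorem div_of_core [Fintype P.V] {O : Type u} [CommRing O] [IsDomain O]
    [IsDiscreteValuationRing O] [Algebra O k] [FaithfulSMul O k] [Algebra.IsAlgebraic O k]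
    {f : Fin r → MvPolynomial P.V O}
    (hf : ∀ j, ∃ a, IsForm (MvPolynomial.map (algebraMap O k) (f j)) a)
    (h : ∀ x, x ∈ Z.pts ↔ ∀ j, ev x (MvPolynomial.map (algebraMap O k) (f j)) = 0)
    {b z₁ z₂ : P.V} (hs : Spc (fun j => MvPolynomial.map (residue O) (f j)) b z₁ z₂)
    (hD : (D : Set (P.Pt k)) ⊆ Z.pts) (hd : sdim D + 1 = Z.dim) {κ : Type} [Fintype κ]
    {g : κ → MvPolynomial P.V k} {a : P.ι →₀ ℕ} (hc : Cuts (D : Set (P.Pt k)) g a)
    (hG : ∀ i, ∃ (G : MvPolynomial P.V O) (u : k) (q : ℕ), u ≠ 0 ∧ 0 < q ∧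
      MvPolynomial.map (algebraMap O k) G = C u * g i ^ q) :
    ∃ w a', IsForm w a' ∧ ∀ x, x ∈ D ↔ x ∈ Z.pts ∧ ev x w = 0 := by
  choose G u q hu hq hG using hG
  have hf' : ∀ T : Sub k P, (T : Set (P.Pt k)) ⊆ Z.pts → Ideal.span (Set.range f) ≤
      (idl (T : Set (P.Pt k))).comap (MvPolynomial.map (algebraMap O k)) := by
    intro T hT
    refine Ideal.span_le.2 (Set.range_subset_iff.2 fun j => ?_)
    obtain ⟨c, hc⟩ := hf j
    exact (mem_idl hc).2 fun x hx => (h x).1 (hT hx) j
  have hG' : ∀ (T : Sub k P) i,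
      G i ∈ (idl (T : Set (P.Pt k))).comap (MvPolynomial.map (algebraMap O k)) ↔
        Van (T : Set (P.Pt k)) (g i) := fun T i => by
    rw [Ideal.mem_comap, hG, GLQ1_pow (idl_prime T) (hu i) (hq i), mem_idl (hc.form i)]
  obtain ⟨i, hi⟩ : ∃ i, ¬ Van (Z.tp : Set (P.Pt k)) (g i) := by
    by_contra hn
    have h1 : Z.tp ≤ D := fun x hx =>
      hc.mem D.isClosed fun i => not_not.1 (not_exists.1 hn i) x hx
    have h2 := sdim_mono h1
    rw [SV.sdim_tp] at h2
    omega
  have hm : (idl (D : Set (P.Pt k))).comap (MvPolynomial.map (algebraMap O k)) ∈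
      (Ideal.span (Set.range f) ⊔ Ideal.span {G i}).minimalPrimes := by
    refine ⟨⟨Ideal.comap_isPrime _ _, sup_le (hf' D hD)
      ((Ideal.span_singleton_le_iff_mem _).2 ((hG' D i).2 (hc.van i)))⟩, fun q' hq' hle => ?_⟩
    have := hq'.1
    obtain ⟨p', p1, p2, rfl⟩ := going_down (idl (D : Set (P.Pt k))) q' hle
    have h1 := sup_le_iff.1 hq'.2
    have h2 : idl Z.pts ≤ p' :=
      idl_le_of_prime hf h (fun j => h1.1 (Ideal.subset_span ⟨j, rfl⟩)) p2
    have h3 : g i ∈ p' := by
      have e := h1.2 (Ideal.mem_span_singleton_self _)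
      rwa [Ideal.mem_comap, hG, GLQ1_pow p1 (hu i) (hq i)] at e
    have h4 := (min_form (V := Z.tp) (T := D) (hc.form i) hi).2
      ⟨hD, hc.van i, hd.trans Z.sdim_tp.symm⟩
    exact Ideal.comap_mono
      (h4.2 ⟨p1, sup_le h2 ((Ideal.span_singleton_le_iff_mem _).2 h3)⟩ p2)
  obtain ⟨g₀, ⟨g1, a', g2⟩, g3⟩ := core hs (GLQ1_irr D) (fun c hc => by
      have h1 := cst_idl D hc
      rwa [map_C, constantCoeff_C, FaithfulSMul.algebraMap_eq_zero_iff] at h1) hm
    (fun s hs hs' => ((Ideal.comap_isPrime _ _).mem_or_mem (hf' Z.tp subset_rfl hs')).elim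
      (fun e => hs (GLQ1_irr _ e)) fun e => hi ((hG' _ i).1 e))
    (GLQ1_span (algebraMap O k) (idl_hmg _))
  refine ⟨_, a', g2, fun x => ⟨fun hx => ⟨hD hx, van_idl g1 x hx⟩, fun hx => ?_⟩⟩
  refine hc.mem D.isClosed fun j => ?_
  obtain ⟨s, s1, s2⟩ := g3 (G j) ((hG' D j).2 (hc.van j))
  have h1 : Ideal.span (Set.range f) ⊔ Ideal.span {g₀} ≤
      (idl (({x} : Sub k P) : Set (P.Pt k))).comap (MvPolynomial.map (algebraMap O k)) :=
    sup_le (hf' {x} (Set.singleton_subset_iff.2 hx.1)) ((Ideal.span_singleton_le_iff_mem _).2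
      ((mem_idl g2).2 fun y hy => (show y = x from hy) ▸ hx.2))
  exact ((Ideal.comap_isPrime _ _).mem_or_mem (h1 s2)).elim (fun e => (s1 (GLQ1_irr _ e)).elim)
    fun e => (hG' _ j).1 e x rfl

theorem div_cut [Unique P.ι] (hr : r ≠ 0) {f : Fin r → MvPolynomial P.V k}
    {a : Fin r → P.ι →₀ ℕ} (h1 : ∀ j, IsForm (f j) (a j)) (h2 : ∀ j i, 0 < a j i)
    (h3 : ∀ x, x ∈ Z.pts ↔ ∀ j, ev x (f j) = 0)
    (h4 : AlgebraicIndependent (⊥ : Subfield k) fun p : Par a => coeff p.2.1 (f p.1))
    (hc : r + 4 ≤ Nat.card P.V) (hD : (D : Set (P.Pt k)) ⊆ Z.pts) (hd : sdim D + 1 = Z.dim) :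
    ∃ w a', IsForm w a' ∧ ∀ x, x ∈ D ↔ x ∈ Z.pts ∧ ev x w = 0 := by
  classical
  let _ := Fintype.ofFinite P.V
  let _ : ∀ j, Fintype (Mon (a j)) := fun j => Fintype.ofFinite _
  obtain ⟨k₀, e1, e2⟩ := exists_base ⊥ h4
  have ha : Algebra.IsAlgebraic
      (Algebra.adjoin k₀ (Set.range fun p : Par a => coeff p.2.1 (f p.1))) k := ⟨fun y => by
    obtain ⟨Q, q1, q2⟩ := e2 y
    refine ⟨Q.map (e1.aevalEquiv : MvPolynomial (Par a) k₀ →+* _),
      (Polynomial.map_ne_zero_iff e1.aevalEquiv.injective).2 q1, ?_⟩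
    rw [Polynomial.aeval_def, Polynomial.eval₂_map]
    exact q2⟩
  obtain ⟨κ, _, g, a₀, hg⟩ := exists_cuts (D : Set (P.Pt k))
  obtain ⟨v⟩ : Nonempty (Fin 4 ⊕ Fin r ↪ P.V) := Function.Embedding.nonempty_of_card_le (by
    rw [Fintype.card_sum, Fintype.card_fin, Fintype.card_fin, ← Nat.card_eq_fintype_card]
    omega)
  let j₀ : Fin r := ⟨0, Nat.pos_of_ne_zero hr⟩
  obtain ⟨O, _, c', c1, c2, c3, c4, c5⟩ := exists_spec e1 ha
    (fun p : Par a => TA v (fun j => a j default) p.1 p.2.1)
    (i₀ := ⟨j₀, Finsupp.single (v (Sum.inl 0)) (a j₀ default),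
      wt_iff.2 (Finsupp.degree_single _ _)⟩) (not_TA v _ (h2 j₀ default)) (Finset.univ.image g)
  let f' : Fin r → MvPolynomial P.V O := fun j => ∑ m : Mon (a j), monomial m.1 (c' ⟨j, m⟩)
  have hf : ∀ j, MvPolynomial.map (algebraMap O k) (f' j) = f j := fun j => by
    refine Eq.trans ?_ (form_eq (h1 j)).symm
    rw [map_sum]
    refine Finset.sum_congr rfl fun m _ => ?_
    rw [map_monomial, C_mul_monomial, mul_one]
    exact congrArg _ (c2 ⟨j, m⟩)
  have hco : ∀ j m, algebraMap O k (coeff m (f' j)) = coeff m (f j) := fun j m => by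
    rw [← hf, coeff_map]
  have hc' : ∀ p : Par a, coeff p.2.1 (f' p.1) = c' p := fun p =>
    Subtype.ext ((hco _ _).trans (c2 p).symm)
  have hw : ∀ j m, coeff m (MvPolynomial.map (residue O) (f' j)) ≠ 0 →
      Finsupp.weight (fun s : P.V => Finsupp.single s.1 1) m = a j := fun j m hm =>
    h1 j fun e => hm (by
      rw [← hco, FaithfulSMul.algebraMap_eq_zero_iff] at e
      rw [coeff_map, e, map_zero])
  have H : Tri v (fun j => a j default) k₀ fun j => MvPolynomial.map (residue O) (f' j) := by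
    refine ⟨fun j => h2 j default, fun j m hm => ?_, fun j m hm => ?_, ?_⟩
    · have e := wt_iff.1 (hw j m hm)
      rw [Finsupp.degree_eq_weight_one] at e
      exact e
    · by_contra hn
      refine hm ?_
      rw [coeff_map, hc' ⟨j, m, hw j m hm⟩]
      exact c3 _ hn
    · let τ : {p : Fin r × (P.V →₀ ℕ) // p.2.degree = a p.1 default ∧
          TA v (fun j => a j default) p.1 p.2} →
          {p : Par a // TA v (fun j => a j default) p.1 p.2.1} :=
        fun p => ⟨⟨p.1.1, p.1.2, wt_iff.2 p.2.1⟩, p.2.2⟩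
      have hτ : Function.Injective τ := fun p p' e => Subtype.ext
        (congrArg (fun t : {p : Par a // TA v (fun j => a j default) p.1 p.2.1} =>
          ((t.1.1, t.1.2.1) : Fin r × (P.V →₀ ℕ))) e)
      have e : (fun p => coeff p.1.2 (MvPolynomial.map (residue O) (f' p.1.1))) =
          (fun i : {p : Par a // TA v (fun j => a j default) p.1 p.2.1} => residue O (c' i)) ∘ τ :=
        funext fun p => (coeff_map _ _ _).trans (congrArg _ (hc' (τ p).1))
      exact e ▸ c4.comp τ hτ
  exact div_of_core (O := O) (f := f') (fun j => ⟨a j, (hf j).symm ▸ h1 j⟩)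
    (fun x => by simp only [hf, h3]) H.spc hD hd hg
    fun i => c5 _ (Finset.mem_image_of_mem g (Finset.mem_univ i))

end Pool.Agent.Work.MP_10f4af_ag
end
end
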